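import Mathlib
import Pool.Agent.K1H51.LP.Core

set_option autoImplicit false

/-! Functions modulo `M` with a small Wiener norm, and averages over families with a small large spectrum. -/

namespace Pool.Agent.K1H51.TM

open Finset Pool.Agent.H373R2.T7
open Pool.Agent.H807R2.Dav
open Pool.Agent.K1H51.LP (spec)
open Pool.Agent.K1H51.LD (ee_per)

/-- `h` is a combination of additive characters modulo `M` with coefficients of total size at most `w` -/
def Wn (M : ℕ) (w : ℝ) (h : ℤ → ℂ) : Prop :=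
  ∃ (J : Type) (S : Finset J) (c : J → ℂ) (τ : J → ℤ),
    (∀ a : ℤ, h a = ∑ j ∈ S, c j * ee ((τ j : ℝ) * ((a : ℝ) / M))) ∧ ∑ j ∈ S, ‖c j‖ ≤ w

lemma Wn.nonneg {M : ℕ} {w : ℝ} {h : ℤ → ℂ} (H : Wn M w h) : 0 ≤ w := by
  obtain ⟨J, S, c, τ, _, h2⟩ := H
  exact (sum_nonneg fun _ _ => norm_nonneg _).trans h2

lemma Wn.mono {M : ℕ} {w w' : ℝ} {h : ℤ → ℂ} (H : Wn M w h) (hw : w ≤ w') : Wn M w' h := by
  obtain ⟨J, S, c, τ, h1, h2⟩ := H
  exact ⟨J, S, c, τ, h1, h2.trans hw⟩

lemma Wn.congr {M : ℕ} {w : ℝ} {h h' : ℤ → ℂ} (H : Wn M w h) (e : ∀ a, h' a = h a) : Wn M w h' := by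
  obtain ⟨J, S, c, τ, h1, h2⟩ := H
  exact ⟨J, S, c, τ, fun a => (e a).trans (h1 a), h2⟩

lemma Wn.zero (M : ℕ) : Wn M 0 (fun _ => 0) :=
  ⟨ℕ, ∅, fun _ => 0, fun _ => 0, fun a => by simp, by simp⟩

lemma Wn.add {M : ℕ} {w w' : ℝ} {h h' : ℤ → ℂ} (H : Wn M w h) (H' : Wn M w' h') :
    Wn M (w + w') (fun a => h a + h' a) := by
  classical
  obtain ⟨J, S, c, τ, h1, h2⟩ := H
  obtain ⟨J', S', c', τ', h1', h2'⟩ := H'
  refine ⟨J ⊕ J', S.disjSum S', Sum.elim c c', Sum.elim τ τ', fun a => ?_, ?_⟩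
  · show h a + h' a = _
    rw [sum_disjSum, h1, h1']
    simp
  · rw [sum_disjSum]
    simp only [Sum.elim_inl, Sum.elim_inr]
    linarith

lemma Wn.smul {M : ℕ} {w : ℝ} {h : ℤ → ℂ} (H : Wn M w h) (b : ℂ) :
    Wn M (‖b‖ * w) (fun a => b * h a) := by
  obtain ⟨J, S, c, τ, h1, h2⟩ := H
  refine ⟨J, S, fun j => b * c j, τ, fun a => ?_, ?_⟩
  · show b * h a = _
    rw [h1, mul_sum]
    apply sum_congr rfl
    intro j _
    ring
  · simp only [norm_mul]
    rw [← mul_sum]
    exact mul_le_mul_of_nonneg_left h2 (norm_nonneg _)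

lemma Wn.sum {M : ℕ} {κ : Type*} (T : Finset κ) (w : κ → ℝ) (h : κ → ℤ → ℂ) (H : ∀ k ∈ T, Wn M (w k) (h k)) :
    Wn M (∑ k ∈ T, w k) (fun a => ∑ k ∈ T, h k a) := by
  classical
  induction T using Finset.induction_on with
  | empty => simpa using Wn.zero M
  | insert k T hk ih =>
    have h1 := (H k (mem_insert_self _ _)).add (ih fun k' hk' => H k' (mem_insert_of_mem hk'))
    rw [sum_insert hk]
    exact h1.congr fun a => by rw [sum_insert hk]

lemma Wn.mul {M : ℕ} {w w' : ℝ} {h h' : ℤ → ℂ} (H : Wn M w h) (H' : Wn M w' h') :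
    Wn M (w * w') (fun a => h a * h' a) := by
  classical
  have hw := H.nonneg
  obtain ⟨J, S, c, τ, h1, h2⟩ := H
  obtain ⟨J', S', c', τ', h1', h2'⟩ := H'
  refine ⟨J × J', S ×ˢ S', fun j => c j.1 * c' j.2, fun j => τ j.1 + τ' j.2, fun a => ?_, ?_⟩
  · show h a * h' a = _
    rw [sum_product, h1, h1', sum_mul_sum]
    apply sum_congr rfl
    intro j _
    apply sum_congr rfl
    intro j' _
    dsimp only
    have : (((τ j + τ' j' : ℤ) : ℝ) * ((a : ℝ) / M)) = (τ j : ℝ) * ((a : ℝ) / M) + (τ' j' : ℝ) * ((a : ℝ) / M) := by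
      push_cast; ring
    rw [this, ee_add]
    ring
  · rw [sum_product]
    simp only [norm_mul]
    rw [← sum_mul_sum]
    exact mul_le_mul h2 h2' (sum_nonneg fun _ _ => norm_nonneg _) hw

/-- averages over a family with a small large spectrum -/
theorem transfer {ι : Type*} (I : Finset ι) (s : ι → ℤ) (M : ℕ) (hM : 1 ≤ M) (η w : ℝ) (hη : 0 ≤ η) (h : ℤ → ℂ)
    (hw : Wn M w h) :
    ‖∑ i ∈ I, h (s i)‖ ≤ I.card * (((spec M I s η).card : ℝ) / M * ∑ a ∈ range M, ‖h a‖ + η * w) := by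
  classical
  obtain ⟨J, S, c, τ, h1, h2⟩ := hw
  have hM0 : (0 : ℝ) < M := by exact_mod_cast hM
  have hMz : (M : ℤ) ≠ 0 := by omega
  obtain ⟨r, hr⟩ : ∃ r : J → ℕ, r = fun j => (τ j % M).toNat := ⟨_, rfl⟩
  have hrz : ∀ j, ((r j : ℕ) : ℤ) = τ j % M := by
    intro j
    rw [hr]
    exact Int.toNat_of_nonneg (Int.emod_nonneg _ hMz)
  have hrM : ∀ j, r j < M := by
    intro j
    have := Int.emod_lt_of_pos (τ j) (by omega : (0 : ℤ) < M)
    have := hrz j
    omega
  have hrd : ∀ j, (M : ℤ) ∣ τ j - (r j : ℤ) := by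
    intro j
    rw [hrz]
    exact Int.dvd_self_sub_emod
  obtain ⟨A, hA⟩ : ∃ A : ℕ → ℂ, A = fun t : ℕ => ∑ i ∈ I, ee ((t : ℝ) * ((s i : ℝ) / M)) := ⟨_, rfl⟩
  have hA1 : ∀ t, ‖A t‖ ≤ I.card := by
    intro t
    rw [hA]
    refine (norm_sum_le _ _).trans ?_
    simp [norm_ee]
  have e1 : ∑ i ∈ I, h (s i) = ∑ j ∈ S, c j * A (r j) := by
    simp only [h1]
    rw [sum_comm]
    apply sum_congr rfl
    intro j _
    rw [← mul_sum, hA]
    congr 1
    apply sum_congr rfl
    intro i _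
    have := ee_per M hM (s i) (τ j) (r j) (hrd j)
    rw [this]
    simp
  have e2 : ∑ j ∈ S, c j * A (r j) = ∑ j ∈ S.filter (fun j => r j ∈ spec M I s η), c j * A (r j) +
      ∑ j ∈ S.filter (fun j => ¬ r j ∈ spec M I s η), c j * A (r j) :=
    (sum_filter_add_sum_filter_not S _ _).symm
  have e3 : ‖∑ j ∈ S.filter (fun j => ¬ r j ∈ spec M I s η), c j * A (r j)‖ ≤ w * (η * I.card) := by
    have h3 : ∀ j ∈ S.filter (fun j => ¬ r j ∈ spec M I s η), ‖c j * A (r j)‖ ≤ ‖c j‖ * (η * I.card) := by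
      intro j hj
      rw [mem_filter] at hj
      rw [norm_mul]
      apply mul_le_mul_of_nonneg_left _ (norm_nonneg _)
      have h4 := hj.2
      unfold spec at h4
      rw [mem_filter, mem_range] at h4
      push Not at h4
      rw [hA]
      exact h4 (hrM j)
    refine (norm_sum_le _ _).trans ((sum_le_sum h3).trans ?_)
    rw [← sum_mul]
    apply mul_le_mul_of_nonneg_right _ (by positivity)
    exact (sum_le_sum_of_subset_of_nonneg (filter_subset _ _) fun _ _ _ => norm_nonneg _).trans h2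
  have e4 : ∑ j ∈ S.filter (fun j => r j ∈ spec M I s η), c j * A (r j) =
      ∑ t ∈ spec M I s η, (∑ j ∈ S.filter (fun j => r j = t), c j) * A t := by
    rw [← sum_fiberwise_of_maps_to (s := S.filter (fun j => r j ∈ spec M I s η)) (t := spec M I s η) (g := r)
      (fun j hj => (mem_filter.1 hj).2)]
    apply sum_congr rfl
    intro t ht
    rw [filter_filter, sum_mul]
    have : S.filter (fun j => r j ∈ spec M I s η ∧ r j = t) = S.filter (fun j => r j = t) := by
      apply filter_congr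
      intro j _
      constructor
      · intro h; exact h.2
      · intro h; rw [h]; exact ⟨ht, rfl⟩
    rw [this]
    apply sum_congr rfl
    intro j hj
    rw [(mem_filter.1 hj).2]
  have e5 : ∀ t ∈ spec M I s η, ‖∑ j ∈ S.filter (fun j => r j = t), c j‖ ≤ 1 / M * ∑ a ∈ range M, ‖h a‖ := by
    intro t ht
    have htM : t < M := by
      unfold spec at ht
      rw [mem_filter, mem_range] at ht
      exact ht.1
    have h3 : ∑ a ∈ range M, h a * ee ((a : ℝ) * (((-(t : ℤ) : ℤ) : ℝ) / M)) = (M : ℂ) * ∑ j ∈ S.filter (fun j => r j = t), c j := by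
      have h4 : ∀ a ∈ range M, h a * ee ((a : ℝ) * (((-(t : ℤ) : ℤ) : ℝ) / M)) =
          ∑ j ∈ S, c j * ee ((a : ℝ) * (((τ j - t : ℤ) : ℝ) / M)) := by
        intro a _
        rw [h1, sum_mul]
        apply sum_congr rfl
        intro j _
        rw [mul_assoc, ← ee_add]
        congr 2
        push_cast
        ring
      rw [sum_congr rfl h4, sum_comm, mul_sum, sum_filter]
      apply sum_congr rfl
      intro j _
      rw [← mul_sum, orth M hM]
      by_cases hj : r j = t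
      · rw [if_pos hj, if_pos (by rw [← hj]; exact hrd j)]
        ring
      · rw [if_neg hj, if_neg, mul_zero]
        intro hd
        apply hj
        have h5 : (M : ℤ) ∣ (r j : ℤ) - t := by
          have := dvd_sub hd (hrd j)
          have e : τ j - (t : ℤ) - (τ j - (r j : ℤ)) = (r j : ℤ) - t := by ring
          rwa [e] at this
        have h6 : |(r j : ℤ) - t| < M := by
          have := hrM j
          rw [abs_lt]
          constructor <;> omega
        have := Int.eq_zero_of_abs_lt_dvd h5 h6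
        omega
    have h4 : (M : ℝ) * ‖∑ j ∈ S.filter (fun j => r j = t), c j‖ ≤ ∑ a ∈ range M, ‖h a‖ := by
      have h5 : (M : ℝ) * ‖∑ j ∈ S.filter (fun j => r j = t), c j‖ = ‖(M : ℂ) * ∑ j ∈ S.filter (fun j => r j = t), c j‖ := by
        rw [norm_mul, Complex.norm_natCast]
      rw [h5, ← h3]
      refine (norm_sum_le _ _).trans (sum_le_sum fun a _ => ?_)
      rw [norm_mul, norm_ee, mul_one]
    rw [one_div, inv_mul_eq_div, le_div_iff₀ hM0]
    linarith
  have e6 : ‖∑ t ∈ spec M I s η, (∑ j ∈ S.filter (fun j => r j = t), c j) * A t‖ ≤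
      (spec M I s η).card * ((1 / M * ∑ a ∈ range M, ‖h a‖) * I.card) := by
    refine (norm_sum_le _ _).trans ?_
    rw [← nsmul_eq_mul]
    apply sum_le_card_nsmul
    intro t ht
    rw [norm_mul]
    exact mul_le_mul (e5 t ht) (hA1 t) (norm_nonneg _) (by positivity)
  rw [e1, e2, e4]
  refine (norm_add_le _ _).trans ((add_le_add e6 e3).trans (le_of_eq ?_))
  field_simp

end Pool.Agent.K1H51.TM
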