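import Mathlib
import Pool.Agent.K1H51.TM.Wn

set_option autoImplicit false

/-! Wiener norms of the correlations along progressions. -/

namespace Pool.Agent.K1H51.TM

open Finset Pool.Agent.H373R2.T7
open Pool.Agent.H807R2.Dav

lemma ee_swap (s q M : ℝ) (k : ℝ) : s * ((q * k) / M) = q * (k * s / M) := by ring

/-- sums of geometric sums over a complete set of frequencies -/
lemma sum_ker (M : ℕ) (hM : 1 ≤ M) (Q Q' : ℕ) (hQ : Q ≤ Q') (l : ℤ) (hl : l ≠ 0) (c : ℤ) :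
    ∑ s ∈ range M, ‖∑ q ∈ Ico Q Q', ee ((q : ℝ) * (((c + l * s : ℤ) : ℝ) / M))‖ ≤
      78 * (|l| : ℤ) * ((Q' : ℝ) - Q) + 6 * M * (1 + Real.log M) := by
  have hM0 : (0 : ℝ) < M := by exact_mod_cast hM
  have hQQ : (0 : ℝ) ≤ (Q' : ℝ) - Q := by
    have : (Q : ℝ) ≤ Q' := by exact_mod_cast hQ
    linarith
  have h1 : ∀ s ∈ range M, ‖∑ q ∈ Ico Q Q', ee ((q : ℝ) * (((c + l * s : ℤ) : ℝ) / M))‖ ≤
      KK ((Q' : ℝ) - Q) ((c : ℝ) / M + s * ((l : ℝ) / M)) := by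
    intro s _
    have := geo_bound Q Q' hQ (le_refl ((Q' : ℝ) - Q)) ((c : ℝ) / M + s * ((l : ℝ) / M))
    refine le_trans (le_of_eq ?_) this
    congr 1
    apply sum_congr rfl
    intro q _
    congr 2
    push_cast
    ring
  refine (sum_le_sum h1).trans ?_
  -- lowest terms
  obtain ⟨g, hg⟩ : ∃ g : ℕ, g = Int.gcd l M := ⟨_, rfl⟩
  have hg0 : 0 < g := by
    rw [hg]
    exact Int.gcd_pos_of_ne_zero_left _ hl
  obtain ⟨l', hl'⟩ : (g : ℤ) ∣ l := by rw [hg]; exact Int.gcd_dvd_left ..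
  obtain ⟨m', hm'⟩ : (g : ℤ) ∣ (M : ℤ) := by rw [hg]; exact Int.gcd_dvd_right ..
  have hm0 : 0 < m' := by
    have : (0 : ℤ) < g * m' := by rw [← hm']; omega
    exact (mul_pos_iff_of_pos_left (by omega : (0 : ℤ) < g)).1 this
  obtain ⟨M', hM'⟩ : ∃ M' : ℕ, (M' : ℤ) = m' := ⟨m'.toNat, Int.toNat_of_nonneg hm0.le⟩
  have hMM : M = g * M' := by
    have : (M : ℤ) = ((g * M' : ℕ) : ℤ) := by rw [hm', ← hM']; push_cast; ring
    exact_mod_cast this
  have hM'1 : 1 ≤ M' := by omega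
  have hcop : IsCoprime l' (M' : ℤ) := by
    rw [Int.isCoprime_iff_gcd_eq_one]
    have h2 : Int.gcd l M = g * Int.gcd l' M' := by
      have e : (M : ℤ) = g * (M' : ℤ) := by rw [hMM]; push_cast; ring
      rw [e, hl', Int.gcd_mul_left]
      simp
    rw [← hg] at h2
    have h3 : g * Int.gcd l' M' = g * 1 := by omega
    exact Nat.eq_of_mul_eq_mul_left hg0 h3
  have hM'0 : (0 : ℝ) < M' := by exact_mod_cast hM'1
  have hg0' : (0 : ℝ) < g := by exact_mod_cast hg0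
  have hα : (l : ℝ) / M = (l' : ℝ) / M' := by
    rw [hMM, hl']
    push_cast
    rw [div_eq_div_iff (by positivity) (by positivity)]
    ring
  have h2 := vino hM'1 hcop (α := (l : ℝ) / M) (by rw [hα, sub_self, abs_zero]; positivity) hQQ ((c : ℝ) / M) M
  refine h2.trans ?_
  have h3 : (M : ℝ) / M' = g := by
    rw [hMM]
    push_cast
    field_simp
  rw [h3]
  have hlog : Real.log M' ≤ Real.log M := by
    apply Real.log_le_log hM'0
    have : M' ≤ M := by rw [hMM]; exact Nat.le_mul_of_pos_left _ hg0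
    exact_mod_cast this
  have hlog0 : 0 ≤ Real.log M' := Real.log_nonneg (by exact_mod_cast hM'1)
  have hgl : (g : ℝ) ≤ ((|l| : ℤ) : ℝ) := by
    have h4 : g ≤ l.natAbs := by
      rw [hg]
      exact Nat.le_of_dvd (Int.natAbs_pos.2 hl) (Int.gcd_dvd_natAbs_left l M)
    have h5 : (g : ℤ) ≤ |l| := by
      rw [Int.abs_eq_natAbs]
      exact_mod_cast h4
    exact_mod_cast h5
  have hg1 : (1 : ℝ) ≤ g := by exact_mod_cast hg0
  have e1 : ((g : ℝ) + 1) * (39 * ((Q' : ℝ) - Q)) ≤ 78 * (|l| : ℤ) * ((Q' : ℝ) - Q) := by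
    have : ((g : ℝ) + 1) * 39 ≤ 78 * (|l| : ℤ) := by linarith
    calc ((g : ℝ) + 1) * (39 * ((Q' : ℝ) - Q)) = (((g : ℝ) + 1) * 39) * ((Q' : ℝ) - Q) := by ring
      _ ≤ _ := mul_le_mul_of_nonneg_right this hQQ
  have e2 : ((g : ℝ) + 1) * (3 * M' * (1 + Real.log M')) ≤ 6 * M * (1 + Real.log M) := by
    have h4 : (M : ℝ) = g * M' := by rw [hMM]; push_cast; ring
    have h5 : ((g : ℝ) + 1) * (3 * M') ≤ 6 * M := by rw [h4]; nlinarith
    calc ((g : ℝ) + 1) * (3 * M' * (1 + Real.log M')) = (((g : ℝ) + 1) * (3 * M')) * (1 + Real.log M') := by ring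
      _ ≤ (6 * M) * (1 + Real.log M) := mul_le_mul h5 (by linarith) (by linarith) (by positivity)
      _ = _ := by ring
  calc ((g : ℝ) + 1) * (39 * ((Q' : ℝ) - Q) + 3 * M' * (1 + Real.log M')) =
      ((g : ℝ) + 1) * (39 * ((Q' : ℝ) - Q)) + ((g : ℝ) + 1) * (3 * M' * (1 + Real.log M')) := by ring
    _ ≤ _ := add_le_add e1 e2

/-- the coefficients of the periodic extension of `F` restricted to `[1, y]` -/
noncomputable def gc (M y : ℕ) (F : ℕ → ℝ) (s : ℕ) : ℂ :=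
  1 / M * ∑ m ∈ Icc 1 y, (F m : ℂ) * ee ((s : ℝ) * ((((-1 : ℤ) * m : ℤ) : ℝ) / M))

/-- the periodic extension of `F` restricted to `[1, y]` -/
noncomputable def Gp (M y : ℕ) (F : ℕ → ℝ) (n : ℤ) : ℂ := ∑ s ∈ range M, gc M y F s * ee ((s : ℝ) * ((n : ℝ) / M))

lemma Gp_eq (M y : ℕ) (hM : 1 ≤ M) (F : ℕ → ℝ) (n : ℤ) :
    Gp M y F n = ((∑ m ∈ Icc 1 y, if (M : ℤ) ∣ n - m then F m else 0 : ℝ) : ℂ) := by
  have hM0 : (M : ℂ) ≠ 0 := by
    have : M ≠ 0 := by omega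
    exact_mod_cast this
  unfold Gp gc
  have h1 : ∀ s ∈ range M, 1 / (M : ℂ) * (∑ m ∈ Icc 1 y, (F m : ℂ) * ee ((s : ℝ) * ((((-1 : ℤ) * m : ℤ) : ℝ) / M))) *
      ee ((s : ℝ) * ((n : ℝ) / M)) = 1 / (M : ℂ) * ∑ m ∈ Icc 1 y, (F m : ℂ) * ee ((s : ℝ) * (((n - m : ℤ) : ℝ) / M)) := by
    intro s _
    rw [mul_assoc, sum_mul]
    congr 1
    apply sum_congr rfl
    intro m _
    rw [mul_assoc, ← ee_add]
    congr 2
    push_cast
    ring
  rw [sum_congr rfl h1, ← mul_sum, sum_comm]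
  have h2 : ∀ m ∈ Icc 1 y, ∑ s ∈ range M, (F m : ℂ) * ee ((s : ℝ) * (((n - m : ℤ) : ℝ) / M)) =
      (M : ℂ) * (((if (M : ℤ) ∣ n - m then F m else 0 : ℝ)) : ℂ) := by
    intro m _
    rw [← mul_sum, orth M hM]
    split_ifs
    · ring
    · simp
  rw [sum_congr rfl h2, ← mul_sum, ← mul_assoc, one_div_mul_cancel hM0, one_mul]
  push_cast
  rfl

lemma gc_sq (M y : ℕ) (hM : 1 ≤ M) (hy : y ≤ M) (F : ℕ → ℝ) :
    ∑ s ∈ range M, ‖gc M y F s‖ ^ 2 = 1 / M * ∑ m ∈ Icc 1 y, F m ^ 2 := by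
  have hM0 : (M : ℝ) ≠ 0 := by
    have : M ≠ 0 := by omega
    exact_mod_cast this
  unfold gc
  have h1 := parseval_Icc y M hM hy (fun m => (F m : ℂ)) (-1) (Or.inr rfl)
  have h2 : ∀ s ∈ range M, ‖1 / (M : ℂ) * ∑ m ∈ Icc 1 y, (F m : ℂ) * ee ((s : ℝ) * ((((-1 : ℤ) * m : ℤ) : ℝ) / M))‖ ^ 2 =
      (1 / (M : ℝ)) ^ 2 * ‖∑ m ∈ Icc 1 y, (F m : ℂ) * ee ((s : ℝ) * ((((-1 : ℤ) * m : ℤ) : ℝ) / M))‖ ^ 2 := by
    intro s _
    rw [norm_mul, mul_pow, norm_div, norm_one, Complex.norm_natCast]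
  rw [sum_congr rfl h2, ← mul_sum, h1]
  have h3 : ∀ m ∈ Icc 1 y, ‖(F m : ℂ)‖ ^ 2 = F m ^ 2 := by
    intro m _
    rw [Complex.norm_real, Real.norm_eq_abs, sq_abs]
  rw [sum_congr rfl h3]
  field_simp

/-- products along progressions -/
lemma Wn_corr (M y : ℕ) (hM : 1 ≤ M) (hy : y ≤ M) (F : ℕ → ℝ) (V : ℝ) (hV : ∑ m ∈ Icc 1 y, F m ^ 2 ≤ V) (Q Q' : ℕ) (hQ : Q ≤ Q')
    (k l : ℤ) (hk : k ≠ 0) (hl : l ≠ 0) (κ : ℝ) (hkκ : ((|k| : ℤ) : ℝ) ≤ κ) (hlκ : ((|l| : ℤ) : ℝ) ≤ κ)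
    (hκ : κ * ((Q' : ℝ) - Q) ≤ M) :
    Wn M (V * (84 * (1 + Real.log M))) (fun a => ∑ q ∈ Ico Q Q', Gp M y F (a + q * k) * Gp M y F (a + q * l)) := by
  classical
  have hM0 : (0 : ℝ) < M := by exact_mod_cast hM
  have hlogM : 0 ≤ Real.log M := Real.log_nonneg (by exact_mod_cast hM)
  obtain ⟨D, hD⟩ : ∃ D : ℤ → ℂ, D = fun v : ℤ => ∑ q ∈ Ico Q Q', ee ((q : ℝ) * ((v : ℝ) / M)) := ⟨_, rfl⟩
  have hQQ : (0 : ℝ) ≤ (Q' : ℝ) - Q := by
    have : (Q : ℝ) ≤ Q' := by exact_mod_cast hQ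
    linarith
  have hker : ∀ l : ℤ, l ≠ 0 → ((|l| : ℤ) : ℝ) ≤ κ → ∀ c : ℤ, ∑ s ∈ range M, ‖D (c + l * s)‖ ≤ 84 * M * (1 + Real.log M) := by
    intro l hl hlκ c
    have h1 := sum_ker M hM Q Q' hQ l hl c
    rw [hD]
    refine h1.trans ?_
    have h2 : 78 * ((|l| : ℤ) : ℝ) * ((Q' : ℝ) - Q) ≤ 78 * M := by
      have : ((|l| : ℤ) : ℝ) * ((Q' : ℝ) - Q) ≤ M := (mul_le_mul_of_nonneg_right hlκ hQQ).trans hκ
      linarith
    have h3 : (0 : ℝ) ≤ M * Real.log M := by positivity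
    linarith
  refine ⟨ℕ × ℕ, range M ×ˢ range M, fun j => gc M y F j.1 * gc M y F j.2 * D (k * j.1 + l * j.2),
    fun j => (j.1 : ℤ) + j.2, fun a => ?_, ?_⟩
  · show ∑ q ∈ Ico Q Q', Gp M y F (a + q * k) * Gp M y F (a + q * l) = _
    unfold Gp
    rw [sum_product]
    have h1 : ∀ q ∈ Ico Q Q', (∑ s ∈ range M, gc M y F s * ee ((s : ℝ) * (((a + q * k : ℤ) : ℝ) / M))) *
        (∑ s ∈ range M, gc M y F s * ee ((s : ℝ) * (((a + q * l : ℤ) : ℝ) / M))) =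
        ∑ s ∈ range M, ∑ s' ∈ range M, (gc M y F s * gc M y F s' * ee ((((s : ℤ) + s' : ℤ) : ℝ) * ((a : ℝ) / M))) *
          ee ((q : ℝ) * (((k * s + l * s' : ℤ) : ℝ) / M)) := by
      intro q _
      rw [sum_mul_sum]
      apply sum_congr rfl
      intro s _
      apply sum_congr rfl
      intro s' _
      have e1 : ee ((s : ℝ) * (((a + q * k : ℤ) : ℝ) / M)) * ee ((s' : ℝ) * (((a + q * l : ℤ) : ℝ) / M)) =
          ee ((((s : ℤ) + s' : ℤ) : ℝ) * ((a : ℝ) / M)) * ee ((q : ℝ) * (((k * s + l * s' : ℤ) : ℝ) / M)) := by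
        rw [← ee_add, ← ee_add]
        congr 1
        push_cast
        ring
      calc gc M y F s * ee ((s : ℝ) * (((a + q * k : ℤ) : ℝ) / M)) * (gc M y F s' * ee ((s' : ℝ) * (((a + q * l : ℤ) : ℝ) / M))) =
          gc M y F s * gc M y F s' * (ee ((s : ℝ) * (((a + q * k : ℤ) : ℝ) / M)) * ee ((s' : ℝ) * (((a + q * l : ℤ) : ℝ) / M))) := by ring
        _ = _ := by rw [e1]; ring
    rw [sum_congr rfl h1, sum_comm]
    apply sum_congr rfl
    intro s _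
    rw [sum_comm]
    apply sum_congr rfl
    intro s' _
    rw [← mul_sum, hD]
    dsimp only
    ring
  · rw [sum_product]
    have hD' : ∀ s s', ‖gc M y F s * gc M y F s' * D (k * s + l * s')‖ ≤
        1 / 2 * (‖gc M y F s‖ ^ 2 * ‖D (k * s + l * s')‖) + 1 / 2 * (‖gc M y F s'‖ ^ 2 * ‖D (k * s + l * s')‖) := by
      intro s s'
      rw [norm_mul, norm_mul]
      have h1 : ‖gc M y F s‖ * ‖gc M y F s'‖ ≤ 1 / 2 * ‖gc M y F s‖ ^ 2 + 1 / 2 * ‖gc M y F s'‖ ^ 2 := by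
        nlinarith [sq_nonneg (‖gc M y F s‖ - ‖gc M y F s'‖)]
      have h2 := mul_le_mul_of_nonneg_right h1 (norm_nonneg (D (k * s + l * s')))
      linarith
    have h1 : ∑ s ∈ range M, ∑ s' ∈ range M, ‖gc M y F s * gc M y F s' * D (k * s + l * s')‖ ≤
        ∑ s ∈ range M, ∑ s' ∈ range M, (1 / 2 * (‖gc M y F s‖ ^ 2 * ‖D (k * s + l * s')‖) +
          1 / 2 * (‖gc M y F s'‖ ^ 2 * ‖D (k * s + l * s')‖)) :=
      sum_le_sum fun s _ => sum_le_sum fun s' _ => hD' s s'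
    refine h1.trans ?_
    simp only [sum_add_distrib]
    have hB : (0 : ℝ) ≤ 84 * M * (1 + Real.log M) := by positivity
    have hsq := gc_sq M y hM hy F
    have hVs : ∑ s ∈ range M, ‖gc M y F s‖ ^ 2 ≤ 1 / M * V := by
      rw [hsq]
      exact mul_le_mul_of_nonneg_left hV (by positivity)
    have h2 : ∑ s ∈ range M, ∑ s' ∈ range M, 1 / 2 * (‖gc M y F s‖ ^ 2 * ‖D (k * s + l * s')‖) ≤
        1 / 2 * (1 / M * V * (84 * M * (1 + Real.log M))) := by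
      have h3 : ∀ s ∈ range M, ∑ s' ∈ range M, 1 / 2 * (‖gc M y F s‖ ^ 2 * ‖D (k * s + l * s')‖) ≤
          1 / 2 * (‖gc M y F s‖ ^ 2 * (84 * M * (1 + Real.log M))) := by
        intro s _
        rw [← mul_sum, ← mul_sum]
        exact mul_le_mul_of_nonneg_left (mul_le_mul_of_nonneg_left (hker l hl hlκ (k * s)) (by positivity)) (by norm_num)
      refine (sum_le_sum h3).trans ?_
      rw [← mul_sum, ← sum_mul]
      exact mul_le_mul_of_nonneg_left (mul_le_mul_of_nonneg_right hVs hB) (by norm_num)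
    have h2' : ∑ s ∈ range M, ∑ s' ∈ range M, 1 / 2 * (‖gc M y F s'‖ ^ 2 * ‖D (k * s + l * s')‖) ≤
        1 / 2 * (1 / M * V * (84 * M * (1 + Real.log M))) := by
      rw [sum_comm]
      have h3 : ∀ s' ∈ range M, ∑ s ∈ range M, 1 / 2 * (‖gc M y F s'‖ ^ 2 * ‖D (k * s + l * s')‖) ≤
          1 / 2 * (‖gc M y F s'‖ ^ 2 * (84 * M * (1 + Real.log M))) := by
        intro s' _
        rw [← mul_sum, ← mul_sum]
        have h4 := hker k hk hkκ (l * s')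
        have h5 : ∑ s ∈ range M, ‖D (k * s + l * s')‖ = ∑ s ∈ range M, ‖D (l * s' + k * s)‖ := by
          apply sum_congr rfl
          intro s _
          rw [add_comm]
        rw [h5]
        exact mul_le_mul_of_nonneg_left (mul_le_mul_of_nonneg_left h4 (by positivity)) (by norm_num)
      refine (sum_le_sum h3).trans ?_
      rw [← mul_sum, ← sum_mul]
      exact mul_le_mul_of_nonneg_left (mul_le_mul_of_nonneg_right hVs hB) (by norm_num)
    refine (add_le_add h2 h2').trans (le_of_eq ?_)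
    field_simp
    ring

/-- weighted sums along progressions -/
lemma Wn_lin (M y : ℕ) (hM : 1 ≤ M) (hy : y ≤ M) (F : ℕ → ℝ) (V : ℝ) (hV : ∑ m ∈ Icc 1 y, F m ^ 2 ≤ V) (Q Q' : ℕ) (w : ℕ → ℝ)
    (W : ℝ) (hW : ∑ q ∈ Ico Q Q', w q ^ 2 ≤ W) (k : ℤ) (hk : k ≠ 0) (hkM : ((|k| : ℤ) : ℝ) * ((Q' : ℝ) - Q) ≤ M) :
    Wn M (√(V * W)) (fun a => ∑ q ∈ Ico Q Q', (w q : ℂ) * Gp M y F (a + q * k)) := by
  classical
  have hM0 : (0 : ℝ) < M := by exact_mod_cast hM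
  obtain ⟨D, hD⟩ : ∃ D : ℕ → ℂ, D = fun s : ℕ => ∑ q ∈ Ico Q Q', (w q : ℂ) * ee ((s : ℝ) * (((k * q : ℤ) : ℝ) / M)) := ⟨_, rfl⟩
  refine ⟨ℕ, range M, fun s => gc M y F s * D s, fun s => (s : ℤ), fun a => ?_, ?_⟩
  · show ∑ q ∈ Ico Q Q', (w q : ℂ) * Gp M y F (a + q * k) = _
    unfold Gp
    have h1 : ∀ q ∈ Ico Q Q', (w q : ℂ) * ∑ s ∈ range M, gc M y F s * ee ((s : ℝ) * (((a + q * k : ℤ) : ℝ) / M)) =
        ∑ s ∈ range M, gc M y F s * ((w q : ℂ) * ee ((s : ℝ) * (((k * q : ℤ) : ℝ) / M))) * ee (((s : ℤ) : ℝ) * ((a : ℝ) / M)) := by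
      intro q _
      rw [mul_sum]
      apply sum_congr rfl
      intro s _
      have e1 : ee ((s : ℝ) * (((a + q * k : ℤ) : ℝ) / M)) = ee ((s : ℝ) * (((k * q : ℤ) : ℝ) / M)) * ee (((s : ℤ) : ℝ) * ((a : ℝ) / M)) := by
        rw [← ee_add]
        congr 1
        push_cast
        ring
      rw [e1]
      ring
    rw [sum_congr rfl h1, sum_comm]
    apply sum_congr rfl
    intro s _
    rw [hD]
    dsimp only
    rw [← sum_mul, ← mul_sum]
  · have h1 : ∑ s ∈ range M, ‖D s‖ ^ 2 = M * ∑ q ∈ Ico Q Q', w q ^ 2 := by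
      have h2 := sq_expand (Ico Q Q') (fun q => (w q : ℂ)) (fun q => k * (q : ℤ)) M hM
      have h3 : ∑ i ∈ Ico Q Q', ∑ j ∈ Ico Q Q', (w i : ℂ) * (starRingEnd ℂ) (w j : ℂ) *
          (if (M : ℤ) ∣ k * (i : ℤ) - k * (j : ℤ) then (M : ℂ) else 0) = ∑ i ∈ Ico Q Q', (M : ℂ) * ((w i ^ 2 : ℝ) : ℂ) := by
        apply sum_congr rfl
        intro i hi
        rw [sum_eq_single i]
        · rw [sub_self, if_pos (dvd_zero _), Complex.conj_ofReal]
          push_cast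
          ring
        · intro j hj hne
          rw [if_neg, mul_zero]
          intro hd
          have h4 : |k * (i : ℤ) - k * (j : ℤ)| < M := by
            have h5 : |k * (i : ℤ) - k * (j : ℤ)| = |k| * |(i : ℤ) - j| := by
              rw [← mul_sub, abs_mul]
            rw [h5]
            rw [mem_Ico] at hi hj
            have h6 : |(i : ℤ) - j| < (Q' : ℤ) - Q := by
              rw [abs_lt]
              constructor <;> omega
            have h7 : |k| * ((Q' : ℤ) - Q) ≤ M := by exact_mod_cast hkM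
            have h8 : 0 < |k| := abs_pos.2 hk
            nlinarith
          have h9 := Int.eq_zero_of_abs_lt_dvd hd h4
          have h10 : k * ((i : ℤ) - j) = 0 := by linarith
          rcases mul_eq_zero.1 h10 with h | h
          · exact hk h
          · apply hne
            omega
        · intro h; exact absurd hi h
      rw [h3, ← mul_sum] at h2
      rw [hD]
      have h4 : (((∑ s ∈ range M, ‖∑ q ∈ Ico Q Q', (w q : ℂ) * ee ((s : ℝ) * (((k * q : ℤ) : ℝ) / M))‖ ^ 2 : ℝ)) : ℂ) =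
          ((M * ∑ q ∈ Ico Q Q', w q ^ 2 : ℝ) : ℂ) := by
        rw [h2]
        push_cast
        rfl
      exact_mod_cast h4
    have h2 : (∑ s ∈ range M, ‖gc M y F s * D s‖) ^ 2 ≤ V * W := by
      have h3 : (∑ s ∈ range M, ‖gc M y F s * D s‖) ^ 2 ≤ (∑ s ∈ range M, ‖gc M y F s‖ ^ 2) * ∑ s ∈ range M, ‖D s‖ ^ 2 := by
        simp only [norm_mul]
        exact sum_mul_sq_le_sq_mul_sq _ _ _
      rw [h1, gc_sq M y hM hy F] at h3
      have h4 : 1 / (M : ℝ) * (∑ m ∈ Icc 1 y, F m ^ 2) * (M * ∑ q ∈ Ico Q Q', w q ^ 2) =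
          (∑ m ∈ Icc 1 y, F m ^ 2) * ∑ q ∈ Ico Q Q', w q ^ 2 := by
        field_simp
      rw [h4] at h3
      refine h3.trans ?_
      exact mul_le_mul hV hW (sum_nonneg fun _ _ => sq_nonneg _) ((sum_nonneg fun _ _ => sq_nonneg _).trans hV)
    exact Real.le_sqrt_of_sq_le h2

/-- the multiples of `d` in `[1, X]` -/
lemma Wn_mult (M X d : ℕ) (hM : 1 ≤ M) (hX : X ≤ M) (hd : 1 ≤ d) :
    Wn M (84 * (1 + Real.log M)) (fun a => ((∑ m ∈ Icc 1 (X / d), if (M : ℤ) ∣ a - d * m then (1 : ℝ) else 0 : ℝ) : ℂ)) := by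
  classical
  have hM0 : (0 : ℝ) < M := by exact_mod_cast hM
  have hM0' : (M : ℂ) ≠ 0 := by
    have : M ≠ 0 := by omega
    exact_mod_cast this
  have hlogM : 0 ≤ Real.log M := Real.log_nonneg (by exact_mod_cast hM)
  obtain ⟨D, hD⟩ : ∃ D : ℤ → ℂ, D = fun v : ℤ => ∑ m ∈ Ico 1 (X / d + 1), ee ((m : ℝ) * ((v : ℝ) / M)) := ⟨_, rfl⟩
  refine ⟨ℕ, range M, fun s => 1 / M * D (0 + (-d : ℤ) * s), fun s => (s : ℤ), fun a => ?_, ?_⟩
  · show ((∑ m ∈ Icc 1 (X / d), if (M : ℤ) ∣ a - d * m then (1 : ℝ) else 0 : ℝ) : ℂ) = _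
    have h1 : ∀ s ∈ range M, 1 / (M : ℂ) * D (0 + (-d : ℤ) * s) * ee (((s : ℤ) : ℝ) * ((a : ℝ) / M)) =
        ∑ m ∈ Icc 1 (X / d), 1 / (M : ℂ) * ee ((s : ℝ) * (((a - d * m : ℤ) : ℝ) / M)) := by
      intro s _
      rw [hD]
      dsimp only
      rw [show Ico 1 (X / d + 1) = Icc 1 (X / d) from rfl, mul_assoc, sum_mul, mul_sum]
      apply sum_congr rfl
      intro m _
      rw [← ee_add]
      congr 2
      push_cast
      ring
    rw [sum_congr rfl h1, sum_comm]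
    push_cast
    apply sum_congr rfl
    intro m _
    rw [← mul_sum]
    have := orth M hM (a - d * m)
    push_cast at this
    rw [this]
    split_ifs
    · rw [one_div_mul_cancel hM0']
      simp
    · simp
  · have h1 := sum_ker M hM 1 (X / d + 1) (Nat.le_add_left 1 _) (-d : ℤ) (by omega) 0
    have h2 : ∑ s ∈ range M, ‖1 / (M : ℂ) * D (0 + (-d : ℤ) * s)‖ = 1 / M * ∑ s ∈ range M, ‖D (0 + (-d : ℤ) * s)‖ := by
      rw [mul_sum]
      apply sum_congr rfl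
      intro s _
      rw [norm_mul, norm_div, norm_one, Complex.norm_natCast]
    rw [h2, hD, one_div, inv_mul_le_iff₀ hM0]
    refine h1.trans ?_
    have h3 : ((|(-d : ℤ)| : ℤ) : ℝ) = d := by
      rw [abs_neg]
      simp
    rw [h3]
    have h4 : (d : ℝ) * (((X / d + 1 : ℕ) : ℝ) - (1 : ℕ)) ≤ M := by
      push_cast
      have h5 : ((X / d : ℕ) : ℝ) ≤ X / d := Nat.cast_div_le
      have hd0 : (0 : ℝ) < d := by exact_mod_cast hd
      have hXM : (X : ℝ) ≤ M := by exact_mod_cast hX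
      calc (d : ℝ) * (((X / d : ℕ) : ℝ) + 1 - 1) = d * ((X / d : ℕ) : ℝ) := by ring
        _ ≤ d * (X / d) := mul_le_mul_of_nonneg_left h5 hd0.le
        _ = X := by field_simp
        _ ≤ M := hXM
    have h5 : (0 : ℝ) ≤ M * Real.log M := by positivity
    nlinarith

end Pool.Agent.K1H51.TM
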