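import Mathlib
import Pool.Agent.K1H51.TM.Ker
import Pool.Agent.K1H51.LP.Pt

set_option autoImplicit false

/-! The variance of the primes in the progressions of one residue, as a function of the residue. -/

namespace Pool.Agent.K1H51.TM

open Finset Pool.Agent.H373R2.T7
open Pool.Agent.H807R2.Dav
open Pool.Agent.K1H51.LP (spec coprime_ind)

/-- the sum of `F` over the `m ≤ y` congruent to `a` and different from `a` -/
noncomputable def psiO (F : ℕ → ℝ) (y q a : ℕ) : ℝ := ∑ m ∈ (Icc 1 y).filter (fun m => m ≡ a [MOD q] ∧ m ≠ a), F m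

/-- the variance for the moduli `Q ≤ q < Q'` coprime to `a` -/
noncomputable def VO (F : ℕ → ℝ) (w : ℕ → ℝ) (y Q Q' a : ℕ) : ℝ :=
  ∑ q ∈ (Ico Q Q').filter (fun q => a.Coprime q), (psiO F y q a - w q) ^ 2

/-- the nonzero integers of absolute value at most `κ` -/
noncomputable def Ks (κ : ℕ) : Finset ℤ := (Icc (-(κ : ℤ)) κ).erase 0

lemma Ks_card (κ : ℕ) : (Ks κ).card = 2 * κ := by
  unfold Ks
  rw [card_erase_of_mem (by rw [mem_Icc]; omega), Int.card_Icc]
  omega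

lemma mem_Ks (κ : ℕ) (k : ℤ) : k ∈ Ks κ ↔ k ≠ 0 ∧ -(κ : ℤ) ≤ k ∧ k ≤ κ := by
  unfold Ks
  rw [mem_erase, mem_Icc]

lemma count_k (M T y Q q a m : ℕ) (hQ : 1 ≤ Q) (hq : Q ≤ q) (hq2 : q < 2 * Q) (ha : 1 ≤ a) (haT : a ≤ T) (hyT : y ≤ T) (hM : 3 * T ≤ M)
    (hm : m ∈ Icc 1 y) :
    (∑ k ∈ Ks (T / Q), if (M : ℤ) ∣ (a : ℤ) + q * k - m then (1 : ℝ) else 0) = if m ≡ a [MOD q] ∧ m ≠ a then 1 else 0 := by
  classical
  rw [mem_Icc] at hm
  have hqk : ∀ k ∈ Ks (T / Q), |(q : ℤ) * k| < 2 * T := by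
    intro k hk
    rw [mem_Ks] at hk
    have h1 : |k| ≤ ((T / Q : ℕ) : ℤ) := abs_le.2 ⟨hk.2.1, hk.2.2⟩
    have h2 : (Q * (T / Q) : ℕ) ≤ T := Nat.mul_div_le T Q
    have h3 : (Q : ℤ) * ((T / Q : ℕ) : ℤ) ≤ T := by exact_mod_cast h2
    have h4 : 0 < |k| := abs_pos.2 hk.1
    rw [abs_mul]
    have h5 : |(q : ℤ)| = q := abs_of_nonneg (by omega)
    rw [h5]
    have h6 : (q : ℤ) * |k| < 2 * Q * |k| := mul_lt_mul_of_pos_right (by omega) h4
    have h7 : 2 * (Q : ℤ) * |k| ≤ 2 * (Q * ((T / Q : ℕ) : ℤ)) := by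
      have : (Q : ℤ) * |k| ≤ Q * ((T / Q : ℕ) : ℤ) := mul_le_mul_of_nonneg_left h1 (by omega)
      linarith
    linarith
  have hiff : ∀ k ∈ Ks (T / Q), ((M : ℤ) ∣ (a : ℤ) + q * k - m ↔ (a : ℤ) + q * k = m) := by
    intro k hk
    constructor
    · intro hd
      have h1 := abs_lt.1 (hqk k hk)
      have h2 : |(a : ℤ) + q * k - m| < M := by
        rw [abs_lt]
        constructor <;> omega
      have := Int.eq_zero_of_abs_lt_dvd hd h2
      omega
    · intro h
      rw [h, sub_self]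
      exact dvd_zero _
  rw [← sum_filter, sum_const, nsmul_eq_mul, mul_one]
  have hfil : (Ks (T / Q)).filter (fun k => (M : ℤ) ∣ (a : ℤ) + q * k - m) = (Ks (T / Q)).filter (fun k => (a : ℤ) + q * k = m) :=
    filter_congr hiff
  rw [hfil]
  have hq0 : (q : ℤ) ≠ 0 := by omega
  split_ifs with h
  · obtain ⟨h1, h2⟩ := h
    have h3 : (q : ℤ) ∣ (m : ℤ) - a := by
      have := (Nat.modEq_iff_dvd.1 h1.symm)
      exact this
    obtain ⟨k, hk⟩ := h3
    have hkK : k ∈ Ks (T / Q) := by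
      rw [mem_Ks]
      have hk0 : k ≠ 0 := by
        rintro rfl
        apply h2
        omega
      have h4 : |(q : ℤ) * k| < T := by
        rw [← hk, abs_lt]
        constructor <;> omega
      rw [abs_mul, abs_of_nonneg (by omega : (0 : ℤ) ≤ q)] at h4
      have h5 : (Q : ℤ) * |k| < T := by
        have : (Q : ℤ) * |k| ≤ q * |k| := mul_le_mul_of_nonneg_right (by omega) (abs_nonneg _)
        linarith
      have h6 : |k| ≤ ((T / Q : ℕ) : ℤ) := by
        have h7 : k.natAbs ≤ T / Q := by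
          rw [Nat.le_div_iff_mul_le (by omega)]
          have h8 : (Q : ℤ) * (k.natAbs : ℤ) < T := by rw [← Int.abs_eq_natAbs]; exact h5
          have h9 : Q * k.natAbs < T := by exact_mod_cast h8
          rw [mul_comm]
          omega
        rw [Int.abs_eq_natAbs]
        exact_mod_cast h7
      have := abs_le.1 h6
      exact ⟨hk0, this.1, this.2⟩
    have : (Ks (T / Q)).filter (fun k' => (a : ℤ) + q * k' = m) = {k} := by
      ext k'
      rw [mem_filter, mem_singleton]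
      constructor
      · rintro ⟨_, h4⟩
        have : (q : ℤ) * k' = q * k := by omega
        exact mul_left_cancel₀ hq0 this
      · rintro rfl
        exact ⟨hkK, by omega⟩
    rw [this]
    simp
  · have : (Ks (T / Q)).filter (fun k' => (a : ℤ) + q * k' = m) = ∅ := by
      rw [filter_eq_empty_iff]
      intro k hk h1
      apply h
      constructor
      · rw [Nat.ModEq.comm, Nat.modEq_iff_dvd]
        exact ⟨k, by omega⟩
      · rintro rfl
        rw [mem_Ks] at hk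
        have : (q : ℤ) * k = 0 := by omega
        rcases mul_eq_zero.1 this with h | h
        · exact hq0 h
        · exact hk.1 h
    rw [this]
    simp

lemma prog (M T y Q q a : ℕ) (F : ℕ → ℝ) (hQ : 1 ≤ Q) (hq : Q ≤ q) (hq2 : q < 2 * Q) (ha : 1 ≤ a) (haT : a ≤ T) (hyT : y ≤ T)
    (hM : 3 * T ≤ M) :
    ∑ k ∈ Ks (T / Q), Gp M y F ((a : ℤ) + q * k) = ((psiO F y q a : ℝ) : ℂ) := by
  have hM1 : 1 ≤ M := by omega
  have h1 : ∀ k ∈ Ks (T / Q), Gp M y F ((a : ℤ) + q * k) =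
      ((∑ m ∈ Icc 1 y, F m * (if (M : ℤ) ∣ (a : ℤ) + q * k - m then (1 : ℝ) else 0) : ℝ) : ℂ) := by
    intro k _
    rw [Gp_eq M y hM1 F]
    congr 1
    apply sum_congr rfl
    intro m _
    split_ifs <;> simp
  rw [sum_congr rfl h1, ← Complex.ofReal_sum, sum_comm]
  congr 1
  unfold psiO
  rw [sum_filter]
  apply sum_congr rfl
  intro m hm
  rw [← mul_sum, count_k M T y Q q a m hQ hq hq2 ha haT hyT hM hm]
  split_ifs <;> simp

/-- the periodic indicator of the multiples of `d` in `[1, X]` -/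
noncomputable def Ind (M X d : ℕ) (a : ℤ) : ℝ := ∑ m ∈ Icc 1 (X / d), if (M : ℤ) ∣ a - d * m then (1 : ℝ) else 0

lemma Ind_eq (M X d a : ℕ) (hX : X < M) (ha : a < M) (hd : 1 ≤ d) :
    Ind M X d a = if 1 ≤ a ∧ a ≤ X ∧ d ∣ a then 1 else 0 := by
  classical
  unfold Ind
  have hiff : ∀ m ∈ Icc 1 (X / d), ((M : ℤ) ∣ (a : ℤ) - d * m ↔ a = d * m) := by
    intro m hm
    rw [mem_Icc] at hm
    have h1 : d * m ≤ X := by
      have := Nat.mul_le_mul_left d hm.2
      exact this.trans (Nat.mul_div_le X d)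
    constructor
    · intro hd'
      have h2 : |(a : ℤ) - d * m| < M := by
        have h3 : ((d * m : ℕ) : ℤ) ≤ X := by exact_mod_cast h1
        push_cast at h3
        have h4 : (0 : ℤ) ≤ d * m := by positivity
        rw [abs_lt]
        constructor <;> omega
      have h3 := Int.eq_zero_of_abs_lt_dvd hd' h2
      have : (a : ℤ) = ((d * m : ℕ) : ℤ) := by push_cast; omega
      exact_mod_cast this
    · intro h
      rw [h]
      push_cast
      rw [sub_self]
      exact dvd_zero _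
  rw [← sum_filter, sum_const, nsmul_eq_mul, mul_one, filter_congr hiff]
  split_ifs with h
  · obtain ⟨h1, h2, m, hm⟩ := h
    have : (Icc 1 (X / d)).filter (fun m' => a = d * m') = {m} := by
      ext m'
      rw [mem_filter, mem_Icc, mem_singleton]
      constructor
      · rintro ⟨_, h4⟩
        rw [hm] at h4
        exact (Nat.eq_of_mul_eq_mul_left (by omega) h4).symm
      · rintro rfl
        refine ⟨⟨?_, ?_⟩, hm⟩
        · rcases Nat.eq_zero_or_pos m' with h | h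
          · rw [h] at hm; omega
          · exact h
        · rw [Nat.le_div_iff_mul_le (by omega), mul_comm, ← hm]
          exact h2
    rw [this]
    simp
  · have : (Icc 1 (X / d)).filter (fun m' => a = d * m') = ∅ := by
      rw [filter_eq_empty_iff]
      intro m hm h1
      rw [mem_Icc] at hm
      apply h
      refine ⟨?_, ?_, ⟨m, h1⟩⟩
      · rw [h1]; exact Nat.mul_pos (by omega) (by omega)
      · rw [h1]; exact (Nat.mul_le_mul_left d hm.2).trans (Nat.mul_div_le X d)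
    rw [this]
    simp

/-- the function which is transferred -/
noncomputable def hh (M T X y Q Q' : ℕ) (F w : ℕ → ℝ) (a : ℤ) : ℂ :=
  ((Ind M X 1 a : ℝ) : ℂ) * ((∑ q ∈ Ico Q Q', (∑ k ∈ Ks (T / Q), Gp M y F (a + q * k)) ^ 2) +
    (-2 : ℂ) * ∑ q ∈ Ico Q Q', (w q : ℂ) * ∑ k ∈ Ks (T / Q), Gp M y F (a + q * k)) +
  ∑ q ∈ Ico Q Q', ((w q ^ 2 : ℝ) : ℂ) * ∑ d ∈ q.divisors, (((ArithmeticFunction.moebius d : ℤ) : ℝ) : ℂ) * ((Ind M X d a : ℝ) : ℂ)

lemma hh_val (M T X y Q Q' a : ℕ) (F w : ℕ → ℝ) (hQ : 1 ≤ Q) (hQ2 : Q' ≤ 2 * Q) (hXT : X ≤ T) (hyT : y ≤ T)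
    (hT : 1 ≤ T) (hM : 3 * T ≤ M) (ha : a < M) :
    hh M T X y Q Q' F w a = ((if 1 ≤ a ∧ a ≤ X then ∑ q ∈ Ico Q Q', (psiO F y q a ^ 2 - 2 * w q * psiO F y q a +
      w q ^ 2 * if a.Coprime q then 1 else 0) else 0 : ℝ) : ℂ) := by
  classical
  have hXM : X < M := by omega
  unfold hh
  by_cases h : 1 ≤ a ∧ a ≤ X
  · rw [if_pos h]
    have h1 : Ind M X 1 a = 1 := by
      rw [Ind_eq M X 1 a hXM ha le_rfl, if_pos ⟨h.1, h.2, one_dvd _⟩]
    rw [h1]
    have h2 : ∀ q ∈ Ico Q Q', ∑ k ∈ Ks (T / Q), Gp M y F ((a : ℤ) + q * k) = ((psiO F y q a : ℝ) : ℂ) := by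
      intro q hq
      rw [mem_Ico] at hq
      exact prog M T y Q q a F hQ hq.1 (by omega) h.1 (h.2.trans hXT) hyT hM
    have h3 : ∑ q ∈ Ico Q Q', (∑ k ∈ Ks (T / Q), Gp M y F ((a : ℤ) + q * k)) ^ 2 = ∑ q ∈ Ico Q Q', ((psiO F y q a : ℝ) : ℂ) ^ 2 :=
      sum_congr rfl fun q hq => by rw [h2 q hq]
    have h4 : ∑ q ∈ Ico Q Q', (w q : ℂ) * ∑ k ∈ Ks (T / Q), Gp M y F ((a : ℤ) + q * k) =
        ∑ q ∈ Ico Q Q', (w q : ℂ) * ((psiO F y q a : ℝ) : ℂ) := sum_congr rfl fun q hq => by rw [h2 q hq]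
    have h5 : ∀ q ∈ Ico Q Q', ∑ d ∈ q.divisors, (((ArithmeticFunction.moebius d : ℤ) : ℝ) : ℂ) * ((Ind M X d a : ℝ) : ℂ) =
        ((if a.Coprime q then 1 else 0 : ℝ) : ℂ) := by
      intro q hq
      rw [mem_Ico] at hq
      have h6 := coprime_ind q a (by omega) h.1
      have h7 : ∑ d ∈ q.divisors, ((ArithmeticFunction.moebius d : ℤ) : ℝ) * Ind M X d a = if a.Coprime q then 1 else 0 := by
        have h6' : (if a.Coprime q then (1 : ℝ) else 0) = if q.Coprime a then 1 else 0 := by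
          by_cases hc : a.Coprime q
          · rw [if_pos hc, if_pos hc.symm]
          · rw [if_neg hc, if_neg (fun h => hc h.symm)]
        rw [h6', ← h6, sum_filter]
        apply sum_congr rfl
        intro d hd
        rw [Ind_eq M X d a hXM ha (Nat.pos_of_mem_divisors hd)]
        by_cases hda : d ∣ a
        · rw [if_pos ⟨h.1, h.2, hda⟩, if_pos hda, mul_one]
        · rw [if_neg (fun hc => hda hc.2.2), if_neg hda, mul_zero]
      rw [← h7]
      push_cast
      rfl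
    have h8 : ∑ q ∈ Ico Q Q', ((w q ^ 2 : ℝ) : ℂ) * ∑ d ∈ q.divisors, (((ArithmeticFunction.moebius d : ℤ) : ℝ) : ℂ) * ((Ind M X d a : ℝ) : ℂ) =
        ∑ q ∈ Ico Q Q', ((w q ^ 2 : ℝ) : ℂ) * ((if a.Coprime q then 1 else 0 : ℝ) : ℂ) := sum_congr rfl fun q hq => by rw [h5 q hq]
    rw [h3, h4, h8]
    push_cast
    rw [one_mul, mul_sum, ← sum_add_distrib, ← sum_add_distrib]
    apply sum_congr rfl
    intro q _
    ring
  · rw [if_neg h]
    have h1 : Ind M X 1 a = 0 := by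
      rw [Ind_eq M X 1 a hXM ha le_rfl, if_neg]
      intro hc
      exact h ⟨hc.1, hc.2.1⟩
    rw [h1]
    have h2 : ∀ q ∈ Ico Q Q', ((w q ^ 2 : ℝ) : ℂ) * ∑ d ∈ q.divisors, (((ArithmeticFunction.moebius d : ℤ) : ℝ) : ℂ) * ((Ind M X d a : ℝ) : ℂ) = 0 := by
      intro q _
      have : ∀ d ∈ q.divisors, (((ArithmeticFunction.moebius d : ℤ) : ℝ) : ℂ) * ((Ind M X d a : ℝ) : ℂ) = 0 := by
        intro d hd
        rw [Ind_eq M X d a hXM ha (Nat.pos_of_mem_divisors hd), if_neg (fun hc => h ⟨hc.1, hc.2.1⟩)]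
        simp
      rw [sum_eq_zero this, mul_zero]
    rw [sum_eq_zero h2]
    simp

lemma hh_per (M T X y Q Q' : ℕ) (F w : ℕ → ℝ) (hM : 1 ≤ M) (v v' : ℤ) (h : (M : ℤ) ∣ v - v') :
    hh M T X y Q Q' F w v = hh M T X y Q Q' F w v' := by
  have hdvd : ∀ u : ℤ, ((M : ℤ) ∣ v + u ↔ (M : ℤ) ∣ v' + u) := by
    intro u
    have e : v + u = (v' + u) + (v - v') := by ring
    rw [e]
    exact (Int.dvd_add_left h)
  have h1 : ∀ d, Ind M X d v = Ind M X d v' := by
    intro d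
    unfold Ind
    apply sum_congr rfl
    intro m _
    have := hdvd (-(d * m))
    rw [← sub_eq_add_neg, ← sub_eq_add_neg] at this
    simp only [this]
  have h2 : ∀ u : ℤ, Gp M y F (v + u) = Gp M y F (v' + u) := by
    intro u
    rw [Gp_eq M y hM, Gp_eq M y hM]
    congr 1
    apply sum_congr rfl
    intro m _
    have := hdvd (u - m)
    rw [← add_sub_assoc, ← add_sub_assoc] at this
    simp only [this]
  unfold hh
  simp only [h1, h2]

end Pool.Agent.K1H51.TM
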