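import Mathlib
import Pool.Agent.K1H51.TM.Hh

set_option autoImplicit false

/-! The variance along a family with a small large spectrum is bounded by the variance along all residues. -/

namespace Pool.Agent.K1H51.TM

open Finset Pool.Agent.H373R2.T7
open Pool.Agent.H807R2.Dav
open Pool.Agent.K1H51.LP (spec)

lemma sum_tau (Q : ℕ) : ∑ q ∈ Icc 1 Q, (q.divisors.card : ℝ) ≤ Q * (1 + Real.log Q) := by
  classical
  have h1 : ∀ q ∈ Icc 1 Q, (q.divisors.card : ℝ) = ∑ d ∈ Icc 1 Q, if d ∣ q then (1 : ℝ) else 0 := by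
    intro q hq
    rw [mem_Icc] at hq
    rw [← sum_filter, sum_const, nsmul_eq_mul, mul_one]
    congr 2
    ext d
    rw [Nat.mem_divisors, mem_filter, mem_Icc]
    constructor
    · rintro ⟨h2, _⟩
      exact ⟨⟨Nat.pos_of_dvd_of_pos h2 (by omega), (Nat.le_of_dvd (by omega) h2).trans hq.2⟩, h2⟩
    · rintro ⟨_, h2⟩
      exact ⟨h2, by omega⟩
  rw [sum_congr rfl h1, sum_comm]
  have h2 : ∀ d ∈ Icc 1 Q, ∑ q ∈ Icc 1 Q, (if d ∣ q then (1 : ℝ) else 0) ≤ Q * (1 / d) := by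
    intro d hd
    rw [mem_Icc] at hd
    rw [← sum_filter, sum_const, nsmul_eq_mul, mul_one]
    have : ((Icc 1 Q).filter (fun q => d ∣ q)).card = Q / d := by
      have h3 : (Icc 1 Q).filter (fun q => d ∣ q) = (Ioc 0 Q).filter (fun q => d ∣ q) := by rfl
      rw [h3, Nat.Ioc_filter_dvd_card_eq_div]
    rw [this, mul_one_div]
    exact Nat.cast_div_le
  refine (sum_le_sum h2).trans ?_
  rw [← mul_sum]
  exact mul_le_mul_of_nonneg_left (Pool.Agent.K1H51.LP.sum_inv_Icc' Q) (Nat.cast_nonneg _)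

/-- the total of the coefficients of `hh` -/
noncomputable def wt (M κ Q : ℕ) (V ω : ℝ) : ℝ :=
  (84 * (1 + Real.log M)) * ((2 * κ) * ((2 * κ) * (V * (84 * (1 + Real.log M)))) + 2 * ((2 * κ) * √(V * (Q * ω ^ 2)))) +
    ω ^ 2 * ((84 * (1 + Real.log M)) * ((2 * Q : ℕ) * (1 + Real.log (2 * Q : ℕ))))

set_option maxHeartbeats 1000000 in
lemma hh_Wn (M T X y Q Q' : ℕ) (F w : ℕ → ℝ) (hQ : 1 ≤ Q) (hQQ : Q ≤ Q') (hQ2 : Q' ≤ 2 * Q) (hXT : X ≤ T) (hyT : y ≤ T)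
    (hT : 1 ≤ T) (hM : 3 * T ≤ M) (V ω : ℝ) (hV : ∑ m ∈ Icc 1 y, F m ^ 2 ≤ V)
    (hω : ∀ q ∈ Ico Q Q', 0 ≤ w q ∧ w q ≤ ω) (hω0 : 0 ≤ ω) :
    Wn M (wt M (T / Q) Q V ω) (hh M T X y Q Q' F w) := by
  classical
  have hM1 : 1 ≤ M := by omega
  have hM0 : (0 : ℝ) < M := by exact_mod_cast hM1
  have hlogM : 0 ≤ Real.log M := Real.log_nonneg (by exact_mod_cast hM1)
  have hyM : y ≤ M := by omega
  have hXM : X ≤ M := by omega
  obtain ⟨κ, hκ⟩ : ∃ κ, κ = T / Q := ⟨_, rfl⟩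
  have hκQ : (κ : ℝ) * ((Q' : ℝ) - Q) ≤ M := by
    have h1 : κ * Q ≤ T := by rw [hκ]; exact Nat.div_mul_le_self T Q
    have h2 : (κ : ℝ) * Q ≤ M := by
      have : κ * Q ≤ M := by omega
      exact_mod_cast this
    have h3 : (Q' : ℝ) - Q ≤ Q := by
      have : (Q' : ℝ) ≤ 2 * Q := by exact_mod_cast hQ2
      linarith
    exact (mul_le_mul_of_nonneg_left h3 (Nat.cast_nonneg _)).trans h2
  have hKs : ∀ k ∈ Ks κ, k ≠ 0 ∧ ((|k| : ℤ) : ℝ) ≤ κ := by
    intro k hk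
    rw [mem_Ks] at hk
    refine ⟨hk.1, ?_⟩
    have : |k| ≤ (κ : ℤ) := abs_le.2 hk.2
    exact_mod_cast this
  have hcard : ((Ks κ).card : ℝ) = 2 * κ := by rw [Ks_card]; push_cast; ring
  -- squares
  have w1 : Wn M ((2 * κ) * ((2 * κ) * (V * (84 * (1 + Real.log M))))) (fun a => ∑ q ∈ Ico Q Q', (∑ k ∈ Ks κ, Gp M y F (a + q * k)) ^ 2) := by
    have h1 : Wn M (∑ k ∈ Ks κ, ∑ l ∈ Ks κ, V * (84 * (1 + Real.log M)))
        (fun a => ∑ k ∈ Ks κ, ∑ l ∈ Ks κ, ∑ q ∈ Ico Q Q', Gp M y F (a + q * k) * Gp M y F (a + q * l)) := by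
      apply Wn.sum
      intro k hk
      apply Wn.sum
      intro l hl
      exact Wn_corr M y hM1 hyM F V hV Q Q' hQQ k l (hKs k hk).1 (hKs l hl).1 κ (hKs k hk).2 (hKs l hl).2 hκQ
    have h2 : ∑ k ∈ Ks κ, ∑ l ∈ Ks κ, V * (84 * (1 + Real.log M)) = (2 * κ) * ((2 * κ) * (V * (84 * (1 + Real.log M)))) := by
      rw [sum_const, sum_const, nsmul_eq_mul, nsmul_eq_mul, hcard]
    rw [h2] at h1
    apply h1.congr
    intro a
    rw [sum_congr rfl (fun q _ => by rw [sq, sum_mul_sum] : ∀ q ∈ Ico Q Q', (∑ k ∈ Ks κ, Gp M y F (a + q * k)) ^ 2 =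
      ∑ k ∈ Ks κ, ∑ l ∈ Ks κ, Gp M y F (a + q * k) * Gp M y F (a + q * l)), sum_comm]
    apply sum_congr rfl
    intro k _
    rw [sum_comm]
  have hW : ∑ q ∈ Ico Q Q', w q ^ 2 ≤ Q * ω ^ 2 := by
    have h1 : ∀ q ∈ Ico Q Q', w q ^ 2 ≤ ω ^ 2 := fun q hq => pow_le_pow_left₀ (hω q hq).1 (hω q hq).2 2
    refine (sum_le_sum h1).trans ?_
    rw [sum_const, Nat.card_Ico, nsmul_eq_mul]
    apply mul_le_mul_of_nonneg_right _ (by positivity)
    have : Q' - Q ≤ Q := by omega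
    exact_mod_cast this
  have w2 : Wn M ((2 * κ) * √(V * (Q * ω ^ 2))) (fun a => ∑ q ∈ Ico Q Q', (w q : ℂ) * ∑ k ∈ Ks κ, Gp M y F (a + q * k)) := by
    have h1 : Wn M (∑ k ∈ Ks κ, √(V * (Q * ω ^ 2))) (fun a => ∑ k ∈ Ks κ, ∑ q ∈ Ico Q Q', (w q : ℂ) * Gp M y F (a + q * k)) := by
      apply Wn.sum
      intro k hk
      apply Wn_lin M y hM1 hyM F V hV Q Q' w _ hW k (hKs k hk).1
      have h3 : (0 : ℝ) ≤ (Q' : ℝ) - Q := by
        have : (Q : ℝ) ≤ Q' := by exact_mod_cast hQQ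
        linarith
      exact (mul_le_mul_of_nonneg_right (hKs k hk).2 h3).trans hκQ
    rw [sum_const, nsmul_eq_mul, hcard] at h1
    apply h1.congr
    intro a
    rw [sum_comm]
    apply sum_congr rfl
    intro q _
    rw [mul_sum]
  have w3 : ∀ d : ℕ, 1 ≤ d → Wn M (84 * (1 + Real.log M)) (fun a => ((Ind M X d a : ℝ) : ℂ)) := fun d hd =>
    Wn_mult M X d hM1 hXM hd
  have w4 : Wn M (ω ^ 2 * ((84 * (1 + Real.log M)) * ((2 * Q : ℕ) * (1 + Real.log (2 * Q : ℕ)))))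
      (fun a => ∑ q ∈ Ico Q Q', ((w q ^ 2 : ℝ) : ℂ) * ∑ d ∈ q.divisors, (((ArithmeticFunction.moebius d : ℤ) : ℝ) : ℂ) * ((Ind M X d a : ℝ) : ℂ)) := by
    have h1 : Wn M (∑ q ∈ Ico Q Q', ‖((w q ^ 2 : ℝ) : ℂ)‖ * ∑ d ∈ q.divisors, ‖(((ArithmeticFunction.moebius d : ℤ) : ℝ) : ℂ)‖ * (84 * (1 + Real.log M)))
        (fun a => ∑ q ∈ Ico Q Q', ((w q ^ 2 : ℝ) : ℂ) * ∑ d ∈ q.divisors, (((ArithmeticFunction.moebius d : ℤ) : ℝ) : ℂ) * ((Ind M X d a : ℝ) : ℂ)) := by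
      apply Wn.sum
      intro q _
      apply Wn.smul
      apply Wn.sum
      intro d hd
      apply Wn.smul
      exact w3 d (Nat.pos_of_mem_divisors hd)
    apply h1.mono
    have h2 : ∀ q ∈ Ico Q Q', ‖((w q ^ 2 : ℝ) : ℂ)‖ * ∑ d ∈ q.divisors, ‖(((ArithmeticFunction.moebius d : ℤ) : ℝ) : ℂ)‖ * (84 * (1 + Real.log M)) ≤
        ω ^ 2 * ((q.divisors.card : ℝ) * (84 * (1 + Real.log M))) := by
      intro q hq
      have h3 : ‖((w q ^ 2 : ℝ) : ℂ)‖ ≤ ω ^ 2 := by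
        rw [Complex.norm_real, Real.norm_of_nonneg (sq_nonneg _)]
        exact pow_le_pow_left₀ (hω q hq).1 (hω q hq).2 2
      have h4 : ∑ d ∈ q.divisors, ‖(((ArithmeticFunction.moebius d : ℤ) : ℝ) : ℂ)‖ * (84 * (1 + Real.log M)) ≤ (q.divisors.card : ℝ) * (84 * (1 + Real.log M)) := by
        rw [← nsmul_eq_mul]
        apply sum_le_card_nsmul
        intro d _
        have h5 : ‖(((ArithmeticFunction.moebius d : ℤ) : ℝ) : ℂ)‖ ≤ 1 := by
          rw [Complex.norm_real, Real.norm_eq_abs]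
          exact_mod_cast ArithmeticFunction.abs_moebius_le_one
        calc _ ≤ 1 * (84 * (1 + Real.log M)) := mul_le_mul_of_nonneg_right h5 (by positivity)
          _ = _ := one_mul _
      exact mul_le_mul h3 h4 (sum_nonneg fun _ _ => by positivity) (by positivity)
    refine (sum_le_sum h2).trans ?_
    rw [← mul_sum, ← sum_mul]
    apply mul_le_mul_of_nonneg_left _ (by positivity)
    rw [mul_comm]
    apply mul_le_mul_of_nonneg_left _ (by positivity)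
    have h5 : ∑ q ∈ Ico Q Q', (q.divisors.card : ℝ) ≤ ∑ q ∈ Icc 1 (2 * Q), (q.divisors.card : ℝ) := by
      apply sum_le_sum_of_subset_of_nonneg
      · intro q hq
        rw [mem_Ico] at hq
        rw [mem_Icc]
        omega
      · intro _ _ _
        positivity
    exact h5.trans (sum_tau (2 * Q))
  have w5 := ((w3 1 le_rfl).mul (w1.add (w2.smul (-2)))).add w4
  have w6 := w5.congr (h' := hh M T X y Q Q' F w) (fun a => by unfold hh; rw [← hκ])
  apply w6.mono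
  unfold wt
  rw [← hκ]
  have : ‖(-2 : ℂ)‖ = 2 := by simp
  rw [this]

/-- the variance along a family -/
theorem fam {ι : Type*} (I : Finset ι) (s : ι → ℤ) (M T X y Q Q' : ℕ) (F w : ℕ → ℝ) (hQ : 1 ≤ Q) (hQQ : Q ≤ Q') (hQ2 : Q' ≤ 2 * Q)
    (hXT : X ≤ T) (hyT : y ≤ T) (hT : 1 ≤ T) (hM : 3 * T ≤ M) (V ω : ℝ) (hV : ∑ m ∈ Icc 1 y, F m ^ 2 ≤ V)
    (hω : ∀ q ∈ Ico Q Q', 0 ≤ w q ∧ w q ≤ ω) (hω0 : 0 ≤ ω) (hF : ∀ n, 0 ≤ F n) (e0 : ℝ) (he0 : 0 ≤ e0)
    (he : ∀ q ∈ Ico Q Q', ∀ a : ℕ, ¬ a.Coprime q → psiO F y q a ≤ e0) (η : ℝ) (hη : 0 ≤ η) :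
    ∑ i ∈ I.filter (fun i => 1 ≤ s i ∧ s i ≤ X), VO F w y Q Q' (s i).toNat ≤
      I.card * (((spec M I s η).card : ℝ) / M * (∑ a ∈ Icc 1 X, (VO F w y Q Q' a + Q * (e0 ^ 2 + 2 * ω * e0))) +
        η * wt M (T / Q) Q V ω + 2 * (Q * (e0 ^ 2 + 2 * ω * e0))) := by
  classical
  have hM1 : 1 ≤ M := by omega
  have hMz : (M : ℤ) ≠ 0 := by omega
  obtain ⟨E, hE⟩ : ∃ E : ℝ, E = Q * (e0 ^ 2 + 2 * ω * e0) := ⟨_, rfl⟩
  have hE0 : 0 ≤ E := by rw [hE]; positivity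
  have hpsi0 : ∀ q a, 0 ≤ psiO F y q a := fun q a => sum_nonneg fun m _ => hF m
  -- the real function
  obtain ⟨g, hg⟩ : ∃ g : ℕ → ℝ, g = fun a => if 1 ≤ a ∧ a ≤ X then ∑ q ∈ Ico Q Q', (psiO F y q a ^ 2 - 2 * w q * psiO F y q a +
      w q ^ 2 * if a.Coprime q then 1 else 0) else 0 := ⟨_, rfl⟩
  have hval : ∀ a : ℕ, a < M → hh M T X y Q Q' F w a = ((g a : ℝ) : ℂ) := by
    intro a ha
    rw [hg]
    exact hh_val M T X y Q Q' a F w hQ hQ2 hXT hyT hT hM ha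
  have hsplit : ∀ a : ℕ, 1 ≤ a ∧ a ≤ X → |g a - VO F w y Q Q' a| ≤ E := by
    intro a ha
    rw [hg]
    dsimp only
    rw [if_pos ha]
    unfold VO
    rw [sum_filter, ← sum_sub_distrib]
    refine (abs_sum_le_sum_abs _ _).trans ?_
    have h1 : ∀ q ∈ Ico Q Q', |psiO F y q a ^ 2 - 2 * w q * psiO F y q a + w q ^ 2 * (if a.Coprime q then 1 else 0) -
        (if a.Coprime q then (psiO F y q a - w q) ^ 2 else 0)| ≤ e0 ^ 2 + 2 * ω * e0 := by
      intro q hq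
      by_cases hc : a.Coprime q
      · rw [if_pos hc, if_pos hc]
        have : psiO F y q a ^ 2 - 2 * w q * psiO F y q a + w q ^ 2 * 1 - (psiO F y q a - w q) ^ 2 = 0 := by ring
        rw [this, abs_zero]
        positivity
      · rw [if_neg hc, if_neg hc, mul_zero, add_zero, sub_zero]
        have h2 := he q hq a hc
        have h3 := hpsi0 q a
        have h4 := hω q hq
        refine (abs_sub _ _).trans ?_
        rw [abs_of_nonneg (sq_nonneg _), abs_of_nonneg (mul_nonneg (mul_nonneg (by norm_num) h4.1) h3)]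
        have h5 : psiO F y q a ^ 2 ≤ e0 ^ 2 := pow_le_pow_left₀ h3 h2 2
        have h6 : 2 * w q * psiO F y q a ≤ 2 * ω * e0 := mul_le_mul (by linarith) h2 h3 (by positivity)
        linarith
    refine (sum_le_sum h1).trans ?_
    rw [sum_const, Nat.card_Ico, nsmul_eq_mul, hE]
    apply mul_le_mul_of_nonneg_right _ (by positivity)
    have : Q' - Q ≤ Q := by omega
    exact_mod_cast this
  have hVO0 : ∀ a, 0 ≤ VO F w y Q Q' a := fun a => sum_nonneg fun _ _ => sq_nonneg _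
  -- values at the members of the family
  have hmem : ∀ i, hh M T X y Q Q' F w (s i) = ((g (s i % M).toNat : ℝ) : ℂ) := by
    intro i
    have h1 : (((s i % M).toNat : ℕ) : ℤ) = s i % M := Int.toNat_of_nonneg (Int.emod_nonneg _ hMz)
    have h2 : (s i % M).toNat < M := by
      have := Int.emod_lt_of_pos (s i) (by omega : (0 : ℤ) < M)
      omega
    rw [← hval _ h2]
    apply hh_per M T X y Q Q' F w hM1
    rw [h1]
    exact Int.dvd_self_sub_emod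
  have hglow : ∀ a : ℕ, 0 ≤ g a + E := by
    intro a
    by_cases h : 1 ≤ a ∧ a ≤ X
    · have h1 := (abs_le.1 (hsplit a h)).1
      have h2 := hVO0 a
      linarith
    · rw [hg]
      dsimp only
      rw [if_neg h]
      linarith
  have hleft : ∑ i ∈ I.filter (fun i => 1 ≤ s i ∧ s i ≤ X), VO F w y Q Q' (s i).toNat ≤
      ∑ i ∈ I, (g (s i % M).toNat + E + E) := by
    have h1 : ∀ i ∈ I.filter (fun i => 1 ≤ s i ∧ s i ≤ X), VO F w y Q Q' (s i).toNat ≤ g (s i % M).toNat + E + E := by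
      intro i hi
      have h2 := (mem_filter.1 hi).2
      have h3 : s i % M = s i := Int.emod_eq_of_lt (by omega) (by omega)
      rw [h3]
      have h4 := (abs_le.1 (hsplit (s i).toNat (by omega))).1
      linarith
    refine (sum_le_sum h1).trans ?_
    apply sum_le_sum_of_subset_of_nonneg (filter_subset _ _)
    intro i _ _
    have := hglow (s i % M).toNat
    linarith
  have htr := transfer I s M hM1 η (wt M (T / Q) Q V ω) hη (hh M T X y Q Q' F w)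
    (hh_Wn M T X y Q Q' F w hQ hQQ hQ2 hXT hyT hT hM V ω hV hω hω0)
  have hsum : ∑ i ∈ I, g (s i % M).toNat ≤ ‖∑ i ∈ I, hh M T X y Q Q' F w (s i)‖ := by
    rw [sum_congr rfl (fun i _ => hmem i), ← Complex.ofReal_sum, Complex.norm_real]
    exact Real.le_norm_self _
  have hl1 : ∑ a ∈ range M, ‖hh M T X y Q Q' F w (a : ℕ)‖ ≤ ∑ a ∈ Icc 1 X, (VO F w y Q Q' a + E) := by
    have h1 : ∀ a ∈ range M, ‖hh M T X y Q Q' F w (a : ℕ)‖ ≤ if a ∈ Icc 1 X then VO F w y Q Q' a + E else 0 := by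
      intro a ha
      rw [hval a (mem_range.1 ha), Complex.norm_real, Real.norm_eq_abs]
      by_cases h : 1 ≤ a ∧ a ≤ X
      · rw [if_pos (mem_Icc.2 h)]
        have h2 := abs_le.1 (hsplit a h)
        have h3 := hVO0 a
        rw [abs_le]
        constructor <;> linarith
      · rw [if_neg (fun hc => h (mem_Icc.1 hc)), hg]
        dsimp only
        rw [if_neg h, abs_zero]
    refine (sum_le_sum h1).trans (le_of_eq ?_)
    rw [← sum_filter]
    apply sum_congr _ (fun _ _ => rfl)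
    ext a
    rw [mem_filter, mem_range, mem_Icc]
    constructor
    · exact fun h => h.2
    · intro h
      exact ⟨by omega, h⟩
  have hspec0 : (0 : ℝ) ≤ ((spec M I s η).card : ℝ) / M := by positivity
  have h3 : ∑ i ∈ I, (g (s i % M).toNat + E + E) = ∑ i ∈ I, g (s i % M).toNat + I.card * (2 * E) := by
    rw [sum_add_distrib, sum_add_distrib, sum_const, nsmul_eq_mul]
    ring
  rw [h3] at hleft
  rw [← hE]
  have h4 : (I.card : ℝ) * (((spec M I s η).card : ℝ) / M * ∑ a ∈ range M, ‖hh M T X y Q Q' F w (a : ℕ)‖ + η * wt M (T / Q) Q V ω) ≤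
      I.card * (((spec M I s η).card : ℝ) / M * (∑ a ∈ Icc 1 X, (VO F w y Q Q' a + E)) + η * wt M (T / Q) Q V ω) := by
    apply mul_le_mul_of_nonneg_left _ (Nat.cast_nonneg _)
    have := mul_le_mul_of_nonneg_left hl1 hspec0
    linarith
  have h5 := hleft.trans (add_le_add_left (hsum.trans (htr.trans h4)) _)
  linarith

end Pool.Agent.K1H51.TM
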