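import Mathlib
import Pool.Agent.K1H51.TM.Fam
import Pool.Agent.K1H51.LP.Grid
import Pool.Agent.H343R2.EH.Psi
import Pool.Agent.H343R2.EH.Primes

set_option autoImplicit false

/-! The variance along all residues (Barban, Davenport, Halberstam). -/

namespace Pool.Agent.K1H51.TM

open Finset Pool.Agent.H373R2.T7
open H343E (psiAP psi1 unsmoothed psiAP_le psi1_le card_mod psiAP_nonneg psi1_nonneg Fam)

theorem bdh (U W : ℕ) : ∃ B1 N0 : ℕ, ∀ N : ℕ, N0 ≤ N → ∀ y : ℕ, (N : ℝ) ≤ y * Real.log N ^ W → y ≤ N → ∀ D : ℕ, 1 ≤ D →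
    (D : ℝ) * Real.log N ^ B1 ≤ N →
    ∑ q ∈ Icc 1 D, ∑ a ∈ (range q).filter (fun a => a.Coprime q), |psiAP y q a - psi1 y / (Nat.totient q : ℝ)| ≤
      D * N / Real.log N ^ U := by
  classical
  obtain ⟨B, X0, h⟩ := unsmoothed (U + 1)
  obtain ⟨n1, h1⟩ := ev_L' (2 ^ (U + 1))
  obtain ⟨n2, h2⟩ := ev_log' W 1
  obtain ⟨n3, h3⟩ := ev_log' 0 (max X0 1)
  refine ⟨B + W, n1 + n2 + n3 + 4, fun N hN y hy1 hy2 D hD1 hD2 => ?_⟩
  have h1 := h1 N (by omega)
  have h2 := h2 N (by omega)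
  have h3 := h3 N (by omega)
  obtain ⟨L, hL⟩ : ∃ L, L = Real.log (N : ℝ) := ⟨_, rfl⟩
  rw [← hL] at h1 h2 h3 hy1 hD2 ⊢
  have h2U : (1 : ℝ) ≤ 2 ^ (U + 1) := one_le_pow₀ (by norm_num)
  have hL1 : 1 ≤ L := h2U.trans h1
  have hL0 : 0 < L := by linarith
  have hN4 : (4 : ℝ) ≤ N := by exact_mod_cast (by omega : 4 ≤ N)
  have hN0 : (0 : ℝ) < N := by linarith
  have hsN : (0 : ℝ) < √(N : ℝ) := Real.sqrt_pos.2 hN0
  have hsN2 : √(N : ℝ) * √(N : ℝ) = N := Real.mul_self_sqrt hN0.le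
  have hys : √(N : ℝ) ≤ y := by
    rw [one_mul] at h2
    have h4 : √(N : ℝ) * √(N : ℝ) ≤ y * √(N : ℝ) := by
      rw [hsN2]
      exact hy1.trans (mul_le_mul_of_nonneg_left h2 (Nat.cast_nonneg _))
    exact le_of_mul_le_mul_right h4 hsN
  have hX0 : X0 ≤ y := by
    rw [pow_zero, mul_one] at h3
    exact (le_max_left X0 1).trans (h3.trans hys)
  have hy0 : (0 : ℝ) < y := lt_of_lt_of_le hsN hys
  have hyN : (y : ℝ) ≤ N := by exact_mod_cast hy2
  have hly1 : Real.log y ≤ L := by rw [hL]; exact Real.log_le_log hy0 hyN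
  have hly2 : L / 2 ≤ Real.log y := by
    have h4 := Real.log_le_log hsN hys
    rw [Real.log_sqrt hN0.le, ← hL] at h4
    exact h4
  have hly0 : 0 < Real.log y := by linarith
  have hDy : (D : ℝ) * L ^ B ≤ y := by
    rw [pow_add, ← mul_assoc] at hD2
    exact le_of_mul_le_mul_right (hD2.trans hy1) (by positivity)
  have hDy2 : (D : ℝ) ≤ y / Real.log y ^ B := by
    rw [le_div_iff₀ (by positivity)]
    refine le_trans ?_ hDy
    exact mul_le_mul_of_nonneg_left (pow_le_pow_left₀ hly0.le hly1 B) (Nat.cast_nonneg _)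
  have hD1' : (1 : ℝ) ≤ D := by exact_mod_cast hD1
  obtain ⟨Ls, hLs⟩ : ∃ Ls : ℕ → Finset ℕ, Ls = fun q => if q ≤ D then (range q).filter (fun a => a.Coprime q) else ∅ := ⟨_, rfl⟩
  have hfam : Fam (D : ℝ) Ls := by
    constructor
    · intro q a ha
      rw [hLs] at ha
      dsimp only at ha
      split_ifs at ha
      · rw [mem_filter, mem_range] at ha
        exact ha
      · simp at ha
    · intro q
      rw [hLs]
      dsimp only
      split_ifs with hq
      · have : ((range q).filter (fun a => a.Coprime q)).card ≤ q := (card_filter_le _ _).trans (by rw [card_range])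
        exact_mod_cast this.trans hq
      · simp
  have key := h y hX0 D hD1' D hDy2 (by
    rw [sq, mul_div_assoc]
    exact mul_le_mul_of_nonneg_left hDy2 (by linarith)) Ls hfam
  have hsame : ∑ q ∈ Icc 1 D, ∑ a ∈ (range q).filter (fun a => a.Coprime q), |psiAP y q a - psi1 y / (Nat.totient q : ℝ)| =
      ∑ q ∈ Icc 1 D, ∑ a ∈ Ls q, |psiAP y q a - psi1 y / (Nat.totient q : ℝ)| := by
    apply sum_congr rfl
    intro q hq
    rw [hLs]
    dsimp only
    rw [if_pos (mem_Icc.1 hq).2]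
  rw [hsame]
  refine key.trans ?_
  have h5 : (L / 2) ^ (U + 1) ≤ Real.log y ^ (U + 1) := pow_le_pow_left₀ (by linarith) hly2 _
  have h6 : L ^ U ≤ Real.log y ^ (U + 1) := by
    refine le_trans ?_ h5
    rw [div_pow, pow_succ, le_div_iff₀ (by positivity)]
    exact mul_le_mul_of_nonneg_left h1 (by positivity)
  apply div_le_div₀ (by positivity) (mul_le_mul_of_nonneg_left hyN (by linarith)) (by positivity) h6

lemma sum_per (q X : ℕ) (hq : 1 ≤ q) (g : ℕ → ℝ) (hg : ∀ a, 0 ≤ g a) (hper : ∀ a, g a = g (a % q)) :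
    ∑ a ∈ Icc 1 X, g a ≤ ((X : ℝ) / q + 1) * ∑ a ∈ range q, g a := by
  classical
  have h1 : ∑ a ∈ Icc 1 X, g a = ∑ r ∈ range q, ∑ a ∈ (Icc 1 X).filter (fun a => a % q = r), g a := by
    rw [sum_fiberwise_of_maps_to]
    intro a _
    rw [mem_range]
    exact Nat.mod_lt _ hq
  rw [h1, mul_sum]
  apply sum_le_sum
  intro r hr
  rw [mem_range] at hr
  have h2 : ∑ a ∈ (Icc 1 X).filter (fun a => a % q = r), g a = ∑ a ∈ (Icc 1 X).filter (fun a => a % q = r), g r := by
    apply sum_congr rfl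
    intro a ha
    rw [hper a, (mem_filter.1 ha).2]
  rw [h2, sum_const, nsmul_eq_mul]
  apply mul_le_mul_of_nonneg_right _ (hg r)
  have h3 := card_mod X q r hq
  have h4 : (Icc 1 X).filter (fun a => a % q = r) = (Icc 1 X).filter (fun m => m ≡ r [MOD q]) := by
    apply filter_congr
    intro a _
    unfold Nat.ModEq
    rw [Nat.mod_eq_of_lt hr]
  rw [h4]
  exact h3

/-- the von Mangoldt function -/
noncomputable def Lam (n : ℕ) : ℝ := ArithmeticFunction.vonMangoldt n

/-- the expected value -/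
noncomputable def ww (y q : ℕ) : ℝ := psi1 y / (Nat.totient q : ℝ)

lemma psiO_near (y q a : ℕ) (hy : 1 ≤ y) :
    0 ≤ psiAP y q a - psiO Lam y q a ∧ psiAP y q a - psiO Lam y q a ≤ Real.log y := by
  classical
  unfold psiAP psiO Lam
  rw [Nat.floor_natCast]
  have h1 : (Icc 1 y).filter (fun m => m ≡ a [MOD q] ∧ m ≠ a) = ((Icc 1 y).filter (fun m => m ≡ a [MOD q])).filter (fun m => m ≠ a) := by
    rw [filter_filter]
  rw [h1]
  have h2 := sum_filter_add_sum_filter_not ((Icc 1 y).filter (fun m => m ≡ a [MOD q])) (fun m => m ≠ a)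
    (fun m => ArithmeticFunction.vonMangoldt m)
  have h3 : ∑ m ∈ ((Icc 1 y).filter (fun m => m ≡ a [MOD q])).filter (fun m => ¬ m ≠ a), ArithmeticFunction.vonMangoldt m ≤ Real.log y := by
    have h4 : ((Icc 1 y).filter (fun m => m ≡ a [MOD q])).filter (fun m => ¬ m ≠ a) ⊆ {a} ∩ Icc 1 y := by
      intro m hm
      rw [mem_filter, mem_filter] at hm
      rw [mem_inter, mem_singleton]
      exact ⟨not_not.1 hm.2, hm.1.1⟩
    refine (sum_le_sum_of_subset_of_nonneg h4 fun _ _ _ => ArithmeticFunction.vonMangoldt_nonneg).trans ?_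
    by_cases ha : a ∈ Icc 1 y
    · rw [singleton_inter_of_mem ha, sum_singleton]
      rw [mem_Icc] at ha
      refine ArithmeticFunction.vonMangoldt_le_log.trans ?_
      exact Real.log_le_log (by exact_mod_cast ha.1) (by exact_mod_cast ha.2)
    · rw [singleton_inter_of_notMem ha, sum_empty]
      exact Real.log_nonneg (by exact_mod_cast hy)
  have h5 : 0 ≤ ∑ m ∈ ((Icc 1 y).filter (fun m => m ≡ a [MOD q])).filter (fun m => ¬ m ≠ a), ArithmeticFunction.vonMangoldt m :=
    sum_nonneg fun _ _ => ArithmeticFunction.vonMangoldt_nonneg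
  constructor <;> linarith

/-- the bound for the expected value -/
lemma ww_le (N y q Q : ℕ) (hQ : 1 ≤ Q) (hq : Q ≤ q) (hqN : q ≤ N) (hyN : y ≤ N) (hL : 1 ≤ Real.log N) :
    0 ≤ ww y q ∧ ww y q ≤ 4 * N * Real.log N ^ 2 / Q := by
  have hN1 : 1 ≤ N := by omega
  have hN0 : (0 : ℝ) < N := by exact_mod_cast hN1
  have hQ0 : (0 : ℝ) < Q := by exact_mod_cast hQ
  have hq0 : (0 : ℝ) < q := by
    have : 0 < q := by omega
    exact_mod_cast this
  have hphi : (0 : ℝ) < Nat.totient q := by exact_mod_cast Nat.totient_pos.2 (by omega)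
  unfold ww
  have h0 := psi1_nonneg y
  refine ⟨by positivity, ?_⟩
  have h1 := Pool.Agent.K1H51.LP.inv_phi_log q N (by omega) hqN
  have h2 := Pool.Agent.K1H51.LP.nlog N (Real.log N) hN1 hL (by linarith)
  have h3 : psi1 y ≤ N * Real.log N := by
    refine (psi1_le y).trans ?_
    rcases Nat.eq_zero_or_pos y with h | h
    · rw [h]; simp; positivity
    · exact mul_le_mul (by exact_mod_cast hyN) (Real.log_le_log (by exact_mod_cast h) (by exact_mod_cast hyN))
        (Real.log_natCast_nonneg y) hN0.le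
  have h4 : 1 / (Nat.totient q : ℝ) ≤ 4 * Real.log N * (1 / Q) := by
    refine h1.trans ?_
    apply mul_le_mul h2 _ (by positivity) (by linarith)
    exact one_div_le_one_div_of_le hQ0 (by exact_mod_cast hq)
  calc psi1 y / (Nat.totient q : ℝ) = psi1 y * (1 / (Nat.totient q : ℝ)) := by ring
    _ ≤ (N * Real.log N) * (4 * Real.log N * (1 / Q)) := mul_le_mul h3 h4 (by positivity) (by positivity)
    _ = _ := by ring

end Pool.Agent.K1H51.TM
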