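import Mathlib
import Pool.Agent.K1H51.TM.Bdh

set_option autoImplicit false

/-! The variance for the moduli of a dyadic block. -/

namespace Pool.Agent.K1H51.TM

open Finset Pool.Agent.H373R2.T7
open H343E (psiAP psi1 unsmoothed psiAP_le psi1_le card_mod psiAP_nonneg psi1_nonneg Fam)
open Pool.Agent.K1H51.LP (spec)

theorem avg (b E W : ℕ) : ∃ K1 N0 : ℕ, ∀ N : ℕ, N0 ≤ N → ∀ y : ℕ, (N : ℝ) ≤ y * Real.log N ^ W → y ≤ N → ∀ X : ℕ, X ≤ b * N →
    ∀ Q Q' : ℕ, 1 ≤ Q → Q ≤ Q' → Q' ≤ 2 * Q → (Q : ℝ) * Real.log N ^ K1 ≤ N →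
    ∑ a ∈ Icc 1 X, VO Lam (ww y) y Q Q' a ≤ N * (N ^ 2 / (Q * Real.log N ^ E)) := by
  classical
  obtain ⟨B1, n0, h0⟩ := bdh (E + 3) W
  obtain ⟨n1, h1⟩ := ev_L' (48 * (b + 1))
  refine ⟨B1 + E + 3, n0 + n1 + 4, fun N hN y hy1 hy2 X hX Q Q' hQ1 hQQ hQ2 hQN => ?_⟩
  have h0 := h0 N (by omega) y hy1 hy2
  have h1 := h1 N (by omega)
  obtain ⟨L, hL⟩ : ∃ L, L = Real.log (N : ℝ) := ⟨_, rfl⟩
  rw [← hL] at h0 h1 hy1 hQN ⊢
  have hb0 : (0 : ℝ) ≤ b := Nat.cast_nonneg _
  have hL48 : 48 ≤ L := by linarith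
  have hL0 : 0 < L := by linarith
  have hL1 : 1 ≤ L := by linarith
  have hNpos : 0 < N := by omega
  have hN0 : (0 : ℝ) < N := by exact_mod_cast hNpos
  have hQ0 : (0 : ℝ) < Q := by exact_mod_cast hQ1
  have hQN' : (Q : ℝ) ≤ N := by
    refine le_trans ?_ hQN
    exact le_mul_of_one_le_right hQ0.le (one_le_pow₀ hL1)
  have hQNn : Q ≤ N := by exact_mod_cast hQN'
  have hQ2N : 2 * Q ≤ N := by
    have : (2 : ℝ) * Q ≤ N := by
      calc (2 : ℝ) * Q ≤ L * Q := by nlinarith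
        _ = Q * L ^ 1 := by ring
        _ ≤ Q * L ^ (B1 + E + 3) := mul_le_mul_of_nonneg_left (pow_le_pow_right₀ hL1 (by omega)) hQ0.le
        _ ≤ N := hQN
    exact_mod_cast this
  have hy0 : 1 ≤ y := by
    rcases Nat.eq_zero_or_pos y with h | h
    · rw [h] at hy1
      simp at hy1
      omega
    · exact h
  have hly : Real.log y ≤ L := by
    rw [hL]
    exact Real.log_le_log (by exact_mod_cast hy0) (by exact_mod_cast hy2)
  have hly0 : 0 ≤ Real.log y := Real.log_natCast_nonneg y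
  obtain ⟨Dm, hDm⟩ : ∃ Dm : ℝ, Dm = 6 * N * L ^ 2 / Q := ⟨_, rfl⟩
  have hDm0 : 0 ≤ Dm := by rw [hDm]; positivity
  have hww : ∀ q ∈ Ico Q Q', 0 ≤ ww y q ∧ ww y q ≤ 4 * N * L ^ 2 / Q := by
    intro q hq
    rw [mem_Ico] at hq
    have := ww_le N y q Q hQ1 hq.1 (by omega) hy2 (by rw [← hL]; exact hL1)
    rw [← hL] at this
    exact this
  have hNQ : 1 ≤ (N : ℝ) / Q := by rw [one_le_div hQ0]; exact hQN'
  have hΔ : ∀ q ∈ Ico Q Q', ∀ a : ℕ, |psiAP y q a - ww y q| ≤ Dm := by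
    intro q hq a
    have h2 := hww q hq
    rw [mem_Ico] at hq
    have hq0 : (0 : ℝ) < q := by
      have : 0 < q := by omega
      exact_mod_cast this
    have h3 := psiAP_le y q a (by omega)
    have h4 := psiAP_nonneg y q a
    have h5 : ((y : ℝ) / q + 1) * Real.log y ≤ 2 * N * L ^ 2 / Q := by
      have h6 : (y : ℝ) / q ≤ N / Q := div_le_div₀ hN0.le (by exact_mod_cast hy2) hQ0 (by exact_mod_cast hq.1)
      calc ((y : ℝ) / q + 1) * Real.log y ≤ (N / Q + N / Q) * L := mul_le_mul (by linarith) hly hly0 (by positivity)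
        _ = 2 * N / Q * L := by ring
        _ ≤ 2 * N / Q * L ^ 2 := mul_le_mul_of_nonneg_left (by nlinarith) (by positivity)
        _ = _ := by ring
    rw [hDm, abs_le]
    have e : 6 * (N : ℝ) * L ^ 2 / Q = 2 * N * L ^ 2 / Q + 4 * N * L ^ 2 / Q := by ring
    rw [e]
    have h7 : 0 ≤ 2 * (N : ℝ) * L ^ 2 / Q := by positivity
    have h8 : 0 ≤ 4 * (N : ℝ) * L ^ 2 / Q := by positivity
    constructor <;> linarith
  -- pointwise
  have hpt : ∀ a ∈ Icc 1 X, VO Lam (ww y) y Q Q' a ≤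
      ∑ q ∈ Ico Q Q', ((if a.Coprime q then 2 * Dm * |psiAP y q a - ww y q| else 0) + 2 * L ^ 2) := by
    intro a _
    unfold VO
    rw [sum_filter]
    apply sum_le_sum
    intro q hq
    split_ifs with hc
    · have h2 := psiO_near y q a hy0
      have h3 := hΔ q hq a
      have h4 : (psiO Lam y q a - ww y q) ^ 2 ≤ 2 * (psiAP y q a - ww y q) ^ 2 + 2 * L ^ 2 := by
        have h5 : (psiAP y q a - psiO Lam y q a) ^ 2 ≤ L ^ 2 := pow_le_pow_left₀ h2.1 (h2.2.trans hly) 2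
        nlinarith [sq_nonneg ((psiAP y q a - ww y q) + (psiAP y q a - psiO Lam y q a))]
      have h5 : (psiAP y q a - ww y q) ^ 2 ≤ Dm * |psiAP y q a - ww y q| := by
        rw [← sq_abs, sq]
        exact mul_le_mul_of_nonneg_right h3 (abs_nonneg _)
      linarith
    · positivity
  refine (sum_le_sum hpt).trans ?_
  rw [sum_comm]
  have hX' : (X : ℝ) ≤ b * N := by exact_mod_cast hX
  have hper : ∀ q ∈ Ico Q Q', ∑ a ∈ Icc 1 X, ((if a.Coprime q then 2 * Dm * |psiAP y q a - ww y q| else 0) + 2 * L ^ 2) ≤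
      ((b + 1) * N / Q) * (2 * Dm * ∑ a ∈ (range q).filter (fun a => a.Coprime q), |psiAP y q a - psi1 y / (Nat.totient q : ℝ)|) +
        b * N * (2 * L ^ 2) := by
    intro q hq
    rw [mem_Ico] at hq
    have hq0 : (0 : ℝ) < q := by
      have : 0 < q := by omega
      exact_mod_cast this
    rw [sum_add_distrib]
    apply add_le_add
    · have h2 := sum_per q X (by omega) (fun a => if a.Coprime q then 2 * Dm * |psiAP y q a - ww y q| else 0)
        (fun a => by split_ifs <;> positivity) (fun a => by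
          have h3 : (a % q).Coprime q ↔ a.Coprime q := by
            rw [Nat.Coprime, Nat.Coprime, ← Nat.gcd_rec, Nat.gcd_comm]
          have h4 : psiAP y q a = psiAP y q (a % q : ℕ) := by
            unfold psiAP
            apply sum_congr _ (fun _ _ => rfl)
            apply filter_congr
            intro n _
            unfold Nat.ModEq
            rw [Nat.mod_mod]
          rw [h4]
          by_cases hc : a.Coprime q
          · rw [if_pos hc, if_pos (h3.2 hc)]
          · rw [if_neg hc, if_neg (fun h => hc (h3.1 h))])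
      refine h2.trans ?_
      have h3 : (X : ℝ) / q + 1 ≤ (b + 1) * N / Q := by
        have h4 : (X : ℝ) / q ≤ b * N / Q := div_le_div₀ (by positivity) hX' hQ0 (by exact_mod_cast hq.1)
        have e : ((b : ℝ) + 1) * N / Q = b * N / Q + N / Q := by ring
        rw [e]
        linarith
      have h4 : ∑ a ∈ range q, (if a.Coprime q then 2 * Dm * |psiAP y q a - ww y q| else 0) =
          2 * Dm * ∑ a ∈ (range q).filter (fun a => a.Coprime q), |psiAP y q a - psi1 y / (Nat.totient q : ℝ)| := by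
        rw [← sum_filter, mul_sum]
        rfl
      rw [h4]
      apply mul_le_mul_of_nonneg_right h3
      exact mul_nonneg (by positivity) (sum_nonneg fun _ _ => abs_nonneg _)
    · rw [sum_const, Nat.card_Icc, nsmul_eq_mul, Nat.add_sub_cancel]
      exact mul_le_mul_of_nonneg_right hX' (by positivity)
  refine (sum_le_sum hper).trans ?_
  rw [sum_add_distrib, ← mul_sum, ← mul_sum, sum_const, Nat.card_Ico, nsmul_eq_mul]
  have hbd := h0 (2 * Q) (by omega) (by
    push_cast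
    calc 2 * (Q : ℝ) * L ^ B1 ≤ L ^ (E + 3) * Q * L ^ B1 := by
          apply mul_le_mul_of_nonneg_right _ (by positivity)
          apply mul_le_mul_of_nonneg_right _ hQ0.le
          calc (2 : ℝ) ≤ L := by linarith
            _ = L ^ 1 := (pow_one L).symm
            _ ≤ L ^ (E + 3) := pow_le_pow_right₀ hL1 (by omega)
      _ = Q * L ^ (B1 + E + 3) := by ring
      _ ≤ N := hQN)
  have hsub : ∑ q ∈ Ico Q Q', ∑ a ∈ (range q).filter (fun a => a.Coprime q), |psiAP y q a - psi1 y / (Nat.totient q : ℝ)| ≤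
      ((2 * Q : ℕ) : ℝ) * N / L ^ (E + 3) := by
    refine le_trans ?_ hbd
    apply sum_le_sum_of_subset_of_nonneg
    · intro q hq
      rw [mem_Ico] at hq
      rw [mem_Icc]
      omega
    · intro q _ _
      exact sum_nonneg fun _ _ => abs_nonneg _
  have e1 : ((b : ℝ) + 1) * N / Q * (2 * Dm * ∑ q ∈ Ico Q Q', ∑ a ∈ (range q).filter (fun a => a.Coprime q), |psiAP y q a - psi1 y / (Nat.totient q : ℝ)|) ≤
      N ^ 3 / (Q * L ^ E) / 2 := by
    calc _ ≤ ((b : ℝ) + 1) * N / Q * (2 * Dm * (((2 * Q : ℕ) : ℝ) * N / L ^ (E + 3))) := by gcongr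
      _ = (24 * (b + 1)) * (N ^ 3 / (Q * L ^ E)) / L := by
        rw [hDm]
        push_cast
        field_simp
        ring
      _ ≤ (L / 2) * (N ^ 3 / (Q * L ^ E)) / L := by
        gcongr
        linarith
      _ = _ := by field_simp
  have e2 : ((Q' - Q : ℕ) : ℝ) * (b * N * (2 * L ^ 2)) ≤ N ^ 3 / (Q * L ^ E) / 2 := by
    have h2 : ((Q' - Q : ℕ) : ℝ) ≤ Q := by
      have : Q' - Q ≤ Q := by omega
      exact_mod_cast this
    have h3 : (Q : ℝ) * (b * N * (2 * L ^ 2)) ≤ N ^ 3 / (Q * L ^ E) / 2 := by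
      rw [div_div, le_div_iff₀ (by positivity)]
      have h4 : (Q : ℝ) ^ 2 * L ^ (E + 3) ≤ N ^ 2 := by
        have h5 : (Q : ℝ) * L ^ (E + 3) ≤ N := by
          refine le_trans ?_ hQN
          exact mul_le_mul_of_nonneg_left (pow_le_pow_right₀ hL1 (by omega)) hQ0.le
        calc (Q : ℝ) ^ 2 * L ^ (E + 3) = Q * (Q * L ^ (E + 3)) := by ring
          _ ≤ N * N := mul_le_mul hQN' h5 (by positivity) hN0.le
          _ = N ^ 2 := by ring
      have h6 : (4 * b : ℝ) ≤ L := by linarith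
      calc (Q : ℝ) * (b * N * (2 * L ^ 2)) * (Q * L ^ E * 2) = N * ((4 * b) * (Q ^ 2 * L ^ (E + 2))) := by ring
        _ ≤ N * (L * (Q ^ 2 * L ^ (E + 2))) := by gcongr
        _ = N * (Q ^ 2 * L ^ (E + 3)) := by ring
        _ ≤ N * N ^ 2 := by gcongr
        _ = N ^ 3 := by ring
    exact (mul_le_mul_of_nonneg_right h2 (by positivity)).trans h3
  have e3 : (N : ℝ) * (N ^ 2 / (Q * L ^ E)) = N ^ 3 / (Q * L ^ E) / 2 + N ^ 3 / (Q * L ^ E) / 2 := by ring
  rw [e3]
  exact add_le_add e1 e2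

end Pool.Agent.K1H51.TM
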