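import Mathlib
import Pool.Agent.K1H51.TM.Blk

set_option autoImplicit false

/-! The variance along a family for the moduli of a dyadic block: choice of the parameters. -/

namespace Pool.Agent.K1H51.TM

open Finset Pool.Agent.H373R2.T7
open H343E (psiAP psi1 unsmoothed psiAP_le psi1_le card_mod psiAP_nonneg psi1_nonneg Fam)
open Pool.Agent.K1H51.LP (spec)

/-- the total of the coefficients -/
lemma wt_le (M N b Q κ : ℕ) (L ω : ℝ) (hN : 1 ≤ N) (hL : 1 ≤ L) (hlN : Real.log N = L) (hQ : 1 ≤ Q) (hQN : Q ≤ N) (hb : 1 ≤ b)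
    (hM1 : 1 ≤ M) (hM : Real.log M ≤ 2 * L) (h2N : Real.log (2 * N : ℕ) ≤ 2 * L) (hκ : κ ≤ b * N / Q) (hω : ω = 4 * N * L ^ 2 / Q) :
    wt M κ Q (N * L ^ 2) ω ≤ 300000 * b ^ 2 * L ^ 6 * N * (N / Q) ^ 2 := by
  have hN0 : (0 : ℝ) < N := by exact_mod_cast hN
  have hQ0 : (0 : ℝ) < Q := by exact_mod_cast hQ
  have hb1 : (1 : ℝ) ≤ b := by exact_mod_cast hb
  have hL0 : 0 < L := by linarith
  have hNQ : 1 ≤ (N : ℝ) / Q := by rw [one_le_div hQ0]; exact_mod_cast hQN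
  obtain ⟨r, hr⟩ : ∃ r : ℝ, r = (N : ℝ) / Q := ⟨_, rfl⟩
  rw [← hr] at hNQ ⊢
  have hr0 : 0 < r := by linarith
  have hκ' : (κ : ℝ) ≤ b * r := by
    have h1 : ((b * N / Q : ℕ) : ℝ) ≤ (b * N : ℕ) / Q := Nat.cast_div_le
    have h2 : (κ : ℝ) ≤ ((b * N / Q : ℕ) : ℝ) := by exact_mod_cast hκ
    refine h2.trans (h1.trans (le_of_eq ?_))
    rw [hr]
    push_cast
    ring
  have hlogM : 0 ≤ Real.log M := Real.log_natCast_nonneg M
  obtain ⟨lam, hlam⟩ : ∃ lam : ℝ, lam = 84 * (1 + Real.log M) := ⟨_, rfl⟩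
  have hlam0 : 0 ≤ lam := by rw [hlam]; positivity
  have hlam1 : lam ≤ 252 * L := by rw [hlam]; linarith
  have hω' : ω = 4 * r * L ^ 2 := by rw [hω, hr]; ring
  have hω0 : 0 ≤ ω := by rw [hω']; positivity
  unfold wt
  rw [← hlam]
  -- first term
  have t1 : lam * ((2 * κ) * ((2 * κ) * (N * L ^ 2 * lam))) ≤ 254016 * b ^ 2 * L ^ 4 * N * r ^ 2 := by
    calc lam * ((2 * κ) * ((2 * κ) * (N * L ^ 2 * lam))) = 4 * lam ^ 2 * κ ^ 2 * (N * L ^ 2) := by ring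
      _ ≤ 4 * (252 * L) ^ 2 * (b * r) ^ 2 * (N * L ^ 2) := by gcongr
      _ = _ := by ring
  have hsq : √(N * L ^ 2 * (Q * ω ^ 2)) ≤ 4 * N * L ^ 3 * r := by
    apply Real.sqrt_le_iff.2
    refine ⟨by positivity, ?_⟩
    have hQr : (Q : ℝ) * r = N := by rw [hr]; field_simp
    calc N * L ^ 2 * (Q * ω ^ 2) = 16 * N * L ^ 6 * r * (Q * r) := by rw [hω']; ring
      _ = 16 * N ^ 2 * L ^ 6 * r := by rw [hQr]; ring
      _ ≤ 16 * N ^ 2 * L ^ 6 * r ^ 2 := by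
          have : r ≤ r ^ 2 := by nlinarith
          gcongr
      _ = _ := by ring
  have t2 : lam * (2 * ((2 * κ) * √(N * L ^ 2 * (Q * ω ^ 2)))) ≤ 4032 * b * L ^ 4 * N * r ^ 2 := by
    calc lam * (2 * ((2 * κ) * √(N * L ^ 2 * (Q * ω ^ 2)))) = 4 * lam * κ * √(N * L ^ 2 * (Q * ω ^ 2)) := by ring
      _ ≤ 4 * (252 * L) * (b * r) * (4 * N * L ^ 3 * r) := by gcongr
      _ = _ := by ring
  have hl2Q : Real.log (2 * Q : ℕ) ≤ 2 * L := by
    refine le_trans ?_ h2N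
    apply Real.log_le_log
    · exact_mod_cast (by omega : 0 < 2 * Q)
    · exact_mod_cast (by omega : 2 * Q ≤ 2 * N)
  have hl2Q0 : 0 ≤ Real.log (2 * Q : ℕ) := Real.log_natCast_nonneg _
  have t3 : ω ^ 2 * (lam * ((2 * Q : ℕ) * (1 + Real.log (2 * Q : ℕ)))) ≤ 24192 * L ^ 6 * N * r ^ 2 := by
    have hQr : (Q : ℝ) * r = N := by rw [hr]; field_simp
    calc ω ^ 2 * (lam * ((2 * Q : ℕ) * (1 + Real.log (2 * Q : ℕ)))) ≤ ω ^ 2 * ((252 * L) * ((2 * Q : ℕ) * (3 * L))) := by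
          gcongr
          linarith
      _ = 24192 * L ^ 6 * (Q * r) * r := by rw [hω']; push_cast; ring
      _ = 24192 * L ^ 6 * N * r := by rw [hQr]
      _ ≤ 24192 * L ^ 6 * N * r ^ 2 := by
          have : r ≤ r ^ 2 := by nlinarith
          gcongr
  have hb2 : (b : ℝ) ≤ b ^ 2 := by nlinarith
  have hb3 : (1 : ℝ) ≤ b ^ 2 := by nlinarith
  have hL46 : L ^ 4 ≤ L ^ 6 := pow_le_pow_right₀ hL (by norm_num)
  calc lam * ((2 * κ) * ((2 * κ) * (N * L ^ 2 * lam)) + 2 * ((2 * κ) * √(N * L ^ 2 * (Q * ω ^ 2)))) +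
        ω ^ 2 * (lam * ((2 * Q : ℕ) * (1 + Real.log (2 * Q : ℕ)))) =
      lam * ((2 * κ) * ((2 * κ) * (N * L ^ 2 * lam))) + lam * (2 * ((2 * κ) * √(N * L ^ 2 * (Q * ω ^ 2)))) +
        ω ^ 2 * (lam * ((2 * Q : ℕ) * (1 + Real.log (2 * Q : ℕ)))) := by ring
    _ ≤ 254016 * b ^ 2 * L ^ 4 * N * r ^ 2 + 4032 * b * L ^ 4 * N * r ^ 2 + 24192 * L ^ 6 * N * r ^ 2 := add_le_add (add_le_add t1 t2) t3
    _ ≤ 254016 * b ^ 2 * L ^ 6 * N * r ^ 2 + 4032 * b ^ 2 * L ^ 6 * N * r ^ 2 + 24192 * b ^ 2 * L ^ 6 * N * r ^ 2 := by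
        have h1 : 254016 * (b : ℝ) ^ 2 * L ^ 4 * N * r ^ 2 ≤ 254016 * b ^ 2 * L ^ 6 * N * r ^ 2 := by gcongr
        have h2 : 4032 * (b : ℝ) * L ^ 4 * N * r ^ 2 ≤ 4032 * b ^ 2 * L ^ 6 * N * r ^ 2 := by gcongr
        have h3 : 24192 * L ^ 6 * N * r ^ 2 ≤ 24192 * (b : ℝ) ^ 2 * L ^ 6 * N * r ^ 2 := by
          have : 24192 * L ^ 6 ≤ 24192 * (b : ℝ) ^ 2 * L ^ 6 := by nlinarith [pow_pos hL0 6]
          gcongr
        linarith
    _ = 282240 * (b ^ 2 * L ^ 6 * N * r ^ 2) := by ring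
    _ ≤ 300000 * (b ^ 2 * L ^ 6 * N * r ^ 2) := by
        apply mul_le_mul_of_nonneg_right (by norm_num) (by positivity)
    _ = _ := by ring

set_option maxHeartbeats 4000000 in
/-- the variance along a family, for the moduli of a dyadic block -/
theorem block (b E K W : ℕ) (hb : 1 ≤ b) : ∃ K1 C0 N0 : ℕ, ∀ N : ℕ, N0 ≤ N → ∀ M : ℕ, 3 * (b * N) ≤ M → M ≤ N ^ 2 →
    ∀ {ι : Type} (I : Finset ι) (s : ι → ℤ) (η : ℝ), 0 ≤ η → ((spec M I s η).card : ℝ) * N ≤ Real.log N ^ K * M →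
    ∀ y : ℕ, (N : ℝ) ≤ y * Real.log N ^ W → y ≤ N → ∀ X : ℕ, X ≤ b * N →
    ∀ Q Q' : ℕ, 1 ≤ Q → Q ≤ Q' → Q' ≤ 2 * Q → (Q : ℝ) * Real.log N ^ K1 ≤ N → η * N * Real.log N ^ C0 ≤ Q →
    ∑ i ∈ I.filter (fun i => 1 ≤ s i ∧ s i ≤ X), VO Lam (ww y) y Q Q' (s i).toNat ≤
      I.card * (N ^ 2 / (Q * Real.log N ^ E)) := by
  classical
  obtain ⟨K1, n0, h0⟩ := avg b (E + K + 1) W
  obtain ⟨n1, h1⟩ := ev_L' (1200000 * b ^ 2)
  refine ⟨K1 + K + E + 10, E + 7, n0 + n1 + 4, fun N hN M hM1 hM2 ι I s η hη hspec y hy1 hy2 X hX Q Q' hQ1 hQQ hQ2 hQN hηQ => ?_⟩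
  have h0 := h0 N (by omega) y hy1 hy2 X hX Q Q' hQ1 hQQ hQ2
  have h1 := h1 N (by omega)
  obtain ⟨L, hL⟩ : ∃ L, L = Real.log (N : ℝ) := ⟨_, rfl⟩
  rw [← hL] at h0 h1 hy1 hQN hspec hηQ ⊢
  have hb1 : (1 : ℝ) ≤ b := by exact_mod_cast hb
  have hb2 : (1 : ℝ) ≤ b ^ 2 := one_le_pow₀ hb1
  have hLbig : 1200000 ≤ L := by nlinarith
  have hL0 : 0 < L := by linarith
  have hL1 : 1 ≤ L := by linarith
  have hNpos : 0 < N := by omega
  have hN0 : (0 : ℝ) < N := by exact_mod_cast hNpos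
  have hQ0 : (0 : ℝ) < Q := by exact_mod_cast hQ1
  have hQN' : (Q : ℝ) ≤ N := by
    refine le_trans ?_ hQN
    exact le_mul_of_one_le_right hQ0.le (one_le_pow₀ hL1)
  have hQNn : Q ≤ N := by exact_mod_cast hQN'
  have hQpow : ∀ j, j ≤ K1 + K + E + 10 → (Q : ℝ) * L ^ j ≤ N := by
    intro j hj
    refine le_trans ?_ hQN
    exact mul_le_mul_of_nonneg_left (pow_le_pow_right₀ hL1 hj) hQ0.le
  have hQ2N : 2 * Q ≤ N := by
    have : (2 : ℝ) * Q ≤ N := by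
      calc (2 : ℝ) * Q ≤ L * Q := by nlinarith
        _ = Q * L ^ 1 := by ring
        _ ≤ N := hQpow 1 (by omega)
    exact_mod_cast this
  have h0 := h0 (hQpow K1 (by omega))
  have hMpos : 0 < M := by
    have : 0 < b * N := Nat.mul_pos (by omega) hNpos
    omega
  have hM0 : (0 : ℝ) < M := by exact_mod_cast hMpos
  have hlogM : Real.log M ≤ 2 * L := by
    have h2 : (M : ℝ) ≤ (N : ℝ) ^ 2 := by exact_mod_cast hM2
    have h3 := Real.log_le_log hM0 h2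
    rw [Real.log_pow, ← hL] at h3
    exact_mod_cast h3
  have hlog2N : Real.log (2 * N : ℕ) ≤ 2 * L := by
    push_cast
    rw [Real.log_mul (by norm_num) hN0.ne', ← hL]
    have := Real.log_two_lt_d9
    linarith
  obtain ⟨ω, hω⟩ : ∃ ω : ℝ, ω = 4 * N * L ^ 2 / Q := ⟨_, rfl⟩
  have hω0 : 0 ≤ ω := by rw [hω]; positivity
  have hXT : X ≤ b * N := hX
  have hyT : y ≤ b * N := hy2.trans (Nat.le_mul_of_pos_left _ (by omega))
  have hV : ∑ m ∈ Icc 1 y, Lam m ^ 2 ≤ N * L ^ 2 := by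
    have h2 : ∀ m ∈ Icc 1 y, Lam m ^ 2 ≤ L ^ 2 := by
      intro m hm
      rw [mem_Icc] at hm
      apply pow_le_pow_left₀ ArithmeticFunction.vonMangoldt_nonneg
      refine ArithmeticFunction.vonMangoldt_le_log.trans ?_
      rw [hL]
      exact Real.log_le_log (by exact_mod_cast hm.1) (by exact_mod_cast hm.2.trans hy2)
    refine (sum_le_sum h2).trans ?_
    rw [sum_const, Nat.card_Icc, nsmul_eq_mul, Nat.add_sub_cancel]
    exact mul_le_mul_of_nonneg_right (by exact_mod_cast hy2) (by positivity)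
  have hww : ∀ q ∈ Ico Q Q', 0 ≤ ww y q ∧ ww y q ≤ ω := by
    intro q hq
    rw [mem_Ico] at hq
    have := ww_le N y q Q hQ1 hq.1 (by omega) hy2 (by rw [← hL]; exact hL1)
    rw [← hL, ← hω] at this
    exact this
  have he : ∀ q ∈ Ico Q Q', ∀ a : ℕ, ¬ a.Coprime q → psiO Lam y q a ≤ 4 * L ^ 2 := by
    intro q hq a hc
    rw [mem_Ico] at hq
    have h2 : psiO Lam y q a ≤ ∑ n ∈ (Icc 1 y).filter (fun n => ¬ n.Coprime q), ArithmeticFunction.vonMangoldt n := by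
      unfold psiO Lam
      apply sum_le_sum_of_subset_of_nonneg
      · intro m hm
        rw [mem_filter] at hm ⊢
        refine ⟨hm.1, ?_⟩
        intro hc'
        apply hc
        have h3 : m % q = a % q := hm.2.1
        have h4 : m.gcd q = a.gcd q := by
          rw [Nat.gcd_comm m q, Nat.gcd_comm a q, Nat.gcd_rec q m, Nat.gcd_rec q a, h3]
        rw [Nat.Coprime, ← h4]
        exact hc'
      · intro _ _ _
        exact ArithmeticFunction.vonMangoldt_nonneg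
    have h3 := Pool.Agent.H398R2.BV.sum_not_coprime y q (by omega)
    refine h2.trans (h3.trans ?_)
    have h4 : (q.primeFactors.card : ℝ) ≤ 4 * L := by
      have h5 := Pool.Agent.K1H51.LP.card_primeFactors_le q (by omega)
      have h6 := Pool.Agent.K1H51.LP.nlog N L hNpos hL1 (by rw [← hL]; linarith)
      have h7 : (q.primeFactors.card : ℝ) ≤ Nat.log 2 N := by
        exact_mod_cast h5.trans (Nat.log_mono_right (by omega))
      linarith
    have h5 : Real.log y ≤ L := by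
      rcases Nat.eq_zero_or_pos y with h | h
      · rw [h]; simp; linarith
      · rw [hL]
        exact Real.log_le_log (by exact_mod_cast h) (by exact_mod_cast hy2)
    calc (q.primeFactors.card : ℝ) * Real.log y ≤ (4 * L) * L := mul_le_mul h4 h5 (Real.log_natCast_nonneg y) (by positivity)
      _ = _ := by ring
  have key := fam I s M (b * N) X y Q Q' Lam (ww y) hQ1 hQQ hQ2 hXT hyT (by nlinarith) hM1 (N * L ^ 2) ω hV hww hω0
    (fun n => ArithmeticFunction.vonMangoldt_nonneg) (4 * L ^ 2) (by positivity) he η hη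
  refine key.trans ?_
  apply mul_le_mul_of_nonneg_left _ (Nat.cast_nonneg _)
  obtain ⟨A, hA⟩ : ∃ A : ℝ, A = (N : ℝ) ^ 2 / (Q * L ^ E) := ⟨_, rfl⟩
  have hA0 : 0 < A := by rw [hA]; positivity
  rw [← hA]
  -- the error for the moduli which are not coprime to the residue
  have hE' : (Q : ℝ) * ((4 * L ^ 2) ^ 2 + 2 * ω * (4 * L ^ 2)) ≤ 48 * N * L ^ 4 := by
    have e1 : (Q : ℝ) * (2 * ω * (4 * L ^ 2)) = 32 * N * L ^ 4 := by
      rw [hω]
      field_simp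
      ring
    have e2 : (Q : ℝ) * (4 * L ^ 2) ^ 2 ≤ 16 * N * L ^ 4 := by
      calc (Q : ℝ) * (4 * L ^ 2) ^ 2 = 16 * Q * L ^ 4 := by ring
        _ ≤ 16 * N * L ^ 4 := by gcongr
    rw [mul_add]
    linarith
  obtain ⟨Er, hEr⟩ : ∃ Er : ℝ, Er = (Q : ℝ) * ((4 * L ^ 2) ^ 2 + 2 * ω * (4 * L ^ 2)) := ⟨_, rfl⟩
  have hEr0 : 0 ≤ Er := by rw [hEr]; positivity
  rw [← hEr] at hE' ⊢
  have hsp : ((spec M I s η).card : ℝ) / M ≤ L ^ K / N := by
    rw [div_le_div_iff₀ hM0 hN0]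
    exact hspec
  have hX' : (X : ℝ) ≤ b * N := by exact_mod_cast hX
  have s1 : ((spec M I s η).card : ℝ) / M * (∑ a ∈ Icc 1 X, (VO Lam (ww y) y Q Q' a + Er)) ≤ A / 2 := by
    have h2 : ∑ a ∈ Icc 1 X, (VO Lam (ww y) y Q Q' a + Er) ≤ N * (N ^ 2 / (Q * L ^ (E + K + 1))) + b * N * (48 * N * L ^ 4) := by
      rw [sum_add_distrib, sum_const, Nat.card_Icc, nsmul_eq_mul, Nat.add_sub_cancel]
      exact add_le_add h0 (mul_le_mul hX' hE' hEr0 (by positivity))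
    have h3 : ((spec M I s η).card : ℝ) / M * (∑ a ∈ Icc 1 X, (VO Lam (ww y) y Q Q' a + Er)) ≤
        L ^ K / N * (N * (N ^ 2 / (Q * L ^ (E + K + 1))) + b * N * (48 * N * L ^ 4)) := by
      apply mul_le_mul hsp h2 _ (by positivity)
      apply sum_nonneg
      intro a _
      have : 0 ≤ VO Lam (ww y) y Q Q' a := sum_nonneg fun _ _ => sq_nonneg _
      linarith
    refine h3.trans ?_
    have h4 : L ^ K / N * (N * (N ^ 2 / (Q * L ^ (E + K + 1))) + b * N * (48 * N * L ^ 4)) = A / L + 48 * b * N * L ^ (K + 4) := by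
      rw [hA]
      field_simp
      ring
    rw [h4]
    have h5 : A / L ≤ A / 4 := div_le_div_of_nonneg_left hA0.le (by norm_num) (by linarith)
    have h6 : 48 * b * N * L ^ (K + 4) ≤ A / 4 := by
      rw [hA, div_div, le_div_iff₀ (by positivity)]
      have h7 : (192 * b : ℝ) ≤ L := by nlinarith
      calc 48 * (b : ℝ) * N * L ^ (K + 4) * (Q * L ^ E * 4) = N * ((192 * b) * (Q * L ^ (K + E + 4))) := by ring
        _ ≤ N * (L * (Q * L ^ (K + E + 4))) := by gcongr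
        _ = N * (Q * L ^ (K + E + 5)) := by ring
        _ ≤ N * N := mul_le_mul_of_nonneg_left (hQpow _ (by omega)) hN0.le
        _ = N ^ 2 := by ring
    linarith
  have s2 : η * wt M (b * N / Q) Q (N * L ^ 2) ω ≤ A / 4 := by
    have h2 := wt_le M N b Q (b * N / Q) L ω hNpos hL1 hL.symm hQ1 hQNn hb hMpos hlogM hlog2N le_rfl hω
    refine (mul_le_mul_of_nonneg_left h2 hη).trans ?_
    rw [hA, div_div, le_div_iff₀ (by positivity)]
    have h3 : (1200000 * b ^ 2 : ℝ) ≤ L := h1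
    calc η * (300000 * (b : ℝ) ^ 2 * L ^ 6 * N * (N / Q) ^ 2) * (Q * L ^ E * 4) =
          (1200000 * b ^ 2) * (N ^ 2 / Q) * ((η * N) * L ^ (E + 6)) := by
          field_simp
          ring
      _ ≤ L * (N ^ 2 / Q) * ((η * N) * L ^ (E + 6)) := by gcongr
      _ = (N ^ 2 / Q) * (η * N * L ^ (E + 7)) := by ring
      _ ≤ (N ^ 2 / Q) * Q := mul_le_mul_of_nonneg_left hηQ (by positivity)
      _ = N ^ 2 := by field_simp
  have s3 : 2 * Er ≤ A / 4 := by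
    refine (mul_le_mul_of_nonneg_left hE' (by norm_num)).trans ?_
    rw [hA, div_div, le_div_iff₀ (by positivity)]
    calc 2 * (48 * (N : ℝ) * L ^ 4) * (Q * L ^ E * 4) = N * (384 * (Q * L ^ (E + 4))) := by ring
      _ ≤ N * (L * (Q * L ^ (E + 4))) := by
          have : (384 : ℝ) ≤ L := by linarith
          gcongr
      _ = N * (Q * L ^ (E + 5)) := by ring
      _ ≤ N * N := mul_le_mul_of_nonneg_left (hQpow _ (by omega)) hN0.le
      _ = N ^ 2 := by ring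
  linarith

end Pool.Agent.K1H51.TM
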