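import Mathlib
import Pool.Agent.K1H51.TM.Blk2
import Pool.Agent.H373R2.T7.LamMaj

set_option autoImplicit false

/-! Interpolation in the height and the dyadic decomposition. -/

namespace Pool.Agent.K1H51.TM

open Finset Pool.Agent.H373R2.T7
open H343E (psiAP psi1 unsmoothed psiAP_le psi1_le card_mod psiAP_nonneg psi1_nonneg Fam)
open Pool.Agent.K1H51.LP (spec)

/-- the prime number theorem for all `y ≤ N` -/
lemma pnt_all (U : ℕ) : ∃ N0 : ℕ, ∀ N : ℕ, N0 ≤ N → ∀ y : ℕ, y ≤ N → |psi1 y - y| ≤ N / Real.log N ^ U := by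
  obtain ⟨C, N1, hC, h⟩ := pnt_lam (U + 1)
  obtain ⟨n1, h1⟩ := ev_L' (2 * (C * 2 ^ (U + 1) + 1))
  obtain ⟨n2, h2⟩ := ev_log' U 14
  obtain ⟨n3, h3⟩ := ev_log' 0 ((N1 : ℝ) + 1)
  refine ⟨n1 + n2 + n3 + 4, fun N hN y hy => ?_⟩
  have h1 := h1 N (by omega)
  have h2 := h2 N (by omega)
  have h3 := h3 N (by omega)
  obtain ⟨L, hL⟩ : ∃ L, L = Real.log (N : ℝ) := ⟨_, rfl⟩
  rw [← hL] at h1 h2 h3 ⊢
  have hC2 : 0 < C * 2 ^ (U + 1) := by positivity
  have hL1 : 1 ≤ L := by linarith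
  have hL0 : 0 < L := by linarith
  have hN4 : (4 : ℝ) ≤ N := by exact_mod_cast (by omega : 4 ≤ N)
  have hN0 : (0 : ℝ) < N := by linarith
  have hs0 : 0 < √(N : ℝ) := Real.sqrt_pos.2 hN0
  have hs2 : √(N : ℝ) * √(N : ℝ) = N := Real.mul_self_sqrt hN0.le
  have hpsi : psi1 y = lam1 y := by
    unfold psi1 lam1
    rw [Nat.floor_natCast]
  rw [hpsi]
  have hLU : 0 < L ^ U := by positivity
  have hkey : 14 * √(N : ℝ) ≤ N / L ^ U := by
    rw [le_div_iff₀ hLU]
    calc 14 * √(N : ℝ) * L ^ U = √(N : ℝ) * (14 * L ^ U) := by ring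
      _ ≤ √(N : ℝ) * √(N : ℝ) := mul_le_mul_of_nonneg_left h2 hs0.le
      _ = N := hs2
  rcases le_or_gt (√(N : ℝ)) y with hcase | hcase
  · have hyN1 : N1 ≤ y := by
      have : (N1 : ℝ) ≤ y := by
        rw [pow_zero, mul_one] at h3
        linarith
      exact_mod_cast this
    have hy0 : (0 : ℝ) < y := lt_of_lt_of_le hs0 hcase
    have h4 := h y hyN1
    have hly : L / 2 ≤ Real.log y := by
      have h5 := Real.log_le_log hs0 hcase
      rw [Real.log_sqrt hN0.le, ← hL] at h5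
      exact h5
    have hyN : (y : ℝ) ≤ N := by exact_mod_cast hy
    have h5 : (y : ℝ) / Real.log y ^ (U + 1) ≤ N / (L / 2) ^ (U + 1) := by
      apply div_le_div₀ hN0.le hyN (by positivity)
      exact pow_le_pow_left₀ (by positivity) hly _
    have h6 : C * ((N : ℝ) / (L / 2) ^ (U + 1)) ≤ N / L ^ U / 2 := by
      rw [div_pow, div_div_eq_mul_div, pow_succ L U, div_div, ← mul_div_assoc, div_le_div_iff₀ (by positivity) (by positivity)]
      calc C * (N * 2 ^ (U + 1)) * (L ^ U * 2) = N * L ^ U * (2 * (C * 2 ^ (U + 1))) := by ring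
        _ ≤ N * L ^ U * L := by
            apply mul_le_mul_of_nonneg_left _ (by positivity)
            linarith
        _ = N * (L ^ U * L) := by ring
    have h7 : (2 : ℝ) ≤ N / L ^ U / 2 := by
      have h8 : (2 : ℝ) ≤ √(N : ℝ) := Real.le_sqrt_of_sq_le (by linarith)
      linarith
    have h8 := mul_le_mul_of_nonneg_left h5 hC.le
    linarith
  · have h4 := lam1_le y
    have h5 : 0 ≤ lam1 y := sum_nonneg fun _ _ => ArithmeticFunction.vonMangoldt_nonneg
    have hy0 : (0 : ℝ) ≤ y := Nat.cast_nonneg _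
    rw [abs_le]
    constructor <;> linarith

/-- the discrepancy -/
noncomputable def Dl (y q a : ℕ) : ℝ := psiAP y q a - ww y q

lemma psi1_mono (y0 y1 N : ℕ) (h : y0 ≤ y1) (hN : y1 ≤ N) : psi1 y0 ≤ psi1 y1 ∧ psi1 y1 - psi1 y0 ≤ (y1 - y0 : ℕ) * Real.log N := by
  unfold psi1
  rw [Nat.floor_natCast, Nat.floor_natCast]
  have h1 : Icc 1 y1 = Icc 1 y0 ∪ Ioc y0 y1 := by
    ext n
    rw [mem_union, mem_Icc, mem_Icc, mem_Ioc]
    omega
  have h2 : Disjoint (Icc 1 y0) (Ioc y0 y1) := by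
    rw [disjoint_left]
    intro n hn hn'
    rw [mem_Icc] at hn
    rw [mem_Ioc] at hn'
    omega
  rw [h1, sum_union h2]
  have h3 : 0 ≤ ∑ n ∈ Ioc y0 y1, ArithmeticFunction.vonMangoldt n := sum_nonneg fun _ _ => ArithmeticFunction.vonMangoldt_nonneg
  have h4 : ∑ n ∈ Ioc y0 y1, ArithmeticFunction.vonMangoldt n ≤ (y1 - y0 : ℕ) * Real.log N := by
    have h5 : ∀ n ∈ Ioc y0 y1, ArithmeticFunction.vonMangoldt n ≤ Real.log N := by
      intro n hn
      rw [mem_Ioc] at hn
      refine ArithmeticFunction.vonMangoldt_le_log.trans ?_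
      exact Real.log_le_log (by exact_mod_cast (by omega : 0 < n)) (by exact_mod_cast hn.2.trans hN)
    refine (sum_le_sum h5).trans (le_of_eq ?_)
    rw [sum_const, Nat.card_Ioc, nsmul_eq_mul]
  constructor <;> linarith

lemma psiAP_mono (y0 y1 q a : ℕ) (h : y0 ≤ y1) : psiAP y0 q a ≤ psiAP y1 q a := by
  unfold psiAP
  rw [Nat.floor_natCast, Nat.floor_natCast]
  apply sum_le_sum_of_subset_of_nonneg
  · exact filter_subset_filter _ (Icc_subset_Icc le_rfl h)
  · intro _ _ _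
    exact ArithmeticFunction.vonMangoldt_nonneg

lemma interp (y0 y y1 N St q a : ℕ) (h0 : y0 ≤ y) (h1 : y ≤ y1) (hS : y1 ≤ y0 + St) (hN : y1 ≤ N) (hN1 : 1 ≤ N) :
    |Dl y q a| ≤ |Dl y0 q a| + |Dl y1 q a| + St * Real.log N * (1 / (Nat.totient q : ℝ)) := by
  have a1 := psiAP_mono y0 y q a h0
  have a2 := psiAP_mono y y1 q a h1
  have hlN : 0 ≤ Real.log N := Real.log_nonneg (by exact_mod_cast hN1)
  have hphi : 0 ≤ 1 / (Nat.totient q : ℝ) := by positivity
  have b1 := (psi1_mono y0 y N h0 (h1.trans hN)).1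
  have b2 := (psi1_mono y y1 N h1 hN).1
  have b3 := (psi1_mono y0 y1 N (h0.trans h1) hN).2
  have b4 : ((y1 - y0 : ℕ) : ℝ) ≤ St := by
    have : y1 - y0 ≤ St := by omega
    exact_mod_cast this
  have w1 : ww y0 q ≤ ww y q := by
    unfold ww
    rw [div_eq_mul_one_div, div_eq_mul_one_div (psi1 y)]
    exact mul_le_mul_of_nonneg_right b1 hphi
  have w2 : ww y q ≤ ww y1 q := by
    unfold ww
    rw [div_eq_mul_one_div, div_eq_mul_one_div (psi1 y1)]
    exact mul_le_mul_of_nonneg_right b2 hphi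
  have w3 : ww y1 q - ww y0 q ≤ St * Real.log N * (1 / (Nat.totient q : ℝ)) := by
    unfold ww
    have e : psi1 (y1 : ℝ) / (Nat.totient q : ℝ) - psi1 (y0 : ℝ) / (Nat.totient q : ℝ) =
      (psi1 (y1 : ℝ) - psi1 (y0 : ℝ)) * (1 / (Nat.totient q : ℝ)) := by ring
    rw [e]
    exact mul_le_mul_of_nonneg_right (b3.trans (mul_le_mul_of_nonneg_right b4 hlN)) hphi
  unfold Dl
  have c1 := neg_abs_le (psiAP y0 q a - ww y0 q)
  have c2 := le_abs_self (psiAP y1 q a - ww y1 q)
  have c3 := abs_nonneg (psiAP y0 q a - ww y0 q)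
  have c4 := abs_nonneg (psiAP y1 q a - ww y1 q)
  rw [abs_le]
  constructor <;> linarith

/-- the grid of the heights -/
noncomputable def grid (N St : ℕ) : Finset ℕ := (range (N / St + 1)).image (fun j => St * j) ∪ {N}

lemma grid_card (N St : ℕ) : (grid N St).card ≤ N / St + 2 := by
  unfold grid
  refine (card_union_le _ _).trans ?_
  rw [card_singleton]
  have := card_image_le (s := range (N / St + 1)) (f := fun j => St * j)
  rw [card_range] at this
  omega

lemma grid_le (N St y : ℕ) (hy : y ∈ grid N St) : y ≤ N := by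
  unfold grid at hy
  rw [mem_union, mem_image, mem_singleton] at hy
  rcases hy with ⟨j, hj, rfl⟩ | rfl
  · rw [mem_range] at hj
    exact (Nat.mul_le_mul_left St (by omega)).trans (Nat.mul_div_le N St)
  · exact le_rfl

lemma grid_ge (N St y : ℕ) (hSN : St ≤ N) (hy : y ∈ grid N St) (h0 : y ≠ 0) : St ≤ y := by
  unfold grid at hy
  rw [mem_union, mem_image, mem_singleton] at hy
  rcases hy with ⟨j, hj, rfl⟩ | rfl
  · apply Nat.le_mul_of_pos_right
    rcases Nat.eq_zero_or_pos j with h | h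
    · rw [h, mul_zero] at h0
      exact absurd rfl h0
    · exact h
  · exact hSN

lemma grid_near (N St y : ℕ) (hS : 1 ≤ St) (hy : y ≤ N) : ∃ y0 ∈ grid N St, ∃ y1 ∈ grid N St, y0 ≤ y ∧ y ≤ y1 ∧ y1 ≤ y0 + St ∧ y1 ≤ N := by
  have h1 := Nat.div_add_mod y St
  have h2 := Nat.mod_lt y hS
  have h3 : y / St ≤ N / St := Nat.div_le_div_right hy
  refine ⟨St * (y / St), ?_, ?_⟩
  · unfold grid
    rw [mem_union, mem_image]
    exact Or.inl ⟨y / St, mem_range.2 (by omega), rfl⟩
  · by_cases h : St * (y / St) + St ≤ N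
    · refine ⟨St * (y / St) + St, ?_, by omega, by omega, le_rfl, h⟩
      unfold grid
      rw [mem_union, mem_image]
      refine Or.inl ⟨y / St + 1, mem_range.2 ?_, by ring⟩
      have h4 : St * (y / St + 1) ≤ N := by rw [Nat.mul_succ]; exact h
      have h5 : y / St + 1 ≤ N / St := by
        rw [Nat.le_div_iff_mul_le hS, mul_comm]
        exact h4
      omega
    · refine ⟨N, ?_, by omega, hy, by omega, le_rfl⟩
      unfold grid
      rw [mem_union, mem_singleton]
      exact Or.inr rfl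

lemma Dl_zero (q a : ℕ) : Dl 0 q a = 0 := by
  unfold Dl ww psiAP psi1
  simp

/-- from the variance to the first moment in a block -/
lemma block_abs (y Q a : ℕ) (hy : 1 ≤ y) (V L : ℝ) (hL : Real.log y ≤ L) (hV0 : 0 ≤ V) (hV : (Q : ℝ) * VO Lam (ww y) y Q (2 * Q) a ≤ V ^ 2) :
    ∑ q ∈ (Ico Q (2 * Q)).filter (fun q => a.Coprime q), |Dl y q a| ≤ V + Q * L := by
  classical
  have hL0 : 0 ≤ L := (Real.log_natCast_nonneg y).trans hL
  have hcard : (((Ico Q (2 * Q)).filter (fun q => a.Coprime q)).card : ℝ) ≤ Q := by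
    have h1 := card_filter_le (Ico Q (2 * Q)) (fun q => a.Coprime q)
    rw [Nat.card_Ico] at h1
    have : ((Ico Q (2 * Q)).filter (fun q => a.Coprime q)).card ≤ Q := by omega
    exact_mod_cast this
  have h1 : ∀ q ∈ (Ico Q (2 * Q)).filter (fun q => a.Coprime q), |Dl y q a| ≤ |psiO Lam y q a - ww y q| + L := by
    intro q _
    have h2 := psiO_near y q a hy
    unfold Dl
    have e : psiAP y q a - ww y q = (psiO Lam y q a - ww y q) + (psiAP y q a - psiO Lam y q a) := by ring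
    rw [e]
    refine (abs_add_le _ _).trans ?_
    rw [abs_of_nonneg h2.1]
    linarith
  refine (sum_le_sum h1).trans ?_
  rw [sum_add_distrib, sum_const, nsmul_eq_mul]
  apply add_le_add
  · have h2 : (∑ q ∈ (Ico Q (2 * Q)).filter (fun q => a.Coprime q), |psiO Lam y q a - ww y q|) ^ 2 ≤ V ^ 2 := by
      refine sq_sum_le_card_mul_sum_sq.trans ?_
      have h3 : ∑ q ∈ (Ico Q (2 * Q)).filter (fun q => a.Coprime q), |psiO Lam y q a - ww y q| ^ 2 = VO Lam (ww y) y Q (2 * Q) a := by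
        unfold VO
        apply sum_congr rfl
        intro q _
        rw [sq_abs]
      rw [h3]
      refine le_trans ?_ hV
      exact mul_le_mul_of_nonneg_right hcard (sum_nonneg fun _ _ => sq_nonneg _)
    exact le_of_sq_le_sq h2 hV0
  · exact mul_le_mul_of_nonneg_right hcard hL0

end Pool.Agent.K1H51.TM
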