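import Mathlib
import Pool.Agent.K1H51.TM.Asm

set_option autoImplicit false

/-! The absolute values of the discrepancies, for the large moduli and almost all members of a family. -/

namespace Pool.Agent.K1H51.TM

open Finset Pool.Agent.H373R2.T7
open H343E (psiAP psi1 unsmoothed psiAP_le psi1_le card_mod psiAP_nonneg psi1_nonneg Fam)
open Pool.Agent.K1H51.LP (spec)

/-- the moduli which are considered for the residue `a` -/
noncomputable def mods (N C0 K1 : ℕ) (η : ℝ) (a : ℕ) : Finset ℕ :=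
  (Icc 1 N).filter (fun q : ℕ => η * N * Real.log N ^ C0 ≤ q ∧ (q : ℝ) * Real.log N ^ K1 ≤ N ∧ a.Coprime q)

/-- the conclusion for the residue `a` -/
def Good (N C0 K1 U : ℕ) (η : ℝ) (a : ℕ) : Prop :=
  ∀ Y : ℕ → ℕ, (∀ q, Y q ≤ N) → ∑ q ∈ mods N C0 K1 η a, |psiAP (Y q) q a - (Y q : ℝ) / (Nat.totient q : ℝ)| ≤ N / Real.log N ^ U

lemma sum_inv_phi (N : ℕ) (L : ℝ) (hN : 1 ≤ N) (hL : 1 ≤ L) (hl : Real.log N = L) :
    ∑ q ∈ Icc 1 N, 1 / (Nat.totient q : ℝ) ≤ 8 * L ^ 2 := by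
  have h1 : ∀ q ∈ Icc 1 N, 1 / (Nat.totient q : ℝ) ≤ 4 * L * (1 / q) := by
    intro q hq
    rw [mem_Icc] at hq
    have h2 := Pool.Agent.K1H51.LP.inv_phi_log q N hq.1 hq.2
    have h3 := Pool.Agent.K1H51.LP.nlog N L hN hL (by rw [hl]; linarith)
    refine h2.trans ?_
    exact mul_le_mul_of_nonneg_right h3 (by positivity)
  refine (sum_le_sum h1).trans ?_
  rw [← mul_sum]
  have h2 := Pool.Agent.K1H51.LP.sum_inv_Icc' N
  rw [hl] at h2
  calc 4 * L * ∑ q ∈ Icc 1 N, 1 / (q : ℝ) ≤ 4 * L * (1 + L) := mul_le_mul_of_nonneg_left h2 (by linarith)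
    _ ≤ _ := by nlinarith

set_option maxHeartbeats 4000000 in
theorem crit3 (U K : ℕ) : ∃ K1 C0 N0 : ℕ, ∀ N : ℕ, N0 ≤ N → ∀ M : ℕ, 3 * N ≤ M → M ≤ N ^ 2 →
    ∀ {ι : Type} (I : Finset ι) (s : ι → ℤ) (η : ℝ), 0 ≤ η → ((spec M I s η).card : ℝ) * N ≤ Real.log N ^ K * M →
    ∃ Bad ⊆ I, (Bad.card : ℝ) ≤ I.card / Real.log N ^ U ∧
      ∀ i ∈ I, i ∉ Bad → 1 ≤ s i → s i ≤ N → Good N C0 K1 U η (s i).toNat := by
  classical
  obtain ⟨W, hW⟩ : ∃ W, W = U + 5 := ⟨_, rfl⟩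
  obtain ⟨e, he⟩ : ∃ e, e = W + U + 6 := ⟨_, rfl⟩
  obtain ⟨K1, C0, n0, h0⟩ := block 1 (2 * e + (U + W + 4)) K (W + 1) le_rfl
  obtain ⟨n1, h1⟩ := pnt_all (U + 4)
  obtain ⟨n2, h2⟩ := ev_L' 100
  obtain ⟨n3, h3⟩ := ev_log' W 2
  refine ⟨K1 + e + 1, C0 + 1, n0 + n1 + n2 + n3 + 4, fun N hN M hM1 hM2 ι I s η hη hspec => ?_⟩
  have h0 := h0 N (by omega) M (by omega) hM2 I s η hη hspec
  have h1 := h1 N (by omega)
  have h2 := h2 N (by omega)
  have h3 := h3 N (by omega)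
  obtain ⟨L, hL⟩ : ∃ L, L = Real.log (N : ℝ) := ⟨_, rfl⟩
  rw [← hL] at h0 h1 h2 h3 ⊢
  have hL0 : 0 < L := by linarith
  have hL1 : 1 ≤ L := by linarith
  have hNpos : 0 < N := by omega
  have hN4 : (4 : ℝ) ≤ N := by exact_mod_cast (by omega : 4 ≤ N)
  have hN0 : (0 : ℝ) < N := by linarith
  -- the step
  obtain ⟨St, hSt⟩ : ∃ St, St = ⌊(N : ℝ) / L ^ W⌋₊ := ⟨_, rfl⟩
  have hLW0 : 0 < L ^ W := by positivity
  have hLW1 : 1 ≤ L ^ W := one_le_pow₀ hL1
  have hSt1 : (St : ℝ) ≤ N / L ^ W := by rw [hSt]; exact Nat.floor_le (by positivity)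
  have hNLW : 2 * L ^ W ≤ N := by
    refine h3.trans ?_
    rw [Real.sqrt_le_left hN0.le]
    nlinarith
  have hSt2 : (N : ℝ) / L ^ W < St + 1 := by rw [hSt]; exact Nat.lt_floor_add_one _
  have hNLW' : 2 ≤ (N : ℝ) / L ^ W := by rw [le_div_iff₀ hLW0]; exact hNLW
  have hSt3 : (N : ℝ) / L ^ W ≤ 2 * St := by linarith
  have hStpos : 1 ≤ St := by
    have : (0 : ℝ) < St := by linarith
    exact_mod_cast this
  have hSt0 : (0 : ℝ) < St := by exact_mod_cast hStpos
  have hStN : St ≤ N := by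
    have : (St : ℝ) ≤ N := hSt1.trans (div_le_self hN0.le hLW1)
    exact_mod_cast this
  obtain ⟨G, hG⟩ : ∃ G, G = grid N St := ⟨_, rfl⟩
  have hGcard : (G.card : ℝ) ≤ L ^ (W + 1) := by
    have h4 := grid_card N St
    rw [← hG] at h4
    have h5 : (G.card : ℝ) ≤ ((N / St + 2 : ℕ) : ℝ) := by exact_mod_cast h4
    push_cast at h5
    have h6 : ((N / St : ℕ) : ℝ) ≤ N / St := Nat.cast_div_le
    have h7 : (N : ℝ) / St ≤ 2 * L ^ W := by
      rw [div_le_iff₀ hSt0]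
      rw [div_le_iff₀ hLW0] at hSt3
      linarith
    have h8 : L ^ (W + 1) = L ^ W * L := pow_succ _ _
    rw [h8]
    nlinarith
  have hGy : ∀ y ∈ G, y ≠ 0 → y ≤ N ∧ 1 ≤ y ∧ (N : ℝ) ≤ y * L ^ (W + 1) := by
    intro y hy hy0
    rw [hG] at hy
    refine ⟨grid_le N St y hy, by omega, ?_⟩
    have h4 : (St : ℝ) ≤ y := by exact_mod_cast grid_ge N St y hStN hy hy0
    rw [div_le_iff₀ hLW0] at hSt3
    calc (N : ℝ) ≤ 2 * St * L ^ W := hSt3
      _ ≤ (L * y) * L ^ W := by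
          apply mul_le_mul_of_nonneg_right _ hLW0.le
          exact mul_le_mul (by linarith) h4 hSt0.le hL0.le
      _ = y * L ^ (W + 1) := by ring
  -- the blocks
  obtain ⟨Js, hJs⟩ : ∃ Js : Finset ℕ, Js = (range (Nat.log 2 N + 1)).filter
    (fun j : ℕ => ((2 ^ j : ℕ) : ℝ) * L ^ (K1 + e + 1) ≤ N ∧ η * N * L ^ C0 ≤ (2 ^ j : ℕ)) := ⟨_, rfl⟩
  have hJcard : (Js.card : ℝ) ≤ 4 * L := by
    have h4 : Js.card ≤ Nat.log 2 N + 1 := by
      rw [hJs]
      refine (card_filter_le _ _).trans ?_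
      rw [card_range]
    have h5 := Pool.Agent.K1H51.LP.nlog N L hNpos hL1 (by rw [← hL]; linarith)
    have h6 : (Js.card : ℝ) ≤ ((Nat.log 2 N + 1 : ℕ) : ℝ) := by exact_mod_cast h4
    push_cast at h6
    linarith
  -- the bad members
  obtain ⟨Bd, hBd⟩ : ∃ Bd : ℕ → ℕ → Finset ι, Bd = fun y j => (I.filter (fun i => 1 ≤ s i ∧ s i ≤ N)).filter
    (fun i => (N : ℝ) ^ 2 / ((2 ^ j : ℕ) * L ^ (2 * e)) < VO Lam (ww y) y (2 ^ j) (2 * 2 ^ j) (s i).toNat) := ⟨_, rfl⟩
  have hBdcard : ∀ y ∈ G, y ≠ 0 → ∀ j ∈ Js, ((Bd y j).card : ℝ) ≤ I.card / L ^ (U + W + 4) := by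
    intro y hy hy0 j hj
    obtain ⟨g1, g2, g3⟩ := hGy y hy hy0
    rw [hJs, mem_filter] at hj
    have hq1 : 1 ≤ 2 ^ j := Nat.one_le_two_pow
    have hq0 : (0 : ℝ) < ((2 ^ j : ℕ) : ℝ) := by exact_mod_cast hq1
    have h4 := h0 y g3 g1 N (by omega) (2 ^ j) (2 * 2 ^ j) hq1 (by omega) le_rfl
      ((mul_le_mul_of_nonneg_left (pow_le_pow_right₀ hL1 (by omega)) hq0.le).trans hj.2.1) hj.2.2
    have h5 : ((Bd y j).card : ℝ) * ((N : ℝ) ^ 2 / ((2 ^ j : ℕ) * L ^ (2 * e))) ≤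
        ∑ i ∈ I.filter (fun i => 1 ≤ s i ∧ s i ≤ N), VO Lam (ww y) y (2 ^ j) (2 * 2 ^ j) (s i).toNat := by
      rw [← nsmul_eq_mul]
      refine (card_nsmul_le_sum (Bd y j) (fun i => VO Lam (ww y) y (2 ^ j) (2 * 2 ^ j) (s i).toNat) _ ?_).trans ?_
      · intro i hi
        rw [hBd] at hi
        exact (mem_filter.1 hi).2.le
      · apply sum_le_sum_of_subset_of_nonneg
        · rw [hBd]
          exact filter_subset _ _
        · intro _ _ _
          exact sum_nonneg fun _ _ => sq_nonneg _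
    have h6 := h5.trans h4
    rw [le_div_iff₀ (by positivity)]
    have h7 : (I.card : ℝ) * (N ^ 2 / ((2 ^ j : ℕ) * L ^ (2 * e + (U + W + 4)))) =
        (I.card / L ^ (U + W + 4)) * (N ^ 2 / ((2 ^ j : ℕ) * L ^ (2 * e))) := by
      rw [pow_add]
      field_simp
    rw [h7] at h6
    have h8 : (0 : ℝ) < (N : ℝ) ^ 2 / ((2 ^ j : ℕ) * L ^ (2 * e)) := by positivity
    have h9 := le_of_mul_le_mul_right h6 h8
    rwa [le_div_iff₀ (by positivity)] at h9
  obtain ⟨Bad, hBad⟩ : ∃ Bad : Finset ι, Bad = (G.erase 0).biUnion (fun y => Js.biUnion (fun j => Bd y j)) := ⟨_, rfl⟩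
  refine ⟨Bad, ?_, ?_, ?_⟩
  · intro i hi
    rw [hBad, mem_biUnion] at hi
    obtain ⟨y, _, hi⟩ := hi
    rw [mem_biUnion] at hi
    obtain ⟨j, _, hi⟩ := hi
    rw [hBd] at hi
    exact (mem_filter.1 (mem_filter.1 hi).1).1
  · have h4 : (Bad.card : ℝ) ≤ ∑ y ∈ G.erase 0, ∑ j ∈ Js, ((Bd y j).card : ℝ) := by
      have h5 : Bad.card ≤ ∑ y ∈ G.erase 0, ∑ j ∈ Js, (Bd y j).card := by
        rw [hBad]
        refine card_biUnion_le.trans (sum_le_sum fun y _ => ?_)
        exact card_biUnion_le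
      exact_mod_cast h5
    have h5 : ∑ y ∈ G.erase 0, ∑ j ∈ Js, ((Bd y j).card : ℝ) ≤ ∑ y ∈ G.erase 0, ∑ j ∈ Js, (I.card : ℝ) / L ^ (U + W + 4) := by
      apply sum_le_sum
      intro y hy
      rw [mem_erase] at hy
      apply sum_le_sum
      intro j hj
      exact hBdcard y hy.2 hy.1 j hj
    refine h4.trans (h5.trans ?_)
    rw [sum_const, sum_const, nsmul_eq_mul, nsmul_eq_mul]
    have h6 : ((G.erase 0).card : ℝ) ≤ L ^ (W + 1) := by
      refine le_trans ?_ hGcard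
      exact_mod_cast card_le_card (erase_subset _ _)
    calc ((G.erase 0).card : ℝ) * ((Js.card : ℝ) * (I.card / L ^ (U + W + 4))) ≤ L ^ (W + 1) * ((4 * L) * (I.card / L ^ (U + W + 4))) := by
          gcongr
      _ ≤ L ^ (W + 1) * ((L ^ 2) * (I.card / L ^ (U + W + 4))) := by
          gcongr
          nlinarith
      _ = (I.card / L ^ U) / L := by
          have : L ^ (U + W + 4) = L ^ U * L ^ (W + 1) * L ^ 2 * L := by ring
          rw [this]
          field_simp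
      _ ≤ I.card / L ^ U := div_le_self (by positivity) hL1
  · intro i hiI hiB hs1 hs2
    obtain ⟨a, ha⟩ : ∃ a, a = (s i).toNat := ⟨_, rfl⟩
    rw [← ha]
    intro Y hY
    rw [← hL]
    obtain ⟨Ms, hMs⟩ : ∃ Ms, Ms = mods N (C0 + 1) (K1 + e + 1) η a := ⟨_, rfl⟩
    rw [← hMs]
    have hMsI : Ms ⊆ Icc 1 N := by rw [hMs]; exact filter_subset _ _
    -- the discrepancies at the points of the grid
    have hS : ∀ y ∈ G, ∑ q ∈ Ms, |Dl y q a| ≤ (4 * L) * (2 * (N / L ^ e)) := by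
      intro y hy
      by_cases hy0 : y = 0
      · rw [hy0]
        simp only [Dl_zero, abs_zero, sum_const_zero]
        positivity
      obtain ⟨g1, g2, g3⟩ := hGy y hy hy0
      have hmap : ∀ q ∈ Ms, Nat.log 2 q ∈ Js := by
        intro q hq
        rw [hMs, mods, mem_filter, mem_Icc] at hq
        obtain ⟨⟨q1, q2⟩, q3, q4, q5⟩ := hq
        rw [← hL] at q3 q4
        rw [hJs, mem_filter, mem_range]
        have r1 : 2 ^ Nat.log 2 q ≤ q := Nat.pow_log_le_self 2 (by omega)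
        have r2 : q < 2 ^ (Nat.log 2 q + 1) := Nat.lt_pow_succ_log_self (by norm_num) q
        have r1' : ((2 ^ Nat.log 2 q : ℕ) : ℝ) ≤ q := by exact_mod_cast r1
        have r2' : (q : ℝ) ≤ 2 * ((2 ^ Nat.log 2 q : ℕ) : ℝ) := by
          rw [pow_succ] at r2
          have : q ≤ 2 * 2 ^ Nat.log 2 q := by omega
          exact_mod_cast this
        refine ⟨by have := Nat.log_mono_right (b := 2) q2; omega, ?_, ?_⟩
        · exact (mul_le_mul_of_nonneg_right r1' (by positivity)).trans q4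
        · have r3 : η * N * L ^ (C0 + 1) ≤ 2 * ((2 ^ Nat.log 2 q : ℕ) : ℝ) := q3.trans r2'
          have r4 : 2 * (η * N * L ^ C0) ≤ η * N * L ^ (C0 + 1) := by
            calc 2 * (η * N * L ^ C0) ≤ L * (η * N * L ^ C0) := mul_le_mul_of_nonneg_right (by linarith) (by positivity)
              _ = _ := by ring
          linarith
      rw [← sum_fiberwise_of_maps_to hmap]
      have hblk : ∀ j ∈ Js, ∑ q ∈ Ms.filter (fun q => Nat.log 2 q = j), |Dl y q a| ≤ 2 * (N / L ^ e) := by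
        intro j hj
        have hq1 : 1 ≤ 2 ^ j := Nat.one_le_two_pow
        have hq0 : (0 : ℝ) < ((2 ^ j : ℕ) : ℝ) := by exact_mod_cast hq1
        have hnot : i ∉ Bd y j := by
          intro hc
          apply hiB
          rw [hBad, mem_biUnion]
          exact ⟨y, mem_erase.2 ⟨hy0, hy⟩, mem_biUnion.2 ⟨j, hj, hc⟩⟩
        have hV : VO Lam (ww y) y (2 ^ j) (2 * 2 ^ j) a ≤ (N : ℝ) ^ 2 / ((2 ^ j : ℕ) * L ^ (2 * e)) := by
          by_contra hcon
          push Not at hcon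
          apply hnot
          rw [hBd, mem_filter, mem_filter]
          exact ⟨⟨hiI, hs1, hs2⟩, by rw [← ha]; exact hcon⟩
        have hly : Real.log y ≤ L := by
          rw [hL]
          exact Real.log_le_log (by exact_mod_cast g2) (by exact_mod_cast g1)
        have hblock := block_abs y (2 ^ j) a g2 (N / L ^ e) L hly (by positivity) (by
          calc ((2 ^ j : ℕ) : ℝ) * VO Lam (ww y) y (2 ^ j) (2 * 2 ^ j) a ≤ ((2 ^ j : ℕ) : ℝ) * ((N : ℝ) ^ 2 / ((2 ^ j : ℕ) * L ^ (2 * e))) :=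
                mul_le_mul_of_nonneg_left hV hq0.le
            _ = (N / L ^ e) ^ 2 := by
                rw [pow_mul' L 2 e]
                field_simp)
        have hsub : ∑ q ∈ Ms.filter (fun q => Nat.log 2 q = j), |Dl y q a| ≤
            ∑ q ∈ (Ico (2 ^ j) (2 * 2 ^ j)).filter (fun q => a.Coprime q), |Dl y q a| := by
          apply sum_le_sum_of_subset_of_nonneg
          · intro q hq
            rw [mem_filter, hMs, mods, mem_filter, mem_Icc] at hq
            obtain ⟨⟨⟨q1, q2⟩, q3, q4, q5⟩, q6⟩ := hq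
            rw [mem_filter, mem_Ico]
            have r1 : 2 ^ Nat.log 2 q ≤ q := Nat.pow_log_le_self 2 (by omega)
            have r2 : q < 2 ^ (Nat.log 2 q + 1) := Nat.lt_pow_succ_log_self (by norm_num) q
            rw [q6] at r1 r2
            rw [pow_succ] at r2
            exact ⟨⟨r1, by omega⟩, q5⟩
          · intro _ _ _
            exact abs_nonneg _
        refine hsub.trans (hblock.trans ?_)
        rw [hJs, mem_filter] at hj
        have h4 : ((2 ^ j : ℕ) : ℝ) * L ≤ N / L ^ e := by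
          rw [le_div_iff₀ (by positivity)]
          calc ((2 ^ j : ℕ) : ℝ) * L * L ^ e = ((2 ^ j : ℕ) : ℝ) * L ^ (e + 1) := by ring
            _ ≤ ((2 ^ j : ℕ) : ℝ) * L ^ (K1 + e + 1) := mul_le_mul_of_nonneg_left (pow_le_pow_right₀ hL1 (by omega)) hq0.le
            _ ≤ N := hj.2.1
        linarith
      refine (sum_le_sum hblk).trans ?_
      rw [sum_const, nsmul_eq_mul]
      exact mul_le_mul_of_nonneg_right hJcard (by positivity)
    -- interpolation
    have hnear : ∀ q ∈ Ms, |psiAP (Y q) q a - (Y q : ℝ) / (Nat.totient q : ℝ)| ≤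
        2 * (∑ y ∈ G, |Dl y q a|) + (St * L * (1 / (Nat.totient q : ℝ)) + N / L ^ (U + 4) * (1 / (Nat.totient q : ℝ))) := by
      intro q _
      obtain ⟨y0, hy0, y1, hy1, a1, a2, a3, a4⟩ := grid_near N St (Y q) hStpos (hY q)
      rw [← hG] at hy0 hy1
      have b1 := interp y0 (Y q) y1 N St q a a1 a2 a3 a4 hNpos
      rw [← hL] at b1
      have b2 : |Dl y0 q a| ≤ ∑ y ∈ G, |Dl y q a| := single_le_sum (f := fun y => |Dl y q a|) (fun _ _ => abs_nonneg _) hy0
      have b3 : |Dl y1 q a| ≤ ∑ y ∈ G, |Dl y q a| := single_le_sum (f := fun y => |Dl y q a|) (fun _ _ => abs_nonneg _) hy1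
      have b4 := h1 (Y q) (hY q)
      have b5 : |ww (Y q) q - (Y q : ℝ) / (Nat.totient q : ℝ)| ≤ N / L ^ (U + 4) * (1 / (Nat.totient q : ℝ)) := by
        unfold ww
        have e1 : psi1 (Y q : ℝ) / (Nat.totient q : ℝ) - (Y q : ℝ) / (Nat.totient q : ℝ) = (psi1 (Y q : ℝ) - Y q) * (1 / (Nat.totient q : ℝ)) := by ring
        have hphi : 0 ≤ 1 / (Nat.totient q : ℝ) := by positivity
        rw [e1, abs_mul, abs_of_nonneg hphi]
        exact mul_le_mul_of_nonneg_right b4 hphi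
      have e2 : psiAP (Y q) q a - (Y q : ℝ) / (Nat.totient q : ℝ) = Dl (Y q) q a + (ww (Y q) q - (Y q : ℝ) / (Nat.totient q : ℝ)) := by
        unfold Dl
        ring
      rw [e2]
      refine (abs_add_le _ _).trans ?_
      linarith
    refine (sum_le_sum hnear).trans ?_
    rw [sum_add_distrib, sum_add_distrib, ← mul_sum, ← mul_sum, ← mul_sum, sum_comm]
    have hphi : ∑ q ∈ Ms, 1 / (Nat.totient q : ℝ) ≤ 8 * L ^ 2 := by
      refine le_trans ?_ (sum_inv_phi N L hNpos hL1 hL.symm)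
      exact sum_le_sum_of_subset_of_nonneg hMsI fun _ _ _ => by positivity
    have c1 : 2 * ∑ y ∈ G, ∑ q ∈ Ms, |Dl y q a| ≤ N / L ^ U / 4 := by
      have d1 : ∑ y ∈ G, ∑ q ∈ Ms, |Dl y q a| ≤ L ^ (W + 1) * ((4 * L) * (2 * (N / L ^ e))) := by
        refine (sum_le_sum hS).trans ?_
        rw [sum_const, nsmul_eq_mul]
        exact mul_le_mul_of_nonneg_right hGcard (by positivity)
      have d2 : L ^ e = L ^ (W + 1) * L ^ U * L ^ 5 := by
        rw [he]
        ring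
      have d3 : L ^ (W + 1) * ((4 * L) * (2 * (N / L ^ e))) = N / L ^ U * (8 / L ^ 4) := by
        rw [d2]
        field_simp
        ring
      have d4 : 8 / L ^ 4 ≤ 1 / 8 := by
        rw [div_le_div_iff₀ (by positivity) (by norm_num)]
        have : L ≤ L ^ 4 := le_self_pow₀ hL1 (by norm_num)
        linarith
      have d5 : 0 ≤ (N : ℝ) / L ^ U := by positivity
      rw [d3] at d1
      have := mul_le_mul_of_nonneg_left d4 d5
      linarith
    have c2 : (St : ℝ) * L * ∑ q ∈ Ms, 1 / (Nat.totient q : ℝ) ≤ N / L ^ U / 4 := by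
      calc (St : ℝ) * L * ∑ q ∈ Ms, 1 / (Nat.totient q : ℝ) ≤ (N / L ^ W) * L * (8 * L ^ 2) := by gcongr
        _ = N / L ^ U * (8 / L ^ 2) := by
            rw [hW, pow_add]
            field_simp
        _ ≤ N / L ^ U * (1 / 4) := by
            apply mul_le_mul_of_nonneg_left _ (by positivity)
            rw [div_le_div_iff₀ (by positivity) (by norm_num)]
            nlinarith
        _ = _ := by ring
    have c3 : (N : ℝ) / L ^ (U + 4) * ∑ q ∈ Ms, 1 / (Nat.totient q : ℝ) ≤ N / L ^ U / 4 := by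
      calc (N : ℝ) / L ^ (U + 4) * ∑ q ∈ Ms, 1 / (Nat.totient q : ℝ) ≤ (N / L ^ (U + 4)) * (8 * L ^ 2) := by gcongr
        _ = N / L ^ U * (8 / L ^ 2) := by
            rw [pow_add]
            field_simp
        _ ≤ N / L ^ U * (1 / 4) := by
            apply mul_le_mul_of_nonneg_left _ (by positivity)
            rw [div_le_div_iff₀ (by positivity) (by norm_num)]
            nlinarith
        _ = _ := by ring
    have c4 : (0 : ℝ) ≤ N / L ^ U := by positivity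
    linarith

end Pool.Agent.K1H51.TM
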