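import Mathlib
import Pool.Agent.K1H51.TM.Fin

set_option autoImplicit false

/-! Collisions of the members of a family modulo the `q` of a block. -/

namespace Pool.Agent.K1H51.TM

open Finset Pool.Agent.H373R2.T7
open Pool.Agent.H807R2.Dav
open H343E (psiAP psi1 unsmoothed psiAP_le psi1_le card_mod psiAP_nonneg psi1_nonneg Fam)
open Pool.Agent.K1H51.LP (spec)
open Pool.Agent.K1H51.LD (ee_per)

/-- averages over the differences of a family with a small large spectrum -/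
theorem transfer2 {ι : Type*} (I : Finset ι) (s : ι → ℤ) (M : ℕ) (hM : 1 ≤ M) (η w : ℝ) (hη : 0 ≤ η) (h : ℤ → ℂ)
    (hw : Wn M w h) :
    ‖∑ i ∈ I, ∑ i' ∈ I, h (s i - s i')‖ ≤ (I.card : ℝ) ^ 2 * (((spec M I s η).card : ℝ) / M * ∑ a ∈ range M, ‖h a‖ + η ^ 2 * w) := by
  classical
  obtain ⟨J, S, c, τ, h1, h2⟩ := hw
  have hM0 : (0 : ℝ) < M := by exact_mod_cast hM
  have hMz : (M : ℤ) ≠ 0 := by omega
  obtain ⟨r, hr⟩ : ∃ r : J → ℕ, r = fun j => (τ j % M).toNat := ⟨_, rfl⟩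
  have hrz : ∀ j, ((r j : ℕ) : ℤ) = τ j % M := by
    intro j
    rw [hr]
    exact Int.toNat_of_nonneg (Int.emod_nonneg _ hMz)
  have hrM : ∀ j, r j < M := by
    intro j
    have := Int.emod_lt_of_pos (τ j) (by omega : (0 : ℤ) < M)
    have := hrz j
    omega
  have hrd : ∀ j, (M : ℤ) ∣ τ j - (r j : ℤ) := by
    intro j
    rw [hrz]
    exact Int.dvd_self_sub_emod
  obtain ⟨A, hA⟩ : ∃ A : ℕ → ℂ, A = fun t : ℕ => ∑ i ∈ I, ee ((t : ℝ) * ((s i : ℝ) / M)) := ⟨_, rfl⟩
  obtain ⟨A2, hA2⟩ : ∃ A2 : ℕ → ℂ, A2 = fun t : ℕ => ∑ i ∈ I, ∑ i' ∈ I, ee ((t : ℝ) * (((s i - s i' : ℤ) : ℝ) / M)) := ⟨_, rfl⟩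
  have hA2n : ∀ t, ‖A2 t‖ = ‖A t‖ ^ 2 := by
    intro t
    have e : A2 t = A t * (∑ i' ∈ I, ee (-((t : ℝ) * ((s i' : ℝ) / M)))) := by
      rw [hA2, hA]
      dsimp only
      rw [sum_mul_sum]
      apply sum_congr rfl
      intro i _
      apply sum_congr rfl
      intro i' _
      rw [← ee_add]
      congr 1
      push_cast
      ring
    have e2 : ∑ i' ∈ I, ee (-((t : ℝ) * ((s i' : ℝ) / M))) = (starRingEnd ℂ) (A t) := by
      rw [hA, map_sum]
      apply sum_congr rfl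
      intro i' _
      rw [ee_eq, ee_eq, ← Complex.exp_conj]
      congr 1
      rw [map_mul, Complex.conj_ofReal, Complex.conj_I]
      push_cast
      ring
    rw [e, e2, norm_mul, RCLike.norm_conj, sq]
  have hA1 : ∀ t, ‖A t‖ ≤ I.card := by
    intro t
    rw [hA]
    refine (norm_sum_le _ _).trans ?_
    simp [norm_ee]
  have e1 : ∑ i ∈ I, ∑ i' ∈ I, h (s i - s i') = ∑ j ∈ S, c j * A2 (r j) := by
    simp only [h1]
    have e0 : ∀ i ∈ I, ∑ i' ∈ I, ∑ j ∈ S, c j * ee ((τ j : ℝ) * (((s i - s i' : ℤ) : ℝ) / M)) =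
        ∑ j ∈ S, ∑ i' ∈ I, c j * ee ((τ j : ℝ) * (((s i - s i' : ℤ) : ℝ) / M)) := fun i _ => sum_comm
    rw [sum_congr rfl e0, sum_comm]
    apply sum_congr rfl
    intro j _
    rw [hA2]
    dsimp only
    rw [mul_sum]
    apply sum_congr rfl
    intro i _
    rw [mul_sum]
    apply sum_congr rfl
    intro i' _
    have := ee_per M hM (s i - s i') (τ j) (r j) (hrd j)
    rw [this]
    simp
  have e2 : ∑ j ∈ S, c j * A2 (r j) = ∑ j ∈ S.filter (fun j => r j ∈ spec M I s η), c j * A2 (r j) +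
      ∑ j ∈ S.filter (fun j => ¬ r j ∈ spec M I s η), c j * A2 (r j) :=
    (sum_filter_add_sum_filter_not S _ _).symm
  have e3 : ‖∑ j ∈ S.filter (fun j => ¬ r j ∈ spec M I s η), c j * A2 (r j)‖ ≤ w * (η * I.card) ^ 2 := by
    have h3 : ∀ j ∈ S.filter (fun j => ¬ r j ∈ spec M I s η), ‖c j * A2 (r j)‖ ≤ ‖c j‖ * (η * I.card) ^ 2 := by
      intro j hj
      rw [mem_filter] at hj
      rw [norm_mul, hA2n]
      apply mul_le_mul_of_nonneg_left _ (norm_nonneg _)
      apply pow_le_pow_left₀ (norm_nonneg _)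
      have h4 := hj.2
      unfold spec at h4
      rw [mem_filter, mem_range] at h4
      push Not at h4
      rw [hA]
      exact h4 (hrM j)
    refine (norm_sum_le _ _).trans ((sum_le_sum h3).trans ?_)
    rw [← sum_mul]
    apply mul_le_mul_of_nonneg_right _ (by positivity)
    exact (sum_le_sum_of_subset_of_nonneg (filter_subset _ _) fun _ _ _ => norm_nonneg _).trans h2
  have e4 : ∑ j ∈ S.filter (fun j => r j ∈ spec M I s η), c j * A2 (r j) =
      ∑ t ∈ spec M I s η, (∑ j ∈ S.filter (fun j => r j = t), c j) * A2 t := by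
    rw [← sum_fiberwise_of_maps_to (s := S.filter (fun j => r j ∈ spec M I s η)) (t := spec M I s η) (g := r)
      (fun j hj => (mem_filter.1 hj).2)]
    apply sum_congr rfl
    intro t ht
    rw [filter_filter, sum_mul]
    have : S.filter (fun j => r j ∈ spec M I s η ∧ r j = t) = S.filter (fun j => r j = t) := by
      apply filter_congr
      intro j _
      constructor
      · intro h; exact h.2
      · intro h; rw [h]; exact ⟨ht, rfl⟩
    rw [this]
    apply sum_congr rfl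
    intro j hj
    rw [(mem_filter.1 hj).2]
  have e5 : ∀ t ∈ spec M I s η, ‖∑ j ∈ S.filter (fun j => r j = t), c j‖ ≤ 1 / M * ∑ a ∈ range M, ‖h a‖ := by
    intro t ht
    have htM : t < M := by
      unfold spec at ht
      rw [mem_filter, mem_range] at ht
      exact ht.1
    have h3 : ∑ a ∈ range M, h a * ee ((a : ℝ) * (((-(t : ℤ) : ℤ) : ℝ) / M)) = (M : ℂ) * ∑ j ∈ S.filter (fun j => r j = t), c j := by
      have h4 : ∀ a ∈ range M, h a * ee ((a : ℝ) * (((-(t : ℤ) : ℤ) : ℝ) / M)) =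
          ∑ j ∈ S, c j * ee ((a : ℝ) * (((τ j - t : ℤ) : ℝ) / M)) := by
        intro a _
        rw [h1, sum_mul]
        apply sum_congr rfl
        intro j _
        rw [mul_assoc, ← ee_add]
        congr 2
        push_cast
        ring
      rw [sum_congr rfl h4, sum_comm, mul_sum, sum_filter]
      apply sum_congr rfl
      intro j _
      rw [← mul_sum, orth M hM]
      by_cases hj : r j = t
      · rw [if_pos hj, if_pos (by rw [← hj]; exact hrd j)]
        ring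
      · rw [if_neg hj, if_neg, mul_zero]
        intro hd
        apply hj
        have h5 : (M : ℤ) ∣ (r j : ℤ) - t := by
          have := dvd_sub hd (hrd j)
          have e : τ j - (t : ℤ) - (τ j - (r j : ℤ)) = (r j : ℤ) - t := by ring
          rwa [e] at this
        have h6 : |(r j : ℤ) - t| < M := by
          have := hrM j
          rw [abs_lt]
          constructor <;> omega
        have := Int.eq_zero_of_abs_lt_dvd h5 h6
        omega
    have h4 : (M : ℝ) * ‖∑ j ∈ S.filter (fun j => r j = t), c j‖ ≤ ∑ a ∈ range M, ‖h a‖ := by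
      have h5 : (M : ℝ) * ‖∑ j ∈ S.filter (fun j => r j = t), c j‖ = ‖(M : ℂ) * ∑ j ∈ S.filter (fun j => r j = t), c j‖ := by
        rw [norm_mul, Complex.norm_natCast]
      rw [h5, ← h3]
      refine (norm_sum_le _ _).trans (sum_le_sum fun a _ => ?_)
      rw [norm_mul, norm_ee, mul_one]
    rw [one_div, inv_mul_eq_div, le_div_iff₀ hM0]
    linarith
  have e6 : ‖∑ t ∈ spec M I s η, (∑ j ∈ S.filter (fun j => r j = t), c j) * A2 t‖ ≤
      (spec M I s η).card * ((1 / M * ∑ a ∈ range M, ‖h a‖) * (I.card : ℝ) ^ 2) := by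
    refine (norm_sum_le _ _).trans ?_
    rw [← nsmul_eq_mul]
    apply sum_le_card_nsmul
    intro t ht
    rw [norm_mul, hA2n]
    exact mul_le_mul (e5 t ht) (pow_le_pow_left₀ (norm_nonneg _) (hA1 t) 2) (by positivity) (by positivity)
  rw [e1, e2, e4]
  refine (norm_add_le _ _).trans ((add_le_add e6 e3).trans (le_of_eq ?_))
  field_simp

/-- the number of the representations `m = q k` modulo `M` -/
noncomputable def hc (M κ Q Q' : ℕ) (m : ℤ) : ℝ := ∑ k ∈ Ks κ, ∑ q ∈ Ico Q Q', if (M : ℤ) ∣ m - q * k then (1 : ℝ) else 0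

lemma hc_nonneg (M κ Q Q' : ℕ) (m : ℤ) : 0 ≤ hc M κ Q Q' m :=
  sum_nonneg fun _ _ => sum_nonneg fun _ _ => by split_ifs <;> norm_num

lemma hc_Wn (M κ Q Q' : ℕ) (hM : 1 ≤ M) (hQ : Q ≤ Q') (hκ : (κ : ℝ) * ((Q' : ℝ) - Q) ≤ M) :
    Wn M ((2 * κ) * (84 * (1 + Real.log M))) (fun m => ((hc M κ Q Q' m : ℝ) : ℂ)) := by
  classical
  have hM0 : (0 : ℝ) < M := by exact_mod_cast hM
  have hM0' : (M : ℂ) ≠ 0 := by
    have : M ≠ 0 := by omega
    exact_mod_cast this
  have hlogM : 0 ≤ Real.log M := Real.log_nonneg (by exact_mod_cast hM)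
  have hQQ : (0 : ℝ) ≤ (Q' : ℝ) - Q := by
    have : (Q : ℝ) ≤ Q' := by exact_mod_cast hQ
    linarith
  have hone : ∀ k ∈ Ks κ, Wn M (84 * (1 + Real.log M)) (fun m => ((∑ q ∈ Ico Q Q', if (M : ℤ) ∣ m - q * k then (1 : ℝ) else 0 : ℝ) : ℂ)) := by
    intro k hk
    rw [mem_Ks] at hk
    obtain ⟨D, hD⟩ : ∃ D : ℤ → ℂ, D = fun v : ℤ => ∑ q ∈ Ico Q Q', ee ((q : ℝ) * ((v : ℝ) / M)) := ⟨_, rfl⟩
    refine ⟨ℕ, range M, fun s => 1 / M * D (0 + (-k) * s), fun s => (s : ℤ), fun m => ?_, ?_⟩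
    · show ((∑ q ∈ Ico Q Q', if (M : ℤ) ∣ m - q * k then (1 : ℝ) else 0 : ℝ) : ℂ) = _
      have h1 : ∀ s ∈ range M, 1 / (M : ℂ) * D (0 + (-k) * s) * ee (((s : ℤ) : ℝ) * ((m : ℝ) / M)) =
          ∑ q ∈ Ico Q Q', 1 / (M : ℂ) * ee ((s : ℝ) * (((m - q * k : ℤ) : ℝ) / M)) := by
        intro s _
        rw [hD]
        dsimp only
        rw [mul_assoc, sum_mul, mul_sum]
        apply sum_congr rfl
        intro q _
        rw [← ee_add]
        congr 2
        push_cast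
        ring
      rw [sum_congr rfl h1, sum_comm]
      push_cast
      apply sum_congr rfl
      intro q _
      rw [← mul_sum]
      have := orth M hM (m - q * k)
      push_cast at this
      rw [this]
      split_ifs
      · rw [one_div_mul_cancel hM0']
        simp
      · simp
    · have h1 := sum_ker M hM Q Q' hQ (-k) (by omega) 0
      have h2 : ∑ s ∈ range M, ‖1 / (M : ℂ) * D (0 + (-k) * s)‖ = 1 / M * ∑ s ∈ range M, ‖D (0 + (-k) * s)‖ := by
        rw [mul_sum]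
        apply sum_congr rfl
        intro s _
        rw [norm_mul, norm_div, norm_one, Complex.norm_natCast]
      rw [h2, hD, one_div, inv_mul_le_iff₀ hM0]
      refine h1.trans ?_
      have h3 : ((|-k| : ℤ) : ℝ) ≤ κ := by
        rw [abs_neg]
        have : |k| ≤ (κ : ℤ) := abs_le.2 hk.2
        exact_mod_cast this
      have h4 : ((|-k| : ℤ) : ℝ) * ((Q' : ℝ) - Q) ≤ M := (mul_le_mul_of_nonneg_right h3 hQQ).trans hκ
      have h5 : (0 : ℝ) ≤ M * Real.log M := by positivity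
      nlinarith
  have h1 := Wn.sum (Ks κ) (fun _ => 84 * (1 + Real.log M)) _ hone
  rw [sum_const, nsmul_eq_mul, Ks_card] at h1
  have h2 := h1.congr (h' := fun m => ((hc M κ Q Q' m : ℝ) : ℂ)) (fun m => by unfold hc; push_cast; rfl)
  apply h2.mono
  push_cast
  exact le_rfl

lemma hc_sum (M κ Q Q' : ℕ) (hM : 1 ≤ M) (hQ : Q ≤ Q') : ∑ m ∈ range M, hc M κ Q Q' (m : ℕ) = (2 * κ) * ((Q' : ℝ) - Q) := by
  classical
  unfold hc
  have hMz : (M : ℤ) ≠ 0 := by omega
  rw [sum_comm]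
  have h1 : ∀ k ∈ Ks κ, ∑ m ∈ range M, ∑ q ∈ Ico Q Q', (if (M : ℤ) ∣ ((m : ℕ) : ℤ) - q * k then (1 : ℝ) else 0) = (Q' : ℝ) - Q := by
    intro k _
    rw [sum_comm]
    have h2 : ∀ q ∈ Ico Q Q', ∑ m ∈ range M, (if (M : ℤ) ∣ ((m : ℕ) : ℤ) - q * k then (1 : ℝ) else 0) = 1 := by
      intro q _
      obtain ⟨r, hr⟩ : ∃ r : ℕ, ((r : ℕ) : ℤ) = ((q : ℤ) * k) % M := ⟨_, Int.toNat_of_nonneg (Int.emod_nonneg _ hMz)⟩
      have hrM : r < M := by
        have := Int.emod_lt_of_pos ((q : ℤ) * k) (by omega : (0 : ℤ) < M)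
        omega
      rw [sum_eq_single r]
      · rw [if_pos]
        rw [hr]
        have := @Int.dvd_self_sub_emod ((q : ℤ) * k) (M : ℤ)
        rw [← Int.dvd_neg]
        have e : -(((q : ℤ) * k) % M - q * k) = q * k - ((q : ℤ) * k) % M := by ring
        rw [e]
        exact this
      · intro m hm hne
        rw [if_neg]
        intro hd
        apply hne
        rw [mem_range] at hm
        have h3 : (M : ℤ) ∣ (m : ℤ) - r := by
          rw [hr]
          have h4 := @Int.dvd_self_sub_emod ((q : ℤ) * k) (M : ℤ)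
          have := dvd_add hd h4
          have e : (m : ℤ) - q * k + (q * k - ((q : ℤ) * k) % M) = m - ((q : ℤ) * k) % M := by ring
          rwa [e] at this
        have h4 : |(m : ℤ) - r| < M := by
          rw [abs_lt]
          constructor <;> omega
        have := Int.eq_zero_of_abs_lt_dvd h3 h4
        omega
      · intro h
        exact absurd (mem_range.2 hrM) h
    rw [sum_congr rfl h2, sum_const, Nat.card_Ico, nsmul_eq_mul, mul_one, Nat.cast_sub hQ]
  rw [sum_congr rfl h1, sum_const, Ks_card, nsmul_eq_mul]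
  push_cast
  rfl

lemma hc_ge (M N Q Q' : ℕ) (hQ : 1 ≤ Q) (d : ℤ) (hd : d ≠ 0) (hdN : |d| < N) :
    (((Ico Q Q').filter (fun q : ℕ => (q : ℤ) ∣ d)).card : ℝ) ≤ hc M (N / Q) Q Q' d := by
  classical
  unfold hc
  rw [sum_comm]
  have h1 : (((Ico Q Q').filter (fun q : ℕ => (q : ℤ) ∣ d)).card : ℝ) = ∑ q ∈ Ico Q Q', if (q : ℤ) ∣ d then (1 : ℝ) else 0 := by
    rw [← sum_filter, sum_const, nsmul_eq_mul, mul_one]
  rw [h1]
  apply sum_le_sum
  intro q hq
  rw [mem_Ico] at hq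
  split_ifs with h
  · obtain ⟨k, hk⟩ := h
    have hkK : k ∈ Ks (N / Q) := by
      rw [mem_Ks]
      have hk0 : k ≠ 0 := by
        rintro rfl
        apply hd
        rw [hk, mul_zero]
      have h4 : (Q : ℤ) * |k| < N := by
        have h5 : |d| = q * |k| := by rw [hk, abs_mul, abs_of_nonneg (by omega : (0 : ℤ) ≤ q)]
        have h6 : (Q : ℤ) * |k| ≤ q * |k| := mul_le_mul_of_nonneg_right (by omega) (abs_nonneg _)
        omega
      have h7 : k.natAbs ≤ N / Q := by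
        rw [Nat.le_div_iff_mul_le (by omega)]
        have h8 : (Q : ℤ) * (k.natAbs : ℤ) < N := by rw [← Int.abs_eq_natAbs]; exact h4
        have h9 : Q * k.natAbs < N := by exact_mod_cast h8
        rw [mul_comm]
        omega
      have h6 : |k| ≤ ((N / Q : ℕ) : ℤ) := by
        rw [Int.abs_eq_natAbs]
        exact_mod_cast h7
      have := abs_le.1 h6
      exact ⟨hk0, this.1, this.2⟩
    have h2 : (1 : ℝ) = if (M : ℤ) ∣ d - q * k then (1 : ℝ) else 0 := by
      rw [if_pos]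
      rw [hk, sub_self]
      exact dvd_zero _
    exact le_trans (le_of_eq h2) (single_le_sum (f := fun k : ℤ => if (M : ℤ) ∣ d - q * k then (1 : ℝ) else 0)
      (fun _ _ => by positivity) hkK)
  · exact sum_nonneg fun _ _ => by split_ifs <;> norm_num

/-- the pairs of members of the family in `[1, N]` which are congruent modulo `q`, summed over the block -/
theorem coll {ι : Type*} [DecidableEq ι] (I : Finset ι) (s : ι → ℤ) (M N Q Q' : ℕ) (hM : 1 ≤ M) (hN : N ≤ M) (hQ : 1 ≤ Q) (hQQ : Q ≤ Q')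
    (hQ2 : Q' ≤ 2 * Q) (η : ℝ) (hη : 0 ≤ η) :
    ∑ q ∈ Ico Q Q', ((((I.filter (fun i => 1 ≤ s i ∧ s i ≤ N)) ×ˢ (I.filter (fun i => 1 ≤ s i ∧ s i ≤ N))).filter
      (fun p => (q : ℤ) ∣ s p.1 - s p.2)).card : ℝ) ≤
      Q * (((I ×ˢ I).filter (fun p => s p.1 = s p.2)).card : ℝ) +
        (I.card : ℝ) ^ 2 * (((spec M I s η).card : ℝ) / M * (2 * N) + η ^ 2 * ((2 * (N / Q : ℕ)) * (84 * (1 + Real.log M)))) := by
  classical
  obtain ⟨I1, hI1⟩ : ∃ I1, I1 = I.filter (fun i => 1 ≤ s i ∧ s i ≤ N) := ⟨_, rfl⟩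
  rw [← hI1]
  have hI1I : I1 ⊆ I := by rw [hI1]; exact filter_subset _ _
  have hκQ : ((N / Q : ℕ) : ℝ) * ((Q' : ℝ) - Q) ≤ N := by
    have h1 : (N / Q) * Q ≤ N := Nat.div_mul_le_self N Q
    have h2 : ((N / Q : ℕ) : ℝ) * Q ≤ N := by exact_mod_cast h1
    have h3 : (Q' : ℝ) - Q ≤ Q := by
      have : (Q' : ℝ) ≤ 2 * Q := by exact_mod_cast hQ2
      linarith
    exact (mul_le_mul_of_nonneg_left h3 (Nat.cast_nonneg _)).trans h2
  have hNM : (N : ℝ) ≤ M := by exact_mod_cast hN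
  have htr := transfer2 I s M hM η _ hη _ (hc_Wn M (N / Q) Q Q' hM hQQ (hκQ.trans hNM))
  have hsum : ∑ a ∈ range M, ‖((hc M (N / Q) Q Q' (a : ℕ) : ℝ) : ℂ)‖ ≤ 2 * N := by
    have h1 : ∀ a ∈ range M, ‖((hc M (N / Q) Q Q' (a : ℕ) : ℝ) : ℂ)‖ = hc M (N / Q) Q Q' (a : ℕ) := by
      intro a _
      rw [Complex.norm_real, Real.norm_of_nonneg (hc_nonneg _ _ _ _ _)]
    rw [sum_congr rfl h1, hc_sum M (N / Q) Q Q' hM hQQ]
    linarith
  have hnorm : ‖∑ i ∈ I, ∑ i' ∈ I, ((hc M (N / Q) Q Q' (s i - s i') : ℝ) : ℂ)‖ = ∑ i ∈ I, ∑ i' ∈ I, hc M (N / Q) Q Q' (s i - s i') := by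
    have : ∑ i ∈ I, ∑ i' ∈ I, ((hc M (N / Q) Q Q' (s i - s i') : ℝ) : ℂ) = ((∑ i ∈ I, ∑ i' ∈ I, hc M (N / Q) Q Q' (s i - s i') : ℝ) : ℂ) := by
      push_cast
      rfl
    rw [this, Complex.norm_real, Real.norm_of_nonneg]
    exact sum_nonneg fun _ _ => sum_nonneg fun _ _ => hc_nonneg _ _ _ _ _
  rw [hnorm] at htr
  have hmain : ∑ q ∈ Ico Q Q', (((I1 ×ˢ I1).filter (fun p => (q : ℤ) ∣ s p.1 - s p.2)).card : ℝ) ≤
      Q * (((I ×ˢ I).filter (fun p => s p.1 = s p.2)).card : ℝ) + ∑ i ∈ I, ∑ i' ∈ I, hc M (N / Q) Q Q' (s i - s i') := by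
    have h1 : ∀ q ∈ Ico Q Q', (((I1 ×ˢ I1).filter (fun p => (q : ℤ) ∣ s p.1 - s p.2)).card : ℝ) =
        ∑ p ∈ I1 ×ˢ I1, if (q : ℤ) ∣ s p.1 - s p.2 then (1 : ℝ) else 0 := by
      intro q _
      rw [← sum_filter, sum_const, nsmul_eq_mul, mul_one]
    rw [sum_congr rfl h1, sum_comm]
    have h2 : ∀ p ∈ I1 ×ˢ I1, ∑ q ∈ Ico Q Q', (if (q : ℤ) ∣ s p.1 - s p.2 then (1 : ℝ) else 0) ≤
        (if s p.1 = s p.2 then (Q : ℝ) else 0) + hc M (N / Q) Q Q' (s p.1 - s p.2) := by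
      intro p hp
      rw [mem_product, hI1, mem_filter, mem_filter] at hp
      have hc0 := hc_nonneg M (N / Q) Q Q' (s p.1 - s p.2)
      have hle : ∑ q ∈ Ico Q Q', (if (q : ℤ) ∣ s p.1 - s p.2 then (1 : ℝ) else 0) = (((Ico Q Q').filter (fun q : ℕ => (q : ℤ) ∣ s p.1 - s p.2)).card : ℝ) := by
        rw [← sum_filter, sum_const, nsmul_eq_mul, mul_one]
      rw [hle]
      split_ifs with h
      · have h3 : (((Ico Q Q').filter (fun q : ℕ => (q : ℤ) ∣ s p.1 - s p.2)).card : ℝ) ≤ Q := by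
          have h4 := card_filter_le (Ico Q Q') (fun q : ℕ => (q : ℤ) ∣ s p.1 - s p.2)
          rw [Nat.card_Ico] at h4
          have : ((Ico Q Q').filter (fun q : ℕ => (q : ℤ) ∣ s p.1 - s p.2)).card ≤ Q := by omega
          exact_mod_cast this
        linarith
      · rw [zero_add]
        apply hc_ge M N Q Q' hQ
        · intro h0
          apply h
          omega
        · rw [abs_lt]
          constructor <;> omega
    refine (sum_le_sum h2).trans ?_
    rw [sum_add_distrib]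
    apply add_le_add
    · rw [← sum_filter, sum_const, nsmul_eq_mul, mul_comm]
      apply mul_le_mul_of_nonneg_left _ (Nat.cast_nonneg _)
      apply Nat.cast_le.2
      apply card_le_card
      exact filter_subset_filter _ (product_subset_product hI1I hI1I)
    · rw [← sum_product' I I (fun i i' => hc M (N / Q) Q Q' (s i - s i'))]
      apply sum_le_sum_of_subset_of_nonneg (product_subset_product hI1I hI1I)
      intro _ _ _
      exact hc_nonneg _ _ _ _ _
  refine hmain.trans ?_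
  apply add_le_add le_rfl
  refine htr.trans ?_
  apply mul_le_mul_of_nonneg_left _ (by positivity)
  apply add_le_add _ le_rfl
  exact mul_le_mul_of_nonneg_left hsum (by positivity)

end Pool.Agent.K1H51.TM
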