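import Mathlib
import Pool.Agent.K1H51.TM.Col

set_option autoImplicit false

/-! The small moduli: the classes with many members of the family. -/

namespace Pool.Agent.K1H51.TM

open Finset Pool.Agent.H373R2.T7
open Pool.Agent.H807R2.Dav
open H343E (psiAP psi1 unsmoothed psiAP_le psi1_le card_mod psiAP_nonneg psi1_nonneg Fam)
open Pool.Agent.K1H51.LP (spec)

theorem bdhF (U W : ℕ) : ∃ B1 N0 : ℕ, ∀ N : ℕ, N0 ≤ N → ∀ y : ℕ, (N : ℝ) ≤ y * Real.log N ^ W → y ≤ N → ∀ A0 : ℝ, 1 ≤ A0 →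
    ∀ D : ℕ, (D : ℝ) * Real.log N ^ B1 ≤ N → (D : ℝ) ^ 2 * Real.log N ^ B1 ≤ A0 * N → ∀ Ls : ℕ → Finset ℕ, Fam A0 Ls →
    ∑ q ∈ Icc 1 D, ∑ a ∈ Ls q, |psiAP y q a - psi1 y / (Nat.totient q : ℝ)| ≤ A0 * N / Real.log N ^ U := by
  classical
  obtain ⟨B, X0, h⟩ := unsmoothed (U + 1)
  obtain ⟨n1, h1⟩ := ev_L' (2 ^ (U + 1))
  obtain ⟨n2, h2⟩ := ev_log' W 1
  obtain ⟨n3, h3⟩ := ev_log' 0 (max X0 1)
  refine ⟨B + W, n1 + n2 + n3 + 4, fun N hN y hy1 hy2 A0 hA0 D hD2 hD3 Ls hfam => ?_⟩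
  have h1 := h1 N (by omega)
  have h2 := h2 N (by omega)
  have h3 := h3 N (by omega)
  obtain ⟨L, hL⟩ : ∃ L, L = Real.log (N : ℝ) := ⟨_, rfl⟩
  rw [← hL] at h1 h2 h3 hy1 hD2 hD3 ⊢
  have h2U : (1 : ℝ) ≤ 2 ^ (U + 1) := one_le_pow₀ (by norm_num)
  have hL1 : 1 ≤ L := h2U.trans h1
  have hL0 : 0 < L := by linarith
  have hN4 : (4 : ℝ) ≤ N := by exact_mod_cast (by omega : 4 ≤ N)
  have hN0 : (0 : ℝ) < N := by linarith
  have hsN : (0 : ℝ) < √(N : ℝ) := Real.sqrt_pos.2 hN0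
  have hsN2 : √(N : ℝ) * √(N : ℝ) = N := Real.mul_self_sqrt hN0.le
  have hys : √(N : ℝ) ≤ y := by
    rw [one_mul] at h2
    have h4 : √(N : ℝ) * √(N : ℝ) ≤ y * √(N : ℝ) := by
      rw [hsN2]
      exact hy1.trans (mul_le_mul_of_nonneg_left h2 (Nat.cast_nonneg _))
    exact le_of_mul_le_mul_right h4 hsN
  have hX0 : X0 ≤ y := by
    rw [pow_zero, mul_one] at h3
    exact (le_max_left X0 1).trans (h3.trans hys)
  have hy0 : (0 : ℝ) < y := lt_of_lt_of_le hsN hys
  have hyN : (y : ℝ) ≤ N := by exact_mod_cast hy2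
  have hly1 : Real.log y ≤ L := by rw [hL]; exact Real.log_le_log hy0 hyN
  have hly2 : L / 2 ≤ Real.log y := by
    have h4 := Real.log_le_log hsN hys
    rw [Real.log_sqrt hN0.le, ← hL] at h4
    exact h4
  have hly0 : 0 < Real.log y := by linarith
  have hA00 : 0 < A0 := by linarith
  have hDy : (D : ℝ) * L ^ B ≤ y := by
    rw [pow_add, ← mul_assoc] at hD2
    exact le_of_mul_le_mul_right (hD2.trans hy1) (by positivity)
  have hDy3 : (D : ℝ) ^ 2 * L ^ B ≤ A0 * y := by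
    rw [pow_add, ← mul_assoc] at hD3
    apply le_of_mul_le_mul_right (hD3.trans _) (by positivity : 0 < L ^ W)
    rw [mul_assoc]
    exact mul_le_mul_of_nonneg_left hy1 hA00.le
  have hDy2 : (D : ℝ) ≤ y / Real.log y ^ B := by
    rw [le_div_iff₀ (by positivity)]
    refine le_trans ?_ hDy
    exact mul_le_mul_of_nonneg_left (pow_le_pow_left₀ hly0.le hly1 B) (Nat.cast_nonneg _)
  have hDy4 : (D : ℝ) ^ 2 ≤ A0 * y / Real.log y ^ B := by
    rw [le_div_iff₀ (by positivity)]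
    refine le_trans ?_ hDy3
    exact mul_le_mul_of_nonneg_left (pow_le_pow_left₀ hly0.le hly1 B) (by positivity)
  have key := h y hX0 A0 hA0 D hDy2 hDy4 Ls hfam
  refine key.trans ?_
  have h5 : (L / 2) ^ (U + 1) ≤ Real.log y ^ (U + 1) := pow_le_pow_left₀ (by linarith) hly2 _
  have h6 : L ^ U ≤ Real.log y ^ (U + 1) := by
    refine le_trans ?_ h5
    rw [div_pow, pow_succ, le_div_iff₀ (by positivity)]
    exact mul_le_mul_of_nonneg_left h1 (by positivity)
  apply div_le_div₀ (by positivity) (mul_le_mul_of_nonneg_left hyN (by linarith)) (by positivity) h6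

/-- splitting according to the number of the members in a class -/
lemma split_le {ι : Type*} (I1 : Finset ι) (r : ι → ℕ) (q : ℕ) (f : ℕ → ℝ) (hf : ∀ b, 0 ≤ f b) (Dm : ℝ)
    (hD : ∀ b, f b ≤ Dm) (lam : ℕ) (hlam : 1 ≤ lam) (hr : ∀ i ∈ I1, r i < q) :
    ∑ i ∈ I1, f (r i) ≤ ∑ t ∈ Icc 1 lam, ∑ b ∈ (range q).filter (fun b => t ≤ (I1.filter (fun i => r i = b)).card), f b +
      Dm / lam * (((I1 ×ˢ I1).filter (fun p => r p.1 = r p.2)).card : ℝ) := by
  classical
  have hlam0 : (0 : ℝ) < lam := by exact_mod_cast hlam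
  have hmap : ∀ i ∈ I1, r i ∈ range q := fun i hi => mem_range.2 (hr i hi)
  have h1 : ∑ i ∈ I1, f (r i) = ∑ b ∈ range q, ((I1.filter (fun i => r i = b)).card : ℝ) * f b := by
    rw [← sum_fiberwise_of_maps_to hmap]
    apply sum_congr rfl
    intro b _
    rw [← nsmul_eq_mul, ← sum_const]
    apply sum_congr rfl
    intro i hi
    rw [(mem_filter.1 hi).2]
  have h2 : (((I1 ×ˢ I1).filter (fun p => r p.1 = r p.2)).card : ℝ) = ∑ b ∈ range q, ((I1.filter (fun i => r i = b)).card : ℝ) ^ 2 := by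
    have h3 : ((I1 ×ˢ I1).filter (fun p => r p.1 = r p.2)).card = ∑ b ∈ range q, (I1.filter (fun i => r i = b)).card ^ 2 := by
      rw [card_eq_sum_card_fiberwise (f := fun p : ι × ι => r p.1) (t := range q)]
      · apply sum_congr rfl
        intro b _
        rw [sq, ← card_product]
        congr 1
        ext ⟨i, j⟩
        simp only [mem_filter, mem_product]
        constructor
        · rintro ⟨⟨⟨a1, a2⟩, a3⟩, a4⟩
          exact ⟨⟨a1, a4⟩, a2, by rw [← a3]; exact a4⟩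
        · rintro ⟨⟨a1, a2⟩, a3, a4⟩
          exact ⟨⟨⟨a1, a3⟩, by rw [a2, a4]⟩, a2⟩
      · intro p hp
        rw [mem_coe, mem_filter, mem_product] at hp
        exact hmap p.1 hp.1.1
    rw [h3]
    push_cast
    rfl
  have h4 : ∑ t ∈ Icc 1 lam, ∑ b ∈ (range q).filter (fun b => t ≤ (I1.filter (fun i => r i = b)).card), f b =
      ∑ b ∈ range q, ((((Icc 1 lam).filter (fun t => t ≤ (I1.filter (fun i => r i = b)).card)).card : ℕ) : ℝ) * f b := by
    have h5 : ∀ t ∈ Icc 1 lam, ∑ b ∈ (range q).filter (fun b => t ≤ (I1.filter (fun i => r i = b)).card), f b =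
        ∑ b ∈ range q, if t ≤ (I1.filter (fun i => r i = b)).card then f b else 0 := by
      intro t _
      rw [sum_filter]
    rw [sum_congr rfl h5, sum_comm]
    apply sum_congr rfl
    intro b _
    rw [← sum_filter, sum_const, nsmul_eq_mul]
  rw [h1, h2, h4, mul_sum, ← sum_add_distrib]
  apply sum_le_sum
  intro b _
  obtain ⟨c, hc⟩ : ∃ c, c = (I1.filter (fun i => r i = b)).card := ⟨_, rfl⟩
  rw [← hc]
  have hDm : 0 ≤ Dm := (hf b).trans (hD b)
  rcases le_or_gt c lam with h | h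
  · have h5 : (Icc 1 lam).filter (fun t => t ≤ c) = Icc 1 c := by
      ext t
      rw [mem_filter, mem_Icc, mem_Icc]
      omega
    rw [h5, Nat.card_Icc, Nat.add_sub_cancel]
    have : 0 ≤ Dm / lam * (c : ℝ) ^ 2 := by positivity
    linarith
  · have h5 : (0 : ℝ) ≤ ((((Icc 1 lam).filter (fun t => t ≤ c)).card : ℕ) : ℝ) * f b := mul_nonneg (Nat.cast_nonneg _) (hf b)
    have h6 : (c : ℝ) * f b ≤ Dm / lam * (c : ℝ) ^ 2 := by
      have h7 : (lam : ℝ) ≤ c := by exact_mod_cast h.le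
      have h8 : (c : ℝ) * f b ≤ c * Dm := mul_le_mul_of_nonneg_left (hD b) (Nat.cast_nonneg _)
      refine h8.trans ?_
      rw [div_mul_eq_mul_div, le_div_iff₀ hlam0]
      calc (c : ℝ) * Dm * lam ≤ c * Dm * c := mul_le_mul_of_nonneg_left h7 (by positivity)
        _ = Dm * c ^ 2 := by ring
    linarith

/-- the trivial bound -/
lemma Dl_le (N y q Q a : ℕ) (hQ : 1 ≤ Q) (hq : Q ≤ q) (hqN : q ≤ N) (hyN : y ≤ N) (hL : 1 ≤ Real.log N) :
    |Dl y q a| ≤ 6 * N * Real.log N ^ 2 / Q := by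
  have h1 := ww_le N y q Q hQ hq hqN hyN hL
  have h2 := psiAP_le y q a (by omega)
  have h3 := psiAP_nonneg y q a
  have hN1 : 1 ≤ N := by omega
  have hN0 : (0 : ℝ) < N := by exact_mod_cast hN1
  have hQ0 : (0 : ℝ) < Q := by exact_mod_cast hQ
  have hq0 : (0 : ℝ) < q := by
    have : 0 < q := by omega
    exact_mod_cast this
  have hQq : (Q : ℝ) ≤ q := by exact_mod_cast hq
  have hqN' : (q : ℝ) ≤ N := by exact_mod_cast hqN
  have h4 : Real.log y ≤ Real.log N := by
    rcases Nat.eq_zero_or_pos y with h | h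
    · rw [h]; simp; linarith
    · exact Real.log_le_log (by exact_mod_cast h) (by exact_mod_cast hyN)
  have h5 : (y : ℝ) / q + 1 ≤ 2 * (N / Q) := by
    have h6 : (y : ℝ) / q ≤ N / Q := div_le_div₀ hN0.le (by exact_mod_cast hyN) hQ0 hQq
    have h7 : (1 : ℝ) ≤ N / Q := by
      rw [le_div_iff₀ hQ0]
      linarith
    linarith
  have h6 : psiAP y q a ≤ 2 * N * Real.log N ^ 2 / Q := by
    refine h2.trans ?_
    calc ((y : ℝ) / q + 1) * Real.log y ≤ (2 * (N / Q)) * Real.log N :=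
          mul_le_mul h5 h4 (Real.log_natCast_nonneg y) (by positivity)
      _ ≤ (2 * (N / Q)) * Real.log N ^ 2 := by
          apply mul_le_mul_of_nonneg_left _ (by positivity)
          exact le_self_pow₀ hL (by norm_num)
      _ = _ := by ring
  have h7 : (0 : ℝ) ≤ N * Real.log N ^ 2 / Q := by positivity
  have e1 : 6 * (N : ℝ) * Real.log N ^ 2 / Q = 6 * (N * Real.log N ^ 2 / Q) := by ring
  have e2 : 4 * (N : ℝ) * Real.log N ^ 2 / Q = 4 * (N * Real.log N ^ 2 / Q) := by ring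
  have e3 : 2 * (N : ℝ) * Real.log N ^ 2 / Q = 2 * (N * Real.log N ^ 2 / Q) := by ring
  rw [e2] at h1
  rw [e3] at h6
  unfold Dl
  rw [e1, abs_le]
  constructor <;> linarith

lemma Dl_mod (y q a : ℕ) : Dl y q a = Dl y q (a % q) := by
  unfold Dl psiAP
  congr 1
  apply sum_congr _ fun _ _ => rfl
  apply filter_congr
  intro n _
  unfold Nat.ModEq
  rw [Nat.mod_mod]

set_option maxHeartbeats 4000000 in
theorem low (E K W : ℕ) : ∃ K1 N0 : ℕ, ∀ N : ℕ, N0 ≤ N → ∀ M : ℕ, N ≤ M → M ≤ N ^ 2 →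
    ∀ {ι : Type} [DecidableEq ι] (I : Finset ι) (s : ι → ℤ) (η : ℝ), 0 ≤ η →
    ((spec M I s η).card : ℝ) * N ≤ Real.log N ^ K * M →
    (((I ×ˢ I).filter (fun p => s p.1 = s p.2)).card : ℝ) ≤ Real.log N ^ K * I.card → I.card ≤ N ^ 2 →
    η ^ 2 * Real.log N ^ K1 ≤ 1 →
    ∀ y : ℕ, (N : ℝ) ≤ y * Real.log N ^ W → y ≤ N → ∀ Q : ℕ, 1 ≤ Q → (Q : ℝ) * Real.log N ^ K1 ≤ N →
    (Q : ℝ) ^ 2 * Real.log N ^ K1 ≤ I.card * N →
    ∑ i ∈ I.filter (fun i => 1 ≤ s i ∧ s i ≤ N), ∑ q ∈ (Ico Q (2 * Q)).filter (fun q => (s i).toNat.Coprime q),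
      |Dl y q (s i).toNat| ≤ I.card * N / Real.log N ^ E := by
  obtain ⟨B1, n0, h0⟩ := bdhF (E + 2) W
  obtain ⟨n1, h1⟩ := ev_L' 400
  refine ⟨B1 + E + K + 6, n0 + n1 + 4, fun N hN M hM1 hM2 ι _ I s η hη hspec hmult hI hη2 y hy1 hy2 Q hQ1 hQ2 hQ3 => ?_⟩
  have h0 := h0 N (by omega) y hy1 hy2
  have h1 := h1 N (by omega)
  obtain ⟨L, hL⟩ : ∃ L, L = Real.log (N : ℝ) := ⟨_, rfl⟩
  rw [← hL] at h0 h1 hspec hmult hη2 hy1 hQ2 hQ3 ⊢
  have hL0 : 0 < L := by linarith
  have hL1 : 1 ≤ L := by linarith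
  have hL1' : 1 ≤ Real.log N := by rw [← hL]; exact hL1
  have hNpos : 0 < N := by omega
  have hN0 : (0 : ℝ) < N := by exact_mod_cast hNpos
  have hQ0 : (0 : ℝ) < Q := by exact_mod_cast hQ1
  have hM0 : (0 : ℝ) < M := by
    have : 0 < M := by omega
    exact_mod_cast this
  have hI0 : (0 : ℝ) < I.card := by
    by_contra hcon
    push Not at hcon
    have h2 : (0 : ℝ) < (Q : ℝ) ^ 2 * L ^ (B1 + E + K + 6) := by positivity
    have h3 : (I.card : ℝ) * N ≤ 0 := mul_nonpos_of_nonpos_of_nonneg hcon hN0.le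
    linarith
  have hI1c : 1 ≤ I.card := by
    have : (0 : ℝ) < I.card := hI0
    exact_mod_cast this
  obtain ⟨n, hn⟩ : ∃ n : ℝ, n = I.card := ⟨_, rfl⟩
  obtain ⟨x, hx⟩ : ∃ x : ℝ, x = 12 * L ^ (E + 2) * (L ^ K + 504 * n * η ^ 2 * L * N / Q ^ 2 + 2 * n * L ^ K / Q) := ⟨_, rfl⟩
  have hn0 : 0 < n := by rw [hn]; exact hI0
  have hx1 : 1 ≤ x := by
    have a1 : 1 ≤ L ^ (E + 2) := one_le_pow₀ hL1
    have a2 : 1 ≤ L ^ K := one_le_pow₀ hL1
    have a3 : 0 ≤ 504 * n * η ^ 2 * L * N / Q ^ 2 := by positivity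
    have a4 : 0 ≤ 2 * n * L ^ K / Q := by positivity
    rw [hx]
    nlinarith
  obtain ⟨lam, hlam⟩ : ∃ lam, lam = ⌈x⌉₊ := ⟨_, rfl⟩
  have hlam1 : x ≤ lam := by rw [hlam]; exact Nat.le_ceil x
  have hlam2 : (lam : ℝ) ≤ 2 * x := by
    have := Nat.ceil_lt_add_one (a := x) (by linarith)
    rw [← hlam] at this
    linarith
  have hlamp : 1 ≤ lam := by
    have : (1 : ℝ) ≤ lam := hx1.trans hlam1
    exact_mod_cast this
  have hlam0 : (0 : ℝ) < lam := by exact_mod_cast hlamp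
  -- the condition for the classes
  have halpha : ((2 * Q : ℕ) : ℝ) ^ 2 * L ^ B1 * lam ≤ n * N := by
    have e1 : ((2 * Q : ℕ) : ℝ) ^ 2 * L ^ B1 * (2 * x) = 96 * L ^ (B1 + E + 2 + K) * Q ^ 2 +
        48384 * L ^ (B1 + E + 3) * (η ^ 2) * (n * N) + 192 * L ^ (B1 + E + 2 + K) * Q * n := by
      rw [hx]
      push_cast
      field_simp
      ring
    have e2 : 96 * L ^ (B1 + E + 2 + K) * Q ^ 2 ≤ n * N / 3 := by
      have a1 : 288 * L ^ (B1 + E + 2 + K) ≤ L ^ (B1 + E + K + 6) := by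
        have : L ^ (B1 + E + K + 6) = L ^ 4 * L ^ (B1 + E + 2 + K) := by ring
        rw [this]
        apply mul_le_mul_of_nonneg_right _ (by positivity)
        have : L ≤ L ^ 4 := le_self_pow₀ hL1 (by norm_num)
        linarith
      have a2 := mul_le_mul_of_nonneg_left a1 (by positivity : (0 : ℝ) ≤ (Q : ℝ) ^ 2)
      rw [hn]
      linarith
    have e3 : 48384 * L ^ (B1 + E + 3) * (η ^ 2) * (n * N) ≤ n * N / 3 := by
      have a1 : 3 * 48384 * L ^ (B1 + E + 3) ≤ L ^ (B1 + E + K + 6) := by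
        have : L ^ (B1 + E + K + 6) = L ^ (K + 1) * L ^ 2 * L ^ (B1 + E + 3) := by ring
        rw [this]
        apply mul_le_mul_of_nonneg_right _ (by positivity)
        have a3 : 1 ≤ L ^ (K + 1) := one_le_pow₀ hL1
        have a4 : 160000 ≤ L ^ 2 := by nlinarith
        nlinarith
      have a2 := mul_le_mul_of_nonneg_left a1 (by positivity : (0 : ℝ) ≤ η ^ 2)
      have a3 : η ^ 2 * (3 * 48384 * L ^ (B1 + E + 3)) ≤ 1 := a2.trans hη2
      have a4 := mul_le_mul_of_nonneg_right a3 (by positivity : (0 : ℝ) ≤ n * N)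
      linarith
    have e4 : 192 * L ^ (B1 + E + 2 + K) * Q * n ≤ n * N / 3 := by
      have a1 : 576 * L ^ (B1 + E + 2 + K) ≤ L ^ (B1 + E + K + 6) := by
        have : L ^ (B1 + E + K + 6) = L ^ 4 * L ^ (B1 + E + 2 + K) := by ring
        rw [this]
        apply mul_le_mul_of_nonneg_right _ (by positivity)
        have : L ^ 2 ≤ L ^ 4 := pow_le_pow_right₀ hL1 (by norm_num)
        nlinarith
      have a2 := mul_le_mul_of_nonneg_left a1 hQ0.le
      have a3 := mul_le_mul_of_nonneg_right (a2.trans hQ2) hn0.le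
      linarith
    have e5 : ((2 * Q : ℕ) : ℝ) ^ 2 * L ^ B1 * lam ≤ ((2 * Q : ℕ) : ℝ) ^ 2 * L ^ B1 * (2 * x) :=
      mul_le_mul_of_nonneg_left hlam2 (by positivity)
    rw [e1] at e5
    linarith
  -- the members
  obtain ⟨I1, hI1⟩ : ∃ I1, I1 = I.filter (fun i => 1 ≤ s i ∧ s i ≤ N) := ⟨_, rfl⟩
  rw [← hI1]
  have hI1I : I1 ⊆ I := by rw [hI1]; exact filter_subset _ _
  obtain ⟨Iq, hIq⟩ : ∃ Iq : ℕ → Finset ι, Iq = fun q => I1.filter (fun i => (s i).toNat.Coprime q) := ⟨_, rfl⟩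
  obtain ⟨S, hS⟩ : ∃ S : ℕ → ℕ → Finset ℕ, S = fun t q => (range q).filter (fun b => t ≤ ((Iq q).filter (fun i => (s i).toNat % q = b)).card) := ⟨_, rfl⟩
  have hswap : ∑ i ∈ I1, ∑ q ∈ (Ico Q (2 * Q)).filter (fun q => (s i).toNat.Coprime q), |Dl y q (s i).toNat| =
      ∑ q ∈ Ico Q (2 * Q), ∑ i ∈ Iq q, |Dl y q ((s i).toNat % q)| := by
    have a1 : ∀ i ∈ I1, ∑ q ∈ (Ico Q (2 * Q)).filter (fun q => (s i).toNat.Coprime q), |Dl y q (s i).toNat| =
        ∑ q ∈ Ico Q (2 * Q), if (s i).toNat.Coprime q then |Dl y q (s i).toNat| else 0 := fun i _ => sum_filter _ _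
    rw [sum_congr rfl a1, sum_comm]
    apply sum_congr rfl
    intro q _
    rw [hIq]
    dsimp only
    rw [sum_filter]
    apply sum_congr rfl
    intro i _
    rw [← Dl_mod]
  rw [hswap]
  obtain ⟨Dm, hDm⟩ : ∃ Dm : ℝ, Dm = 6 * N * L ^ 2 / Q := ⟨_, rfl⟩
  have h2QN : 2 * Q ≤ N := by
    have a1 : 2 * (Q : ℝ) ≤ N := by
      refine le_trans ?_ hQ2
      rw [mul_comm]
      apply mul_le_mul_of_nonneg_left _ hQ0.le
      have : L ≤ L ^ (B1 + E + K + 6) := le_self_pow₀ hL1 (by omega)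
      linarith
    exact_mod_cast a1
  have hsplit : ∀ q ∈ Ico Q (2 * Q), ∑ i ∈ Iq q, |Dl y q ((s i).toNat % q)| ≤ ∑ t ∈ Icc 1 lam, ∑ b ∈ S t q, |Dl y q b| +
      Dm / lam * (((I1 ×ˢ I1).filter (fun p => (q : ℤ) ∣ s p.1 - s p.2)).card : ℝ) := by
    intro q hq
    rw [mem_Ico] at hq
    have a1 := split_le (Iq q) (fun i => (s i).toNat % q) q (fun b => |Dl y q b|) (fun _ => abs_nonneg _) Dm (fun b => by
      have := Dl_le N y q Q b hQ1 hq.1 (by omega) hy2 hL1'
      rw [← hL] at this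
      rw [hDm]
      exact this) lam hlamp (fun i _ => Nat.mod_lt _ (by omega))
    refine a1.trans ?_
    rw [hS]
    apply add_le_add le_rfl
    apply mul_le_mul_of_nonneg_left _ (by rw [hDm]; positivity)
    apply Nat.cast_le.2
    apply card_le_card
    intro p hp
    rw [mem_filter, mem_product, hIq] at hp
    dsimp only at hp
    rw [mem_filter, mem_filter] at hp
    obtain ⟨⟨⟨p1, _⟩, p2, _⟩, p3⟩ := hp
    rw [mem_filter, mem_product]
    refine ⟨⟨p1, p2⟩, ?_⟩
    rw [hI1, mem_filter] at p1 p2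
    have b1 : ((s p.1).toNat : ℤ) = s p.1 := Int.toNat_of_nonneg (by omega)
    have b2 : ((s p.2).toNat : ℤ) = s p.2 := Int.toNat_of_nonneg (by omega)
    have b3 : (s p.2).toNat ≡ (s p.1).toNat [MOD q] := p3.symm
    rw [Nat.modEq_iff_dvd] at b3
    rw [b1, b2] at b3
    exact b3
  refine (sum_le_sum hsplit).trans ?_
  rw [sum_add_distrib, ← mul_sum, sum_comm]
  -- the second part
  have hcoll := coll I s M N Q (2 * Q) (by omega) hM1 hQ1 (by omega) le_rfl η hη
  rw [← hI1] at hcoll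
  have hpart2 : Dm / lam * ∑ q ∈ Ico Q (2 * Q), (((I1 ×ˢ I1).filter (fun p => (q : ℤ) ∣ s p.1 - s p.2)).card : ℝ) ≤ n * N / (2 * L ^ E) := by
    have a1 : ((spec M I s η).card : ℝ) / M * (2 * N) ≤ 2 * L ^ K := by
      rw [div_mul_eq_mul_div, div_le_iff₀ hM0]
      linarith
    have a2 : η ^ 2 * ((2 * (N / Q : ℕ)) * (84 * (1 + Real.log M))) ≤ 504 * η ^ 2 * L * N / Q := by
      have b1 : ((N / Q : ℕ) : ℝ) ≤ N / Q := Nat.cast_div_le
      have b2 : Real.log M ≤ 2 * L := by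
        rw [hL]
        have : Real.log ((N : ℝ) ^ 2) = 2 * Real.log N := by rw [Real.log_pow]; norm_num
        rw [← this]
        exact Real.log_le_log hM0 (by exact_mod_cast hM2)
      have b3 : 84 * (1 + Real.log M) ≤ 252 * L := by linarith
      calc η ^ 2 * ((2 * (N / Q : ℕ)) * (84 * (1 + Real.log M))) ≤ η ^ 2 * ((2 * (N / Q)) * (252 * L)) := by gcongr
        _ = _ := by ring
    have a3 : ∑ q ∈ Ico Q (2 * Q), (((I1 ×ˢ I1).filter (fun p => (q : ℤ) ∣ s p.1 - s p.2)).card : ℝ) ≤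
        Q * (L ^ K * n) + n ^ 2 * (2 * L ^ K + 504 * η ^ 2 * L * N / Q) := by
      refine hcoll.trans ?_
      rw [hn]
      apply add_le_add
      · exact mul_le_mul_of_nonneg_left hmult hQ0.le
      · apply mul_le_mul_of_nonneg_left _ (by positivity)
        exact add_le_add a1 a2
    have a4 : Dm * (Q * (L ^ K * n) + n ^ 2 * (2 * L ^ K + 504 * η ^ 2 * L * N / Q)) = n * N / (2 * L ^ E) * x := by
      rw [hDm, hx, pow_add]
      field_simp
      ring
    have a5 : 0 ≤ Dm := by rw [hDm]; positivity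
    calc Dm / lam * ∑ q ∈ Ico Q (2 * Q), (((I1 ×ˢ I1).filter (fun p => (q : ℤ) ∣ s p.1 - s p.2)).card : ℝ) ≤
          Dm / lam * (Q * (L ^ K * n) + n ^ 2 * (2 * L ^ K + 504 * η ^ 2 * L * N / Q)) :=
          mul_le_mul_of_nonneg_left a3 (by positivity)
      _ = (n * N / (2 * L ^ E) * x) / lam := by rw [← a4]; ring
      _ ≤ n * N / (2 * L ^ E) := by
          rw [div_le_iff₀ hlam0]
          exact mul_le_mul_of_nonneg_left hlam1 (by positivity)
  -- the first part
  have hcardS : ∀ t, 1 ≤ t → ∀ q, ((S t q).card : ℝ) * t ≤ n := by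
    intro t _ q
    have a1 : (S t q).card * t ≤ I1.card := by
      have b1 : (S t q).card * t ≤ ∑ b ∈ S t q, ((Iq q).filter (fun i => (s i).toNat % q = b)).card := by
        rw [← smul_eq_mul]
        apply card_nsmul_le_sum
        intro b hb
        rw [hS] at hb
        exact (mem_filter.1 hb).2
      have b2 : ∑ b ∈ S t q, ((Iq q).filter (fun i => (s i).toNat % q = b)).card ≤ (Iq q).card := by
        have b3 : ∑ b ∈ S t q, ((Iq q).filter (fun i => (s i).toNat % q = b)).card =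
            ((Iq q).filter (fun i => (s i).toNat % q ∈ S t q)).card := by
          rw [card_eq_sum_card_fiberwise (f := fun i => (s i).toNat % q) (t := S t q)]
          · apply sum_congr rfl
            intro b hb
            congr 1
            ext i
            simp only [mem_filter]
            constructor
            · rintro ⟨c1, c2⟩
              exact ⟨⟨c1, by rw [c2]; exact hb⟩, c2⟩
            · rintro ⟨⟨c1, _⟩, c2⟩
              exact ⟨c1, c2⟩
          · intro i hi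
            rw [mem_coe, mem_filter] at hi
            exact hi.2
        rw [b3]
        exact card_filter_le _ _
      have b4 : (Iq q).card ≤ I1.card := by rw [hIq]; exact card_filter_le _ _
      omega
    have a2 : (S t q).card * t ≤ I.card := a1.trans (card_le_card hI1I)
    rw [hn]
    exact_mod_cast a2
  have hone : ∀ t ∈ Icc 1 lam, ∑ q ∈ Ico Q (2 * Q), ∑ b ∈ S t q, |Dl y q b| ≤ if t ≤ I.card then n / t * N / L ^ (E + 2) else 0 := by
    intro t ht
    rw [mem_Icc] at ht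
    have ht0 : (0 : ℝ) < t := by exact_mod_cast ht.1
    split_ifs with htI
    · have hA0 : 1 ≤ n / t := by
        rw [le_div_iff₀ ht0, one_mul, hn]
        exact_mod_cast htI
      have hfam : Fam (n / t) (S t) := by
        constructor
        · intro q b hb
          rw [hS, mem_filter, mem_range] at hb
          refine ⟨hb.1, ?_⟩
          have c1 : 0 < ((Iq q).filter (fun i => (s i).toNat % q = b)).card := by omega
          obtain ⟨i, hi⟩ := card_pos.1 c1
          rw [mem_filter, hIq] at hi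
          have c2 := (mem_filter.1 hi.1).2
          rw [← hi.2]
          exact (Nat.gcd_rec q (s i).toNat).symm.trans c2.symm
        · intro q
          rw [le_div_iff₀ ht0]
          exact hcardS t ht.1 q
      have hlt : (t : ℝ) ≤ lam := by exact_mod_cast ht.2
      have key := h0 (n / t) hA0 (2 * Q) (by
          push_cast
          refine le_trans ?_ hQ2
          have e : L ^ (B1 + E + K + 6) = L ^ (E + K + 6) * L ^ B1 := by ring
          rw [e]
          have e2 : L ≤ L ^ (E + K + 6) := le_self_pow₀ hL1 (by omega)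
          have e3 : 2 ≤ L ^ (E + K + 6) := by linarith
          have e4 := mul_le_mul_of_nonneg_right e3 (by positivity : 0 ≤ Q * L ^ B1)
          linarith) (by
          rw [div_mul_eq_mul_div, le_div_iff₀ ht0]
          refine le_trans ?_ halpha
          exact mul_le_mul_of_nonneg_left hlt (by positivity)) (S t) hfam
      refine le_trans ?_ key
      apply sum_le_sum_of_subset_of_nonneg
      · intro q hq
        rw [mem_Ico] at hq
        rw [mem_Icc]
        omega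
      · intro _ _ _
        exact sum_nonneg fun _ _ => abs_nonneg _
    · apply le_of_eq
      apply sum_eq_zero
      intro q _
      have : S t q = ∅ := by
        rw [← card_eq_zero]
        by_contra hcon
        have c1 : (1 : ℝ) ≤ (S t q).card := by exact_mod_cast Nat.one_le_iff_ne_zero.2 hcon
        have c2 := hcardS t ht.1 q
        have c3 : (t : ℝ) ≤ n := by nlinarith
        rw [hn] at c3
        exact htI (by exact_mod_cast c3)
      rw [this, sum_empty]
  have hpart1 : ∑ t ∈ Icc 1 lam, ∑ q ∈ Ico Q (2 * Q), ∑ b ∈ S t q, |Dl y q b| ≤ n * N / (2 * L ^ E) := by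
    refine (sum_le_sum hone).trans ?_
    rw [← sum_filter]
    have a1 : ∑ t ∈ (Icc 1 lam).filter (fun t => t ≤ I.card), n / t * N / L ^ (E + 2) ≤ ∑ t ∈ Icc 1 I.card, n / t * N / L ^ (E + 2) := by
      apply sum_le_sum_of_subset_of_nonneg
      · intro t ht
        rw [mem_filter, mem_Icc] at ht
        rw [mem_Icc]
        omega
      · intro _ _ _
        positivity
    refine a1.trans ?_
    have a2 : ∑ t ∈ Icc 1 I.card, n / t * N / L ^ (E + 2) = n * N / L ^ (E + 2) * ∑ t ∈ Icc 1 I.card, 1 / (t : ℝ) := by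
      rw [mul_sum]
      apply sum_congr rfl
      intro t _
      ring
    rw [a2]
    have a3 := Pool.Agent.K1H51.LP.sum_inv_Icc' I.card
    have a4 : Real.log I.card ≤ 2 * L := by
      rw [hL]
      have : Real.log ((N : ℝ) ^ 2) = 2 * Real.log N := by rw [Real.log_pow]; norm_num
      rw [← this]
      exact Real.log_le_log hI0 (by exact_mod_cast hI)
    have a5 : ∑ t ∈ Icc 1 I.card, 1 / (t : ℝ) ≤ 3 * L := by linarith
    calc n * N / L ^ (E + 2) * ∑ t ∈ Icc 1 I.card, 1 / (t : ℝ) ≤ n * N / L ^ (E + 2) * (3 * L) :=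
          mul_le_mul_of_nonneg_left a5 (by positivity)
      _ = n * N / (2 * L ^ E) * (6 / L) := by
          rw [pow_add]
          field_simp
          ring
      _ ≤ n * N / (2 * L ^ E) * 1 := by
          apply mul_le_mul_of_nonneg_left _ (by positivity)
          rw [div_le_one hL0]
          linarith
      _ = _ := mul_one _
  have hfin : n * N / (2 * L ^ E) + n * N / (2 * L ^ E) = (I.card : ℝ) * N / L ^ E := by
    rw [hn]
    field_simp
    ring
  rw [← hfin]
  exact add_le_add hpart1 hpart2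

end Pool.Agent.K1H51.TM
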