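import Mathlib
import Pool.Agent.K1H51.TM.Low

set_option autoImplicit false

/-! The full range of the moduli. -/

namespace Pool.Agent.K1H51.TM

open Finset Pool.Agent.H373R2.T7
open H343E (psiAP psi1 unsmoothed psiAP_le psi1_le card_mod psiAP_nonneg psi1_nonneg Fam)
open Pool.Agent.K1H51.LP (spec)

/-- the first moment over a block of large moduli -/
theorem high (E K W : ℕ) : ∃ K1 C0 N0 : ℕ, ∀ N : ℕ, N0 ≤ N → ∀ M : ℕ, 3 * N ≤ M → M ≤ N ^ 2 →
    ∀ {ι : Type} (I : Finset ι) (s : ι → ℤ) (η : ℝ), 0 ≤ η → ((spec M I s η).card : ℝ) * N ≤ Real.log N ^ K * M →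
    ∀ y : ℕ, (N : ℝ) ≤ y * Real.log N ^ W → y ≤ N → ∀ Q : ℕ, 1 ≤ Q → (Q : ℝ) * Real.log N ^ K1 ≤ N → η * N * Real.log N ^ C0 ≤ Q →
    ∑ i ∈ I.filter (fun i => 1 ≤ s i ∧ s i ≤ N), ∑ q ∈ (Ico Q (2 * Q)).filter (fun q => (s i).toNat.Coprime q),
      |Dl y q (s i).toNat| ≤ I.card * N / Real.log N ^ E := by
  classical
  obtain ⟨K1, C0, n0, h0⟩ := block 1 (2 * (E + 1)) K W le_rfl
  obtain ⟨n1, h1⟩ := ev_L' 2
  refine ⟨K1 + E + 2, C0, n0 + n1 + 4, fun N hN M hM1 hM2 ι I s η hη hspec y hy1 hy2 Q hQ1 hQ2 hηQ => ?_⟩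
  have h0 := h0 N (by omega) M (by omega) hM2 I s η hη hspec y hy1 hy2 N (by omega) Q (2 * Q) hQ1 (by omega) le_rfl
  have h1 := h1 N (by omega)
  obtain ⟨L, hL⟩ : ∃ L, L = Real.log (N : ℝ) := ⟨_, rfl⟩
  rw [← hL] at h0 h1 hy1 hQ2 hηQ ⊢
  have hL0 : 0 < L := by linarith
  have hL1 : 1 ≤ L := by linarith
  have hNpos : 0 < N := by omega
  have hN0 : (0 : ℝ) < N := by exact_mod_cast hNpos
  have hQ0 : (0 : ℝ) < Q := by exact_mod_cast hQ1
  have h0 := h0 ((mul_le_mul_of_nonneg_left (pow_le_pow_right₀ hL1 (by omega)) hQ0.le).trans hQ2) hηQ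
  have hy0 : 1 ≤ y := by
    rcases Nat.eq_zero_or_pos y with h | h
    · rw [h] at hy1
      simp at hy1
      omega
    · exact h
  have hly : Real.log y ≤ L := by
    rw [hL]
    exact Real.log_le_log (by exact_mod_cast hy0) (by exact_mod_cast hy2)
  obtain ⟨I1, hI1⟩ : ∃ I1, I1 = I.filter (fun i => 1 ≤ s i ∧ s i ≤ N) := ⟨_, rfl⟩
  rw [← hI1] at h0 ⊢
  have hI1c : (I1.card : ℝ) ≤ I.card := by
    rw [hI1]
    exact_mod_cast card_filter_le _ _
  obtain ⟨V, hV⟩ : ∃ V : ι → ℝ, V = fun i => VO Lam (ww y) y Q (2 * Q) (s i).toNat := ⟨_, rfl⟩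
  have hV0 : ∀ i, 0 ≤ V i := by
    intro i
    rw [hV]
    exact sum_nonneg fun _ _ => sq_nonneg _
  have hone : ∀ i ∈ I1, ∑ q ∈ (Ico Q (2 * Q)).filter (fun q => (s i).toNat.Coprime q), |Dl y q (s i).toNat| ≤ √(Q * V i) + Q * L := by
    intro i _
    apply block_abs y Q (s i).toNat hy0 _ L hly (Real.sqrt_nonneg _)
    rw [Real.sq_sqrt (mul_nonneg hQ0.le (hV0 i)), hV]
  refine (sum_le_sum hone).trans ?_
  rw [sum_add_distrib, sum_const, nsmul_eq_mul]
  have hcs : ∑ i ∈ I1, √(Q * V i) ≤ I.card * N / L ^ (E + 1) := by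
    have a1 : (∑ i ∈ I1, √(Q * V i)) ^ 2 ≤ ((I.card : ℝ) * N / L ^ (E + 1)) ^ 2 := by
      refine sq_sum_le_card_mul_sum_sq.trans ?_
      have a2 : ∑ i ∈ I1, √(Q * V i) ^ 2 = Q * ∑ i ∈ I1, V i := by
        rw [mul_sum]
        apply sum_congr rfl
        intro i _
        rw [Real.sq_sqrt (mul_nonneg hQ0.le (hV0 i))]
      rw [a2]
      have a3 : ∑ i ∈ I1, V i ≤ I.card * (N ^ 2 / (Q * L ^ (2 * (E + 1)))) := by
        rw [hV]
        exact h0
      calc (I1.card : ℝ) * (Q * ∑ i ∈ I1, V i) ≤ I.card * (Q * (I.card * (N ^ 2 / (Q * L ^ (2 * (E + 1)))))) := by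
            apply mul_le_mul hI1c (mul_le_mul_of_nonneg_left a3 hQ0.le) _ (Nat.cast_nonneg _)
            exact mul_nonneg hQ0.le (sum_nonneg fun i _ => hV0 i)
        _ = _ := by
            rw [pow_mul' L 2 (E + 1)]
            field_simp
    exact le_of_sq_le_sq a1 (by positivity)
  have h2 : (I1.card : ℝ) * (Q * L) ≤ I.card * N / L ^ (E + 1) := by
    rw [le_div_iff₀ (by positivity)]
    calc (I1.card : ℝ) * (Q * L) * L ^ (E + 1) ≤ I.card * (Q * L) * L ^ (E + 1) := by gcongr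
      _ = I.card * (Q * L ^ (E + 2)) := by ring
      _ ≤ I.card * N := by
          apply mul_le_mul_of_nonneg_left _ (Nat.cast_nonneg _)
          exact (mul_le_mul_of_nonneg_left (pow_le_pow_right₀ hL1 (by omega)) hQ0.le).trans hQ2
  have h3 : (I.card : ℝ) * N / L ^ (E + 1) + I.card * N / L ^ (E + 1) ≤ I.card * N / L ^ E := by
    have e : (I.card : ℝ) * N / L ^ (E + 1) + I.card * N / L ^ (E + 1) = I.card * N / L ^ E * (2 / L) := by
      rw [pow_succ]
      field_simp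
      ring
    rw [e]
    have : 2 / L ≤ 1 := by
      rw [div_le_one hL0]
      exact h1
    calc (I.card : ℝ) * N / L ^ E * (2 / L) ≤ I.card * N / L ^ E * 1 := mul_le_mul_of_nonneg_left this (by positivity)
      _ = _ := mul_one _
  linarith

set_option maxHeartbeats 4000000 in
theorem asm (U : ℕ) : ∃ E W N0 : ℕ, ∀ N : ℕ, N0 ≤ N → ∀ {ι : Type} (I : Finset ι) (s : ι → ℤ) (Js : Finset ℕ),
    (∀ j ∈ Js, j < Nat.log 2 N + 1) →
    (∀ j ∈ Js, ∀ y : ℕ, (N : ℝ) ≤ y * Real.log N ^ W → y ≤ N →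
      ∑ i ∈ I.filter (fun i => 1 ≤ s i ∧ s i ≤ N), ∑ q ∈ (Ico (2 ^ j) (2 * 2 ^ j)).filter (fun q => (s i).toNat.Coprime q),
        |Dl y q (s i).toNat| ≤ I.card * N / Real.log N ^ E) →
    ∃ Bad ⊆ I, (Bad.card : ℝ) ≤ I.card / Real.log N ^ U ∧
      ∀ i ∈ I, i ∉ Bad → 1 ≤ s i → s i ≤ N → ∀ Y : ℕ → ℕ, (∀ q, Y q ≤ N) → ∀ Ms : Finset ℕ, Ms ⊆ Icc 1 N →
      (∀ q ∈ Ms, (s i).toNat.Coprime q ∧ Nat.log 2 q ∈ Js) →
      ∑ q ∈ Ms, |psiAP (Y q) q (s i).toNat - (Y q : ℝ) / (Nat.totient q : ℝ)| ≤ N / Real.log N ^ U := by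
  classical
  obtain ⟨W, hW⟩ : ∃ W, W = U + 5 := ⟨_, rfl⟩
  obtain ⟨e, he⟩ : ∃ e, e = W + U + 6 := ⟨_, rfl⟩
  obtain ⟨n1, h1⟩ := pnt_all (U + 4)
  obtain ⟨n2, h2⟩ := ev_L' 100
  obtain ⟨n3, h3⟩ := ev_log' W 2
  refine ⟨e + (U + W + 4), W + 1, n1 + n2 + n3 + 4, fun N hN ι I s Js hJr hblk => ?_⟩
  have h1 := h1 N (by omega)
  have h2 := h2 N (by omega)
  have h3 := h3 N (by omega)
  obtain ⟨L, hL⟩ : ∃ L, L = Real.log (N : ℝ) := ⟨_, rfl⟩
  rw [← hL] at h1 h2 h3 hblk ⊢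
  have hL0 : 0 < L := by linarith
  have hL1 : 1 ≤ L := by linarith
  have hNpos : 0 < N := by omega
  have hN4 : (4 : ℝ) ≤ N := by exact_mod_cast (by omega : 4 ≤ N)
  have hN0 : (0 : ℝ) < N := by linarith
  -- the step
  obtain ⟨St, hSt⟩ : ∃ St, St = ⌊(N : ℝ) / L ^ W⌋₊ := ⟨_, rfl⟩
  have hLW0 : 0 < L ^ W := by positivity
  have hLW1 : 1 ≤ L ^ W := one_le_pow₀ hL1
  have hSt1 : (St : ℝ) ≤ N / L ^ W := by rw [hSt]; exact Nat.floor_le (by positivity)
  have hNLW : 2 * L ^ W ≤ N := by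
    refine h3.trans ?_
    rw [Real.sqrt_le_left hN0.le]
    nlinarith
  have hSt2 : (N : ℝ) / L ^ W < St + 1 := by rw [hSt]; exact Nat.lt_floor_add_one _
  have hNLW' : 2 ≤ (N : ℝ) / L ^ W := by rw [le_div_iff₀ hLW0]; exact hNLW
  have hSt3 : (N : ℝ) / L ^ W ≤ 2 * St := by linarith
  have hStpos : 1 ≤ St := by
    have : (0 : ℝ) < St := by linarith
    exact_mod_cast this
  have hSt0 : (0 : ℝ) < St := by exact_mod_cast hStpos
  have hStN : St ≤ N := by
    have : (St : ℝ) ≤ N := hSt1.trans (div_le_self hN0.le hLW1)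
    exact_mod_cast this
  obtain ⟨G, hG⟩ : ∃ G, G = grid N St := ⟨_, rfl⟩
  have hGcard : (G.card : ℝ) ≤ L ^ (W + 1) := by
    have h4 := grid_card N St
    rw [← hG] at h4
    have h5 : (G.card : ℝ) ≤ ((N / St + 2 : ℕ) : ℝ) := by exact_mod_cast h4
    push_cast at h5
    have h6 : ((N / St : ℕ) : ℝ) ≤ N / St := Nat.cast_div_le
    have h7 : (N : ℝ) / St ≤ 2 * L ^ W := by
      rw [div_le_iff₀ hSt0]
      rw [div_le_iff₀ hLW0] at hSt3
      linarith
    have h8 : L ^ (W + 1) = L ^ W * L := pow_succ _ _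
    rw [h8]
    nlinarith
  have hGy : ∀ y ∈ G, y ≠ 0 → y ≤ N ∧ 1 ≤ y ∧ (N : ℝ) ≤ y * L ^ (W + 1) := by
    intro y hy hy0
    rw [hG] at hy
    refine ⟨grid_le N St y hy, by omega, ?_⟩
    have h4 : (St : ℝ) ≤ y := by exact_mod_cast grid_ge N St y hStN hy hy0
    rw [div_le_iff₀ hLW0] at hSt3
    calc (N : ℝ) ≤ 2 * St * L ^ W := hSt3
      _ ≤ (L * y) * L ^ W := by
          apply mul_le_mul_of_nonneg_right _ hLW0.le
          exact mul_le_mul (by linarith) h4 hSt0.le hL0.le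
      _ = y * L ^ (W + 1) := by ring
  have hJcard : (Js.card : ℝ) ≤ 4 * L := by
    have h4 : Js.card ≤ Nat.log 2 N + 1 := by
      have : Js ⊆ range (Nat.log 2 N + 1) := fun j hj => mem_range.2 (hJr j hj)
      have := card_le_card this
      rwa [card_range] at this
    have h5 := Pool.Agent.K1H51.LP.nlog N L hNpos hL1 (by rw [← hL]; linarith)
    have h6 : (Js.card : ℝ) ≤ ((Nat.log 2 N + 1 : ℕ) : ℝ) := by exact_mod_cast h4
    push_cast at h6
    linarith
  -- the bad members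
  obtain ⟨F, hF⟩ : ∃ F : ℕ → ℕ → ι → ℝ, F = fun y j i => ∑ q ∈ (Ico (2 ^ j) (2 * 2 ^ j)).filter (fun q => (s i).toNat.Coprime q),
    |Dl y q (s i).toNat| := ⟨_, rfl⟩
  obtain ⟨Bd, hBd⟩ : ∃ Bd : ℕ → ℕ → Finset ι, Bd = fun y j => (I.filter (fun i => 1 ≤ s i ∧ s i ≤ N)).filter
    (fun i => (N : ℝ) / L ^ e < F y j i) := ⟨_, rfl⟩
  have hBdcard : ∀ y ∈ G, y ≠ 0 → ∀ j ∈ Js, ((Bd y j).card : ℝ) ≤ I.card / L ^ (U + W + 4) := by
    intro y hy hy0 j hj
    obtain ⟨g1, g2, g3⟩ := hGy y hy hy0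
    have h4 := hblk j hj y g3 g1
    have h5 : ((Bd y j).card : ℝ) * ((N : ℝ) / L ^ e) ≤ ∑ i ∈ I.filter (fun i => 1 ≤ s i ∧ s i ≤ N), F y j i := by
      rw [← nsmul_eq_mul]
      refine (card_nsmul_le_sum (Bd y j) (fun i => F y j i) _ ?_).trans ?_
      · intro i hi
        rw [hBd] at hi
        exact (mem_filter.1 hi).2.le
      · apply sum_le_sum_of_subset_of_nonneg
        · rw [hBd]
          exact filter_subset _ _
        · intro _ _ _
          rw [hF]
          exact sum_nonneg fun _ _ => abs_nonneg _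
    have h6 : ((Bd y j).card : ℝ) * ((N : ℝ) / L ^ e) ≤ I.card * N / L ^ (e + (U + W + 4)) := by
      refine h5.trans ?_
      rw [hF]
      exact h4
    rw [le_div_iff₀ (by positivity)]
    have h7 : (I.card : ℝ) * N / L ^ (e + (U + W + 4)) = (I.card / L ^ (U + W + 4)) * (N / L ^ e) := by
      rw [pow_add]
      field_simp
    rw [h7] at h6
    have h8 : (0 : ℝ) < (N : ℝ) / L ^ e := by positivity
    have h9 := le_of_mul_le_mul_right h6 h8
    rwa [le_div_iff₀ (by positivity)] at h9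
  obtain ⟨Bad, hBad⟩ : ∃ Bad : Finset ι, Bad = (G.erase 0).biUnion (fun y => Js.biUnion (fun j => Bd y j)) := ⟨_, rfl⟩
  refine ⟨Bad, ?_, ?_, ?_⟩
  · intro i hi
    rw [hBad, mem_biUnion] at hi
    obtain ⟨y, _, hi⟩ := hi
    rw [mem_biUnion] at hi
    obtain ⟨j, _, hi⟩ := hi
    rw [hBd] at hi
    exact (mem_filter.1 (mem_filter.1 hi).1).1
  · have h4 : (Bad.card : ℝ) ≤ ∑ y ∈ G.erase 0, ∑ j ∈ Js, ((Bd y j).card : ℝ) := by
      have h5 : Bad.card ≤ ∑ y ∈ G.erase 0, ∑ j ∈ Js, (Bd y j).card := by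
        rw [hBad]
        refine card_biUnion_le.trans (sum_le_sum fun y _ => ?_)
        exact card_biUnion_le
      exact_mod_cast h5
    have h5 : ∑ y ∈ G.erase 0, ∑ j ∈ Js, ((Bd y j).card : ℝ) ≤ ∑ y ∈ G.erase 0, ∑ j ∈ Js, (I.card : ℝ) / L ^ (U + W + 4) := by
      apply sum_le_sum
      intro y hy
      rw [mem_erase] at hy
      apply sum_le_sum
      intro j hj
      exact hBdcard y hy.2 hy.1 j hj
    refine h4.trans (h5.trans ?_)
    rw [sum_const, sum_const, nsmul_eq_mul, nsmul_eq_mul]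
    have h6 : ((G.erase 0).card : ℝ) ≤ L ^ (W + 1) := by
      refine le_trans ?_ hGcard
      exact_mod_cast card_le_card (erase_subset _ _)
    calc ((G.erase 0).card : ℝ) * ((Js.card : ℝ) * (I.card / L ^ (U + W + 4))) ≤ L ^ (W + 1) * ((4 * L) * (I.card / L ^ (U + W + 4))) := by
          gcongr
      _ ≤ L ^ (W + 1) * ((L ^ 2) * (I.card / L ^ (U + W + 4))) := by
          gcongr
          nlinarith
      _ = (I.card / L ^ U) / L := by
          have : L ^ (U + W + 4) = L ^ U * L ^ (W + 1) * L ^ 2 * L := by ring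
          rw [this]
          field_simp
      _ ≤ I.card / L ^ U := div_le_self (by positivity) hL1
  · intro i hiI hiB hs1 hs2 Y hY Ms hMsI hMs
    obtain ⟨a, ha⟩ : ∃ a, a = (s i).toNat := ⟨_, rfl⟩
    rw [← ha] at hMs ⊢
    -- the discrepancies at the points of the grid
    have hS : ∀ y ∈ G, ∑ q ∈ Ms, |Dl y q a| ≤ (4 * L) * (N / L ^ e) := by
      intro y hy
      by_cases hy0 : y = 0
      · rw [hy0]
        simp only [Dl_zero, abs_zero, sum_const_zero]
        positivity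
      obtain ⟨g1, g2, g3⟩ := hGy y hy hy0
      rw [← sum_fiberwise_of_maps_to (fun q hq => (hMs q hq).2)]
      have hblk : ∀ j ∈ Js, ∑ q ∈ Ms.filter (fun q => Nat.log 2 q = j), |Dl y q a| ≤ N / L ^ e := by
        intro j hj
        have hnot : i ∉ Bd y j := by
          intro hc
          apply hiB
          rw [hBad, mem_biUnion]
          exact ⟨y, mem_erase.2 ⟨hy0, hy⟩, mem_biUnion.2 ⟨j, hj, hc⟩⟩
        have hV : F y j i ≤ (N : ℝ) / L ^ e := by
          by_contra hcon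
          push Not at hcon
          apply hnot
          rw [hBd, mem_filter, mem_filter]
          exact ⟨⟨hiI, hs1, hs2⟩, hcon⟩
        refine le_trans ?_ hV
        rw [hF]
        dsimp only
        rw [← ha]
        apply sum_le_sum_of_subset_of_nonneg
        · intro q hq
          rw [mem_filter] at hq
          obtain ⟨q0, q6⟩ := hq
          have q1 := mem_Icc.1 (hMsI q0)
          rw [mem_filter, mem_Ico]
          have r1 : 2 ^ Nat.log 2 q ≤ q := Nat.pow_log_le_self 2 (by omega)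
          have r2 : q < 2 ^ (Nat.log 2 q + 1) := Nat.lt_pow_succ_log_self (by norm_num) q
          rw [q6] at r1 r2
          rw [pow_succ] at r2
          exact ⟨⟨r1, by omega⟩, (hMs q q0).1⟩
        · intro _ _ _
          exact abs_nonneg _
      refine (sum_le_sum hblk).trans ?_
      rw [sum_const, nsmul_eq_mul]
      exact mul_le_mul_of_nonneg_right hJcard (by positivity)
    -- interpolation
    have hnear : ∀ q ∈ Ms, |psiAP (Y q) q a - (Y q : ℝ) / (Nat.totient q : ℝ)| ≤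
        2 * (∑ y ∈ G, |Dl y q a|) + (St * L * (1 / (Nat.totient q : ℝ)) + N / L ^ (U + 4) * (1 / (Nat.totient q : ℝ))) := by
      intro q _
      obtain ⟨y0, hy0, y1, hy1, a1, a2, a3, a4⟩ := grid_near N St (Y q) hStpos (hY q)
      rw [← hG] at hy0 hy1
      have b1 := interp y0 (Y q) y1 N St q a a1 a2 a3 a4 hNpos
      rw [← hL] at b1
      have b2 : |Dl y0 q a| ≤ ∑ y ∈ G, |Dl y q a| := single_le_sum (f := fun y => |Dl y q a|) (fun _ _ => abs_nonneg _) hy0
      have b3 : |Dl y1 q a| ≤ ∑ y ∈ G, |Dl y q a| := single_le_sum (f := fun y => |Dl y q a|) (fun _ _ => abs_nonneg _) hy1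
      have b4 := h1 (Y q) (hY q)
      have b5 : |ww (Y q) q - (Y q : ℝ) / (Nat.totient q : ℝ)| ≤ N / L ^ (U + 4) * (1 / (Nat.totient q : ℝ)) := by
        unfold ww
        have e1 : psi1 (Y q : ℝ) / (Nat.totient q : ℝ) - (Y q : ℝ) / (Nat.totient q : ℝ) = (psi1 (Y q : ℝ) - Y q) * (1 / (Nat.totient q : ℝ)) := by ring
        have hphi : 0 ≤ 1 / (Nat.totient q : ℝ) := by positivity
        rw [e1, abs_mul, abs_of_nonneg hphi]
        exact mul_le_mul_of_nonneg_right b4 hphi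
      have e2 : psiAP (Y q) q a - (Y q : ℝ) / (Nat.totient q : ℝ) = Dl (Y q) q a + (ww (Y q) q - (Y q : ℝ) / (Nat.totient q : ℝ)) := by
        unfold Dl
        ring
      rw [e2]
      refine (abs_add_le _ _).trans ?_
      linarith
    refine (sum_le_sum hnear).trans ?_
    rw [sum_add_distrib, sum_add_distrib, ← mul_sum, ← mul_sum, ← mul_sum, sum_comm]
    have hphi : ∑ q ∈ Ms, 1 / (Nat.totient q : ℝ) ≤ 8 * L ^ 2 := by
      refine le_trans ?_ (sum_inv_phi N L hNpos hL1 hL.symm)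
      exact sum_le_sum_of_subset_of_nonneg hMsI fun _ _ _ => by positivity
    have c1 : 2 * ∑ y ∈ G, ∑ q ∈ Ms, |Dl y q a| ≤ N / L ^ U / 4 := by
      have d1 : ∑ y ∈ G, ∑ q ∈ Ms, |Dl y q a| ≤ L ^ (W + 1) * ((4 * L) * (N / L ^ e)) := by
        refine (sum_le_sum hS).trans ?_
        rw [sum_const, nsmul_eq_mul]
        exact mul_le_mul_of_nonneg_right hGcard (by positivity)
      have d2 : L ^ e = L ^ (W + 1) * L ^ U * L ^ 5 := by
        rw [he]
        ring
      have d3 : L ^ (W + 1) * ((4 * L) * (N / L ^ e)) = N / L ^ U * (4 / L ^ 4) := by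
        rw [d2]
        field_simp
      have d4 : 4 / L ^ 4 ≤ 1 / 8 := by
        rw [div_le_div_iff₀ (by positivity) (by norm_num)]
        have : L ≤ L ^ 4 := le_self_pow₀ hL1 (by norm_num)
        linarith
      have d5 : 0 ≤ (N : ℝ) / L ^ U := by positivity
      rw [d3] at d1
      have := mul_le_mul_of_nonneg_left d4 d5
      linarith
    have c2 : (St : ℝ) * L * ∑ q ∈ Ms, 1 / (Nat.totient q : ℝ) ≤ N / L ^ U / 4 := by
      calc (St : ℝ) * L * ∑ q ∈ Ms, 1 / (Nat.totient q : ℝ) ≤ (N / L ^ W) * L * (8 * L ^ 2) := by gcongr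
        _ = N / L ^ U * (8 / L ^ 2) := by
            rw [hW, pow_add]
            field_simp
        _ ≤ N / L ^ U * (1 / 4) := by
            apply mul_le_mul_of_nonneg_left _ (by positivity)
            rw [div_le_div_iff₀ (by positivity) (by norm_num)]
            nlinarith
        _ = _ := by ring
    have c3 : (N : ℝ) / L ^ (U + 4) * ∑ q ∈ Ms, 1 / (Nat.totient q : ℝ) ≤ N / L ^ U / 4 := by
      calc (N : ℝ) / L ^ (U + 4) * ∑ q ∈ Ms, 1 / (Nat.totient q : ℝ) ≤ (N / L ^ (U + 4)) * (8 * L ^ 2) := by gcongr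
        _ = N / L ^ U * (8 / L ^ 2) := by
            rw [pow_add]
            field_simp
        _ ≤ N / L ^ U * (1 / 4) := by
            apply mul_le_mul_of_nonneg_left _ (by positivity)
            rw [div_le_div_iff₀ (by positivity) (by norm_num)]
            nlinarith
        _ = _ := by ring
    have c4 : (0 : ℝ) ≤ N / L ^ U := by positivity
    linarith

/-- **The full range of the moduli.** -/
theorem crit4 (U K : ℕ) : ∃ K1 C0 N0 : ℕ, ∀ N : ℕ, N0 ≤ N → ∀ M : ℕ, 3 * N ≤ M → M ≤ N ^ 2 →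
    ∀ {ι : Type} (I : Finset ι) (s : ι → ℤ) (η : ℝ), 0 ≤ η → ((spec M I s η).card : ℝ) * N ≤ Real.log N ^ K * M →
    (((I ×ˢ I).filter (fun p => s p.1 = s p.2)).card : ℝ) ≤ Real.log N ^ K * I.card →
    η ^ 2 * Real.log N ^ C0 ≤ 1 → η ^ 2 * N * Real.log N ^ C0 ≤ I.card →
    ∃ Bad ⊆ I, (Bad.card : ℝ) ≤ I.card / Real.log N ^ U ∧
      ∀ i ∈ I, i ∉ Bad → 1 ≤ s i → s i ≤ N → ∀ Y : ℕ → ℕ, (∀ q, Y q ≤ N) → ∀ Ms : Finset ℕ, Ms ⊆ Icc 1 N →
      (∀ q ∈ Ms, (s i).toNat.Coprime q ∧ (q : ℝ) * Real.log N ^ K1 ≤ N) →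
      ∑ q ∈ Ms, |psiAP (Y q) q (s i).toNat - (Y q : ℝ) / (Nat.totient q : ℝ)| ≤ N / Real.log N ^ U := by
  classical
  obtain ⟨E, W, n0, h0⟩ := asm U
  obtain ⟨Kh, Ch, n1, h1⟩ := high E K W
  obtain ⟨Kl, n2, h2⟩ := low E K W
  obtain ⟨n3, h3⟩ := ev_L' 4
  obtain ⟨n4, h4⟩ := ev_log' (2 * U + K) 1
  refine ⟨Kh + Kl, 2 * Ch + Kl + 1, n0 + n1 + n2 + n3 + n4 + 4, fun N hN M hM1 hM2 ι I s η hη hspec hmult hη1 hη2 => ?_⟩
  have h0 := h0 N (by omega) I s
  have h1 := h1 N (by omega) M hM1 hM2 I s η hη hspec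
  have h2 := h2 N (by omega) M (by omega) hM2 I s η hη hspec hmult
  have h3 := h3 N (by omega)
  have h4 := h4 N (by omega)
  obtain ⟨L, hL⟩ : ∃ L, L = Real.log (N : ℝ) := ⟨_, rfl⟩
  rw [← hL] at h0 h1 h2 h3 h4 hspec hmult hη1 hη2 ⊢
  have hL0 : 0 < L := by linarith
  have hL1 : 1 ≤ L := by linarith
  have hNpos : 0 < N := by omega
  have hN0 : (0 : ℝ) < N := by exact_mod_cast hNpos
  have hs0 : 0 < √(N : ℝ) := Real.sqrt_pos.2 hN0
  have hs2 : √(N : ℝ) * √(N : ℝ) = N := Real.mul_self_sqrt hN0.le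
  rcases le_or_gt I.card (N ^ 2) with hI | hI
  · obtain ⟨Js, hJs⟩ : ∃ Js : Finset ℕ, Js = (range (Nat.log 2 N + 1)).filter
      (fun j : ℕ => ((2 ^ j : ℕ) : ℝ) * L ^ (Kh + Kl) ≤ N) := ⟨_, rfl⟩
    obtain ⟨Bad, hB1, hB2, hB3⟩ := h0 Js (by
        intro j hj
        rw [hJs, mem_filter, mem_range] at hj
        exact hj.1) (by
        intro j hj y hy1 hy2
        rw [hJs, mem_filter] at hj
        have hq1 : 1 ≤ 2 ^ j := Nat.one_le_two_pow
        have hq0 : (0 : ℝ) < ((2 ^ j : ℕ) : ℝ) := by exact_mod_cast hq1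
        rcases le_or_gt (η * N * L ^ Ch) ((2 ^ j : ℕ) : ℝ) with hc | hc
        · exact h1 y hy1 hy2 (2 ^ j) hq1
            ((mul_le_mul_of_nonneg_left (pow_le_pow_right₀ hL1 (by omega)) hq0.le).trans hj.2) hc
        · apply h2 hI ((mul_le_mul_of_nonneg_left (pow_le_pow_right₀ hL1 (by omega)) (by positivity)).trans hη1) y hy1 hy2 (2 ^ j) hq1
            ((mul_le_mul_of_nonneg_left (pow_le_pow_right₀ hL1 (by omega)) hq0.le).trans hj.2)
          have a1 : ((2 ^ j : ℕ) : ℝ) ^ 2 ≤ (η * N * L ^ Ch) ^ 2 := pow_le_pow_left₀ hq0.le hc.le 2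
          calc ((2 ^ j : ℕ) : ℝ) ^ 2 * L ^ Kl ≤ (η * N * L ^ Ch) ^ 2 * L ^ Kl := mul_le_mul_of_nonneg_right a1 (by positivity)
            _ = (η ^ 2 * N * L ^ (2 * Ch + Kl)) * N := by
                rw [pow_add, pow_mul' L 2 Ch]
                ring
            _ ≤ (η ^ 2 * N * L ^ (2 * Ch + Kl + 1)) * N := by
                apply mul_le_mul_of_nonneg_right _ hN0.le
                exact mul_le_mul_of_nonneg_left (pow_le_pow_right₀ hL1 (by omega)) (by positivity)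
            _ ≤ I.card * N := mul_le_mul_of_nonneg_right hη2 hN0.le)
    refine ⟨Bad, hB1, hB2, ?_⟩
    intro i hiI hiB hs1 hs2 Y hY Ms hMsI hMs
    apply hB3 i hiI hiB hs1 hs2 Y hY Ms hMsI
    intro q hq
    obtain ⟨m1, m2⟩ := hMs q hq
    have m3 := mem_Icc.1 (hMsI hq)
    refine ⟨m1, ?_⟩
    rw [hJs, mem_filter, mem_range]
    have r1 : 2 ^ Nat.log 2 q ≤ q := Nat.pow_log_le_self 2 (by omega)
    have r1' : ((2 ^ Nat.log 2 q : ℕ) : ℝ) ≤ q := by exact_mod_cast r1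
    refine ⟨by have := Nat.log_mono_right (b := 2) m3.2; omega, ?_⟩
    exact (mul_le_mul_of_nonneg_right r1' (by positivity)).trans m2
  · -- very large families
    obtain ⟨I1, hI1⟩ : ∃ I1, I1 = I.filter (fun i => 1 ≤ s i ∧ s i ≤ N) := ⟨_, rfl⟩
    have hI0 : (0 : ℝ) < I.card := by
      have : 0 < I.card := by omega
      exact_mod_cast this
    refine ⟨I1, by rw [hI1]; exact filter_subset _ _, ?_, ?_⟩
    · have a1 : (I1.card : ℝ) ^ 2 ≤ N * (L ^ K * I.card) := by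
        have b0 : ∀ i ∈ I1, s i ∈ Icc (1 : ℤ) N := by
          intro i hi
          rw [hI1, mem_filter] at hi
          rw [mem_Icc]
          exact hi.2
        have b1 : (I1.card : ℝ) = ∑ m ∈ Icc (1 : ℤ) N, ((I1.filter (fun i => s i = m)).card : ℝ) := by
          have := card_eq_sum_card_fiberwise (f := s) (s := I1) (t := Icc (1 : ℤ) N) (fun i hi => b0 i hi)
          rw [this]
          push_cast
          rfl
        have b2 : (∑ m ∈ Icc (1 : ℤ) N, ((I1.filter (fun i => s i = m)).card : ℝ)) ^ 2 ≤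
            ((Icc (1 : ℤ) N).card : ℝ) * ∑ m ∈ Icc (1 : ℤ) N, ((I1.filter (fun i => s i = m)).card : ℝ) ^ 2 := sq_sum_le_card_mul_sum_sq
        have b3 : ((Icc (1 : ℤ) N).card : ℝ) = N := by
          rw [Int.card_Icc]
          simp
        have b4 : ∑ m ∈ Icc (1 : ℤ) N, ((I1.filter (fun i => s i = m)).card : ℝ) ^ 2 ≤ (((I ×ˢ I).filter (fun p => s p.1 = s p.2)).card : ℝ) := by
          have c1 : ∑ m ∈ Icc (1 : ℤ) N, (I1.filter (fun i => s i = m)).card ^ 2 = ((I1 ×ˢ I1).filter (fun p => s p.1 = s p.2)).card := by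
            rw [card_eq_sum_card_fiberwise (f := fun p : ι × ι => s p.1) (t := Icc (1 : ℤ) N)]
            · apply sum_congr rfl
              intro b _
              rw [sq, ← card_product]
              congr 1
              ext ⟨i, j⟩
              simp only [mem_filter, mem_product]
              constructor
              · rintro ⟨⟨a1, a2⟩, a3, a4⟩
                exact ⟨⟨⟨a1, a3⟩, by rw [a2, a4]⟩, a2⟩
              · rintro ⟨⟨⟨a1, a2⟩, a3⟩, a4⟩
                exact ⟨⟨a1, a4⟩, a2, by rw [← a3]; exact a4⟩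
            · intro p hp
              rw [mem_coe, mem_filter, mem_product] at hp
              exact b0 p.1 hp.1.1
          have c2 : ((I1 ×ˢ I1).filter (fun p => s p.1 = s p.2)).card ≤ ((I ×ˢ I).filter (fun p => s p.1 = s p.2)).card := by
            apply card_le_card
            apply filter_subset_filter
            have : I1 ⊆ I := by rw [hI1]; exact filter_subset _ _
            exact product_subset_product this this
          rw [← c1] at c2
          exact_mod_cast c2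
        rw [b1]
        refine b2.trans ?_
        rw [b3]
        exact mul_le_mul_of_nonneg_left (b4.trans hmult) hN0.le
      rw [le_div_iff₀ (by positivity)]
      have a2 : ((I1.card : ℝ) * L ^ U) ^ 2 ≤ (I.card : ℝ) ^ 2 := by
        have b1 : L ^ (2 * U + K) ≤ N := by
          rw [one_mul] at h4
          refine h4.trans ?_
          have : (1 : ℝ) ≤ √(N : ℝ) := by
            rw [Real.one_le_sqrt]
            exact_mod_cast hNpos
          nlinarith
        have b2 : (N : ℝ) * N ≤ I.card := by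
          have : N * N ≤ I.card := by rw [← sq]; exact hI.le
          exact_mod_cast this
        calc ((I1.card : ℝ) * L ^ U) ^ 2 = (I1.card : ℝ) ^ 2 * L ^ (2 * U) := by
              rw [mul_pow, pow_mul' L 2 U]
          _ ≤ (N * (L ^ K * I.card)) * L ^ (2 * U) := mul_le_mul_of_nonneg_right a1 (by positivity)
          _ = (N * L ^ (2 * U + K)) * I.card := by
              rw [pow_add]
              ring
          _ ≤ (N * N) * I.card := by gcongr
          _ ≤ I.card * I.card := by gcongr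
          _ = (I.card : ℝ) ^ 2 := by ring
      exact le_of_sq_le_sq a2 hI0.le
    · intro i hiI hiB hs1 hs2
      exfalso
      apply hiB
      rw [hI1, mem_filter]
      exact ⟨hiI, hs1, hs2⟩

end Pool.Agent.K1H51.TM
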