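import Mathlib
import Pool.Agent.K1H51.TM.Fin
import Pool.Agent.K1H51.LD.Frac

set_option autoImplicit false

/-! The fractions `c + u / p` modulo a prime, `p ≤ P` and `u ≤ P ^ 2`. -/

namespace Pool.Agent.K1H51.TM

open Finset Pool.Agent.H373R2.T7
open Pool.Agent.H807R2.Dav
open Pool.Agent.K1H51.LD (pairs frac frac_sum count_interval)

lemma primes_ge (P : ℕ) (h : 7 ≤ P) : (P : ℝ) ≤ 4 * Real.log P * (((Icc 1 P).filter Nat.Prime).card : ℝ) := by
  have hP7 : (7 : ℝ) ≤ P := by exact_mod_cast h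
  have hlogP0 : 0 < Real.log P := Real.log_pos (by linarith)
  have hpi := Chebyshev.pi_ge P
  rw [div_le_iff₀ hlogP0] at hpi
  have hl2 := Real.log_two_gt_d9
  have hlog1 : Real.log ((P : ℝ) + 1) ≤ P * (3 / 8) := by
    have h6 : Real.log ((P : ℝ) + 1) = Real.log (((P : ℝ) + 1) / 8) + Real.log 8 := by
      rw [← Real.log_mul (by positivity) (by norm_num)]
      congr 1
      field_simp
    have h7 := Real.log_le_sub_one_of_pos (show 0 < ((P : ℝ) + 1) / 8 by positivity)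
    have h8 : Real.log 8 = 3 * Real.log 2 := by
      rw [show (8 : ℝ) = 2 ^ 3 by norm_num, Real.log_pow]
      norm_num
    have h9 := Real.log_two_lt_d9
    rw [h6, h8]
    linarith
  have hcard : ((((Icc 1 P).filter Nat.Prime).card : ℕ) : ℝ) = Nat.primeCounting P := by
    rw [← Nat.primesLE_card_eq_primeCounting]
    congr 2
    ext p
    rw [mem_filter, mem_Icc, Nat.mem_primesLE]
    constructor
    · rintro ⟨⟨_, h1⟩, h2⟩; exact ⟨h1, h2⟩
    · rintro ⟨h1, h2⟩; exact ⟨⟨h2.one_lt.le, h1⟩, h2⟩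
  rw [hcard]
  nlinarith

set_option maxHeartbeats 4000000 in
theorem frac_all : ∃ N₀ : ℕ, ∀ N : ℕ, N₀ ≤ N → ∀ P : ℕ, Real.log N ^ 4 ≤ P → 3 * P ≤ N → ∀ M : ℕ, M.Prime → 3 * N ≤ M →
    M ≤ 6 * N → ∀ c : ℤ,
    (∀ t : ℕ, 0 < t → t < M → ‖∑ i ∈ pairs P (P ^ 2), ee ((t : ℝ) * ((frac M c i : ℝ) / M))‖ ≤
      (Real.log N ^ 3 / P) * (pairs P (P ^ 2)).card) ∧
    ((pairs P (P ^ 2)).card : ℝ) / 20 ≤
      (((pairs P (P ^ 2)).filter (fun i => 1 ≤ frac M c i ∧ frac M c i ≤ N)).card : ℝ) := by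
  obtain ⟨n2, h2⟩ := ev_L' 1000
  refine ⟨n2 + 4, fun N hN P hP1 hP2 M hMp hM1 hM2 c => ?_⟩
  have h2 := h2 N (by omega)
  obtain ⟨L, hL⟩ : ∃ L, L = Real.log (N : ℝ) := ⟨_, rfl⟩
  rw [← hL] at h2 hP1 ⊢
  have hL0 : 0 < L := by linarith
  have hL1 : 1 ≤ L := by linarith
  have hNpos : 0 < N := by omega
  have hN4 : (4 : ℝ) ≤ N := by exact_mod_cast (by omega : 4 ≤ N)
  have hN0 : (0 : ℝ) < N := by linarith
  have hL4 : L ≤ L ^ 4 := le_self_pow₀ hL1 (by norm_num)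
  have hPbig : (1000 : ℝ) ≤ P := by linarith
  have hP7 : 7 ≤ P := by
    have : (7 : ℝ) ≤ P := by linarith
    exact_mod_cast this
  have hP0 : (0 : ℝ) < P := by linarith
  have hpi := primes_ge P hP7
  obtain ⟨pi, hpid⟩ : ∃ pi : ℝ, pi = (((Icc 1 P).filter Nat.Prime).card : ℝ) := ⟨_, rfl⟩
  rw [← hpid] at hpi
  have hpi0 : 0 ≤ pi := by rw [hpid]; exact Nat.cast_nonneg _
  have hcard : ((pairs P (P ^ 2)).card : ℝ) = pi * P ^ 2 := by
    unfold pairs
    rw [card_product, Nat.card_Icc, Nat.add_sub_cancel, hpid]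
    push_cast
    ring
  have hlogP : Real.log P ≤ L := by
    rw [hL]
    exact Real.log_le_log hP0 (by exact_mod_cast (by omega : P ≤ N))
  have hpi2 : (P : ℝ) ≤ 4 * L * pi := by
    refine hpi.trans ?_
    exact mul_le_mul_of_nonneg_right (by linarith) hpi0
  have hM0 : (0 : ℝ) < M := by exact_mod_cast hMp.pos
  have hPM : 6 * P < M := by
    have h3 : M ≠ 6 * P := by
      intro h
      rw [h] at hMp
      have h4 : (2 : ℕ) ∣ 6 * P := ⟨3 * P, by ring⟩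
      have h5 := (Nat.prime_dvd_prime_iff_eq Nat.prime_two hMp).1 h4
      omega
    omega
  have hlogM : Real.log M ≤ 2 * L := by
    have h4 : (M : ℝ) ≤ (N : ℝ) ^ 2 := by
      have : (M : ℝ) ≤ 6 * N := by exact_mod_cast hM2
      have h5 : (6 : ℝ) ≤ N := by
        have : (1000 : ℝ) * 3 ≤ N := by
          have : (3 : ℝ) * P ≤ N := by exact_mod_cast hP2
          linarith
        linarith
      nlinarith
    have h5 := Real.log_le_log hM0 h4
    rw [Real.log_pow, ← hL] at h5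
    exact_mod_cast h5
  have hlog2 : (Nat.log 2 M : ℝ) ≤ 3 * L := by
    have h4 : (2 : ℝ) ^ (Nat.log 2 M) ≤ M := by
      exact_mod_cast Nat.pow_log_le_self 2 hMp.ne_zero
    have h5 := Real.log_le_log (by positivity) h4
    rw [Real.log_pow] at h5
    have h6 := Real.log_two_gt_d9
    have h7 : (0 : ℝ) ≤ Nat.log 2 M := Nat.cast_nonneg _
    nlinarith
  have hη : ∀ t : ℕ, 0 < t → t < M → ‖∑ i ∈ pairs P (P ^ 2), ee ((t : ℝ) * ((frac M c i : ℝ) / M))‖ ≤
      (L ^ 3 / P) * (pairs P (P ^ 2)).card := by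
    intro t ht0 htM
    refine (frac_sum M P (P ^ 2) hMp hPM c t ht0 htM).trans ?_
    rw [hcard, ← hpid]
    have e0 : (L ^ 3 / P) * (pi * (P : ℝ) ^ 2) = L ^ 3 * pi * P := by
      field_simp
    rw [e0]
    have e1 : 2 * (Nat.log 2 M : ℝ) * ((P ^ 2 : ℕ) : ℝ) ≤ 24 * L ^ 2 * pi * P := by
      push_cast
      calc 2 * (Nat.log 2 M : ℝ) * (P : ℝ) ^ 2 ≤ 2 * (3 * L) * (P : ℝ) ^ 2 := by gcongr
        _ = 6 * L * P * P := by ring
        _ ≤ 6 * L * (4 * L * pi) * P := by gcongr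
        _ = _ := by ring
    have e2 : 24 * L ^ 2 * pi * P + pi * P ≤ L ^ 3 * pi * P := by
      have h3 : 24 * L ^ 2 + 1 ≤ L ^ 3 := by nlinarith [pow_pos hL0 2]
      have h4 : 0 ≤ pi * P := by positivity
      have h5 := mul_le_mul_of_nonneg_right h3 h4
      linarith
    linarith
  refine ⟨hη, ?_⟩
  have hh1 : 1 ≤ N / 2 := by omega
  have hh2 : 2 * (N / 2) < M := by
    have : 2 * (N / 2) ≤ N := by omega
    omega
  have hcount := count_interval (pairs P (P ^ 2)) (frac M c) M (N / 2) hMp.one_lt.le hh1 hh2 (by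
    intro i _
    unfold frac
    have hM0' : (0 : ℤ) < M := by exact_mod_cast hMp.pos
    exact ⟨Int.emod_nonneg _ hM0'.ne', Int.emod_lt_of_pos _ hM0'⟩) (L ^ 3 / P) (by positivity) hη
  have hsub : (((pairs P (P ^ 2)).filter (fun i => 1 ≤ frac M c i ∧ frac M c i ≤ 2 * ((N / 2 : ℕ) : ℤ))).card : ℝ) ≤
      (((pairs P (P ^ 2)).filter (fun i => 1 ≤ frac M c i ∧ frac M c i ≤ N)).card : ℝ) := by
    apply Nat.cast_le.2
    apply card_le_card
    intro i hi
    rw [mem_filter] at hi ⊢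
    refine ⟨hi.1, hi.2.1, ?_⟩
    have := hi.2.2
    omega
  refine le_trans ?_ (hcount.trans hsub)
  rw [div_eq_mul_inv]
  apply mul_le_mul_of_nonneg_left _ (Nat.cast_nonneg _)
  have hhr : (N : ℝ) / 3 ≤ ((N / 2 : ℕ) : ℝ) := by
    have h4 : N ≤ 2 * (N / 2) + 1 := by omega
    have h5 : (N : ℝ) ≤ 2 * ((N / 2 : ℕ) : ℝ) + 1 := by exact_mod_cast h4
    linarith
  have hMup : (M : ℝ) ≤ 6 * N := by exact_mod_cast hM2
  have e1 : 1 / 18 ≤ ((N / 2 : ℕ) : ℝ) / M := by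
    rw [div_le_div_iff₀ (by positivity) hM0]
    linarith
  have e2 : L ^ 3 / P ≤ 1 / 1000 := by
    rw [div_le_div_iff₀ hP0 (by norm_num)]
    calc L ^ 3 * 1000 ≤ L ^ 3 * L := mul_le_mul_of_nonneg_left h2 (by positivity)
      _ = L ^ 4 := by ring
      _ ≤ P := hP1
      _ = 1 * P := (one_mul _).symm
  linarith

end Pool.Agent.K1H51.TM
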