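import Mathlib
import Pool.Agent.K1H51.TM.Frc

set_option autoImplicit false

/-! The fractions `c + u / p` modulo a prime, `p ≤ P` and `u ≤ S`: sharper exponential sums. -/

namespace Pool.Agent.K1H51.TM

open Finset Pool.Agent.H373R2.T7
open Pool.Agent.H807R2.Dav
open Pool.Agent.K1H51.LD (pairs frac frac_sum count_interval card_primeFactors_le ee_frac geo_small div_mod_real)

/-- the residue of `t / p` -/
noncomputable def rp (M t p : ℕ) : ℕ := (t * ((p : ZMod M)⁻¹.val)) % M

/-- its distance from the multiples of `M` -/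
noncomputable def mp (M t p : ℕ) : ℕ := min (rp M t p) (M - rp M t p)

lemma rp_lt (M t p : ℕ) (hM : 1 ≤ M) : rp M t p < M := Nat.mod_lt _ hM

lemma rp_cong (M t p : ℕ) (hM : M.Prime) (hp0 : 0 < p) (hpM : p < M) : ((p * rp M t p : ℕ) : ZMod M) = (t : ZMod M) := by
  have : Fact M.Prime := ⟨hM⟩
  have hpz : (p : ZMod M) ≠ 0 := by
    intro h
    rw [ZMod.natCast_eq_zero_iff] at h
    have := Nat.le_of_dvd hp0 h
    omega
  unfold rp
  rw [Nat.cast_mul, ZMod.natCast_mod, Nat.cast_mul, ZMod.natCast_zmod_val]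
  field_simp

lemma rp_ne (M t p : ℕ) (hM : M.Prime) (hp0 : 0 < p) (hpM : p < M) (ht0 : 0 < t) (htM : t < M) : rp M t p ≠ 0 := by
  intro h0
  have hcong := rp_cong M t p hM hp0 hpM
  rw [h0, mul_zero, Nat.cast_zero, eq_comm, ZMod.natCast_eq_zero_iff] at hcong
  have := Nat.le_of_dvd ht0 hcong
  omega

/-- the number of the primes for which the residue is small -/
lemma count_p (M P X t : ℕ) (hM : M.Prime) (hP : P < M) (hXM : X ≤ M) (ht0 : 0 < t) (htM : t < M) :
    ((((Icc 1 P).filter Nat.Prime).filter (fun p => mp M t p ≤ X)).card : ℝ) ≤ 2 * ((P * X : ℕ) / M + 1) * (2 * Nat.log 2 M + 2) := by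
  classical
  have hM1 : 1 ≤ M := hM.one_lt.le
  obtain ⟨T, hT⟩ : ∃ T : ℕ → Finset ℕ, T = fun v => (Icc 1 (P * X)).filter (fun m => m ≡ v [MOD M]) := ⟨_, rfl⟩
  have hsub : ((Icc 1 P).filter Nat.Prime).filter (fun p => mp M t p ≤ X) ⊆
      (T t).biUnion (fun n => n.primeFactors) ∪ (T (M - t)).biUnion (fun n => n.primeFactors) := by
    intro p hp
    rw [mem_filter, mem_filter, mem_Icc] at hp
    obtain ⟨⟨⟨p1, p2⟩, p3⟩, p4⟩ := hp
    have hr := rp_lt M t p hM1
    have hr0 := rp_ne M t p hM (by omega) (by omega) ht0 htM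
    have hc := rp_cong M t p hM (by omega) (by omega)
    rw [mem_union, mem_biUnion, mem_biUnion]
    unfold mp at p4
    rcases min_le_iff.1 p4 with h | h
    · left
      refine ⟨p * rp M t p, ?_, ?_⟩
      · rw [hT, mem_filter, mem_Icc]
        refine ⟨⟨?_, Nat.mul_le_mul p2 h⟩, ?_⟩
        · have : 0 < p * rp M t p := Nat.mul_pos (by omega) (by omega)
          omega
        · exact (ZMod.natCast_eq_natCast_iff _ _ _).1 hc
      · rw [Nat.mem_primeFactors]
        exact ⟨p3, Dvd.intro _ rfl, Nat.mul_ne_zero (by omega) hr0⟩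
    · right
      refine ⟨p * (M - rp M t p), ?_, ?_⟩
      · rw [hT, mem_filter, mem_Icc]
        refine ⟨⟨?_, Nat.mul_le_mul p2 h⟩, ?_⟩
        · have : 0 < p * (M - rp M t p) := Nat.mul_pos (by omega) (by omega)
          omega
        · have hcong2 : ((p * (M - rp M t p) : ℕ) : ZMod M) = ((M - t : ℕ) : ZMod M) := by
            rw [Nat.cast_mul, Nat.cast_sub hr.le, Nat.cast_sub htM.le]
            rw [Nat.cast_mul] at hc
            rw [mul_sub, hc]
            simp
          exact (ZMod.natCast_eq_natCast_iff _ _ _).1 hcong2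
      · rw [Nat.mem_primeFactors]
        exact ⟨p3, Dvd.intro _ rfl, Nat.mul_ne_zero (by omega) (by omega)⟩
  have hPX : P * X ≤ M ^ 2 := by
    rw [sq]
    exact Nat.mul_le_mul hP.le hXM
  have hone : ∀ v, (((T v).biUnion (fun n => n.primeFactors)).card : ℝ) ≤ ((P * X : ℕ) / M + 1) * (2 * Nat.log 2 M + 2) := by
    intro v
    have h1 : ((T v).biUnion (fun n => n.primeFactors)).card ≤ (T v).card * (2 * Nat.log 2 M + 2) := by
      apply card_biUnion_le_card_mul
      intro n hn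
      rw [hT, mem_filter, mem_Icc] at hn
      refine (card_primeFactors_le n (by omega)).trans ?_
      have h2 : Nat.log 2 n ≤ Nat.log 2 (M ^ 2) := Nat.log_mono_right (hn.1.2.trans hPX)
      have h3 : Nat.log 2 (M ^ 2) < 2 * Nat.log 2 M + 2 := by
        apply Nat.log_lt_of_lt_pow (by positivity)
        have h4 : M < 2 ^ (Nat.log 2 M + 1) := Nat.lt_pow_succ_log_self (by norm_num) M
        calc M ^ 2 < (2 ^ (Nat.log 2 M + 1)) ^ 2 := Nat.pow_lt_pow_left h4 (by norm_num)
          _ = 2 ^ (2 * Nat.log 2 M + 2) := by rw [← pow_mul]; congr 1; ring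
      omega
    have h2 := H343E.card_mod (P * X) M v hM1
    have h3 : (((T v).biUnion (fun n => n.primeFactors)).card : ℝ) ≤ ((T v).card : ℝ) * (2 * Nat.log 2 M + 2) := by exact_mod_cast h1
    refine h3.trans ?_
    apply mul_le_mul_of_nonneg_right _ (by positivity)
    rw [hT]
    exact h2
  have h4 : ((((Icc 1 P).filter Nat.Prime).filter (fun p => mp M t p ≤ X)).card : ℝ) ≤
      (((T t).biUnion (fun n => n.primeFactors)).card : ℝ) + (((T (M - t)).biUnion (fun n => n.primeFactors)).card : ℝ) := by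
    have := (card_le_card hsub).trans (card_union_le _ _)
    exact_mod_cast this
  have h5 := hone t
  have h6 := hone (M - t)
  linarith

/-- the sum over `u` -/
lemma inner_le (M P S t p : ℕ) (hM : M.Prime) (hp0 : 0 < p) (hpM : p < M) (ht0 : 0 < t) (htM : t < M) :
    ‖∑ u ∈ Icc 1 S, ee ((u : ℝ) * (((t * ((p : ZMod M)⁻¹.val) : ℕ) : ℝ) / M))‖ ≤ min (S : ℝ) (M / mp M t p) := by
  have hM1 : 1 ≤ M := hM.one_lt.le
  have hM0 : (0 : ℝ) < M := by exact_mod_cast hM1
  have hr := rp_lt M t p hM1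
  have hr0 := rp_ne M t p hM hp0 hpM ht0 htM
  have hm1 : 1 ≤ mp M t p := by
    unfold mp
    rw [le_min_iff]
    omega
  have hm0 : (0 : ℝ) < mp M t p := by exact_mod_cast hm1
  rw [le_min_iff]
  constructor
  · refine (norm_sum_le _ _).trans ?_
    simp only [norm_ee]
    rw [sum_const, Nat.card_Icc, nsmul_eq_mul]
    simp
  · apply geo_small S _ _ (by positivity)
    have h6 := div_mod_real (t * ((p : ZMod M)⁻¹.val)) M hM1
    have hrd : (t * ((p : ZMod M)⁻¹.val)) % M = rp M t p := rfl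
    rw [hrd] at h6
    rw [h6, dd_add_int]
    have h9 := dd_ge (t := (rp M t p : ℝ) / M) (by positivity) (by
      rw [div_le_one hM0]
      exact_mod_cast hr.le)
    refine le_trans ?_ h9
    have h10 : (mp M t p : ℝ) / M ≤ min ((rp M t p : ℝ) / M) (1 - (rp M t p : ℝ) / M) := by
      rw [le_min_iff]
      constructor
      · apply div_le_div_of_nonneg_right _ hM0.le
        unfold mp
        exact_mod_cast min_le_left _ _
      · have e : 1 - (rp M t p : ℝ) / M = (((M - rp M t p : ℕ) : ℝ)) / M := by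
          rw [Nat.cast_sub hr.le]
          field_simp
        rw [e]
        apply div_le_div_of_nonneg_right _ hM0.le
        unfold mp
        exact_mod_cast min_le_right _ _
    have h11 : (0 : ℝ) ≤ (mp M t p : ℝ) / M := by positivity
    calc 3 / ((M : ℝ) / mp M t p) = 3 * ((mp M t p : ℝ) / M) := by field_simp
      _ ≤ _ := by linarith

lemma dyadic_le (S m M : ℕ) (hS : 1 ≤ S) (hm : 1 ≤ m) (hmM : m ≤ M) :
    min (S : ℝ) (M / m) ≤ ∑ k ∈ range (Nat.log 2 S + 1), if m ≤ M / 2 ^ k then (2 : ℝ) ^ (k + 1) else 0 := by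
  have hm0 : (0 : ℝ) < m := by exact_mod_cast hm
  obtain ⟨v, hv⟩ : ∃ v, v = M / m := ⟨_, rfl⟩
  have hv1 : 1 ≤ v := by rw [hv]; exact (Nat.one_le_div_iff hm).2 hmM
  -- the largest k with 2^k ≤ min S v
  obtain ⟨k, hk⟩ : ∃ k, k = Nat.log 2 (min S v) := ⟨_, rfl⟩
  have h1 : 2 ^ k ≤ min S v := by
    rw [hk]
    apply Nat.pow_log_le_self
    have : 1 ≤ min S v := le_min hS hv1
    omega
  have h2 : min S v < 2 ^ (k + 1) := by
    rw [hk]
    exact Nat.lt_pow_succ_log_self (by norm_num) _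
  have hkS : k ∈ range (Nat.log 2 S + 1) := by
    rw [mem_range, hk]
    have : Nat.log 2 (min S v) ≤ Nat.log 2 S := Nat.log_mono_right (min_le_left _ _)
    omega
  have h3 : m ≤ M / 2 ^ k := by
    rw [Nat.le_div_iff_mul_le (by positivity)]
    have h4 : 2 ^ k ≤ M / m := by rw [← hv]; exact h1.trans (min_le_right _ _)
    rw [Nat.le_div_iff_mul_le (by omega)] at h4
    linarith
  have h4 : min (S : ℝ) (M / m) ≤ 2 ^ (k + 1) := by
    have h5 : min (S : ℝ) (M / m) ≤ ((min S v : ℕ) : ℝ) + 1 := by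
      rw [Nat.cast_min]
      have h6 : (M : ℝ) / m ≤ v + 1 := by
        rw [hv, div_le_iff₀ hm0]
        have := Nat.lt_div_mul_add hm (a := M)
        have h7 : M ≤ (M / m + 1) * m := by
          rw [add_mul, one_mul]
          omega
        exact_mod_cast h7
      rcases le_total (S : ℝ) v with h | h
      · rw [min_eq_left h]
        exact (min_le_left _ _).trans (by linarith)
      · rw [min_eq_right h]
        exact (min_le_right _ _).trans h6
    have h6 : ((min S v : ℕ) : ℝ) + 1 ≤ 2 ^ (k + 1) := by exact_mod_cast h2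
    linarith
  refine h4.trans ?_
  have h5 := single_le_sum (f := fun k : ℕ => if m ≤ M / 2 ^ k then (2 : ℝ) ^ (k + 1) else 0)
    (fun _ _ => by positivity) hkS
  rw [if_pos h3] at h5
  exact h5

/-- exponential sums over the family of fractions -/
lemma frac_sum2 (M P S : ℕ) (hM : M.Prime) (hP : P < M) (hS : 1 ≤ S) (c : ℤ) (t : ℕ) (ht0 : 0 < t) (htM : t < M) :
    ‖∑ i ∈ pairs P S, ee ((t : ℝ) * ((frac M c i : ℝ) / M))‖ ≤
      (2 * Nat.log 2 M + 2) * (4 * P * (Nat.log 2 S + 1) + 8 * S) := by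
  classical
  have hM1 : 1 ≤ M := hM.one_lt.le
  have hM0 : (0 : ℝ) < M := by exact_mod_cast hM1
  have h1 : ∑ i ∈ pairs P S, ee ((t : ℝ) * ((frac M c i : ℝ) / M)) = ee ((t : ℝ) * ((c : ℝ) / M)) *
      ∑ p ∈ (Icc 1 P).filter Nat.Prime, ∑ u ∈ Icc 1 S, ee ((u : ℝ) * (((t * ((p : ZMod M)⁻¹.val) : ℕ) : ℝ) / M)) := by
    unfold pairs
    rw [sum_product, mul_sum]
    apply sum_congr rfl
    intro p _
    rw [mul_sum]
    apply sum_congr rfl
    intro u _
    exact ee_frac M hM1 c (p, u) t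
  rw [h1, norm_mul, norm_ee, one_mul]
  have h2 : ∀ p ∈ (Icc 1 P).filter Nat.Prime, ‖∑ u ∈ Icc 1 S, ee ((u : ℝ) * (((t * ((p : ZMod M)⁻¹.val) : ℕ) : ℝ) / M))‖ ≤
      ∑ k ∈ range (Nat.log 2 S + 1), if mp M t p ≤ M / 2 ^ k then (2 : ℝ) ^ (k + 1) else 0 := by
    intro p hp
    rw [mem_filter, mem_Icc] at hp
    have hr := rp_lt M t p hM1
    have hr0 := rp_ne M t p hM (by omega) (by omega) ht0 htM
    have hm1 : 1 ≤ mp M t p := by
      unfold mp
      rw [le_min_iff]
      omega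
    have hm2 : mp M t p ≤ M := by
      unfold mp
      exact (min_le_left _ _).trans hr.le
    exact (inner_le M P S t p hM (by omega) (by omega) ht0 htM).trans (dyadic_le S _ M hS hm1 hm2)
  refine (norm_sum_le _ _).trans ((sum_le_sum h2).trans ?_)
  rw [sum_comm]
  have h3 : ∀ k ∈ range (Nat.log 2 S + 1), ∑ p ∈ (Icc 1 P).filter Nat.Prime, (if mp M t p ≤ M / 2 ^ k then (2 : ℝ) ^ (k + 1) else 0) ≤
      (2 * Nat.log 2 M + 2) * (4 * P + 4 * 2 ^ k) := by
    intro k _
    rw [← sum_filter, sum_const, nsmul_eq_mul]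
    have h4 := count_p M P (M / 2 ^ k) t hM hP (Nat.div_le_self _ _) ht0 htM
    have h5 : ((P * (M / 2 ^ k) : ℕ) : ℝ) / M ≤ P / 2 ^ k := by
      push_cast
      rw [div_le_div_iff₀ hM0 (by positivity)]
      have h6 : ((M / 2 ^ k : ℕ) : ℝ) * 2 ^ k ≤ M := by exact_mod_cast Nat.div_mul_le_self M (2 ^ k)
      calc (P : ℝ) * ((M / 2 ^ k : ℕ) : ℝ) * 2 ^ k = P * (((M / 2 ^ k : ℕ) : ℝ) * 2 ^ k) := by ring
        _ ≤ P * M := mul_le_mul_of_nonneg_left h6 (Nat.cast_nonneg _)
    calc ((((Icc 1 P).filter Nat.Prime).filter (fun p => mp M t p ≤ M / 2 ^ k)).card : ℝ) * 2 ^ (k + 1) ≤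
          (2 * ((P * (M / 2 ^ k) : ℕ) / M + 1) * (2 * Nat.log 2 M + 2)) * 2 ^ (k + 1) := mul_le_mul_of_nonneg_right h4 (by positivity)
      _ ≤ (2 * (P / 2 ^ k + 1) * (2 * Nat.log 2 M + 2)) * 2 ^ (k + 1) := by gcongr
      _ = _ := by
          rw [pow_succ]
          field_simp
          ring
  refine (sum_le_sum h3).trans ?_
  rw [← mul_sum]
  apply mul_le_mul_of_nonneg_left _ (by positivity)
  rw [sum_add_distrib, sum_const, card_range, nsmul_eq_mul, ← mul_sum]
  have h4 : ∑ k ∈ range (Nat.log 2 S + 1), (2 : ℝ) ^ k ≤ 2 * S := by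
    rw [geom_sum_eq (by norm_num)]
    have h5 : (2 : ℝ) ^ Nat.log 2 S ≤ S := by exact_mod_cast Nat.pow_log_le_self 2 (by omega)
    have h6 : (2 : ℝ) ^ (Nat.log 2 S + 1) = 2 * 2 ^ Nat.log 2 S := by ring
    rw [h6]
    norm_num
    linarith
  push_cast
  linarith

set_option maxHeartbeats 4000000 in
theorem frac_all2 : ∃ N₀ : ℕ, ∀ N : ℕ, N₀ ≤ N → ∀ P : ℕ, Real.log N ^ 5 ≤ P → 3 * P ≤ N → ∀ M : ℕ, M.Prime → 3 * N ≤ M →
    M ≤ 6 * N → ∀ c : ℤ,
    (∀ t : ℕ, 0 < t → t < M → ‖∑ i ∈ pairs P P, ee ((t : ℝ) * ((frac M c i : ℝ) / M))‖ ≤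
      (Real.log N ^ 4 / P) * (pairs P P).card) ∧
    ((pairs P P).card : ℝ) / 20 ≤
      (((pairs P P).filter (fun i => 1 ≤ frac M c i ∧ frac M c i ≤ N)).card : ℝ) ∧
    (P : ℝ) ^ 2 ≤ 4 * Real.log N * (pairs P P).card := by
  obtain ⟨n2, h2⟩ := ev_L' 10000
  refine ⟨n2 + 4, fun N hN P hP1 hP2 M hMp hM1 hM2 c => ?_⟩
  have h2 := h2 N (by omega)
  obtain ⟨L, hL⟩ : ∃ L, L = Real.log (N : ℝ) := ⟨_, rfl⟩
  rw [← hL] at h2 hP1 ⊢
  have hL0 : 0 < L := by linarith
  have hL1 : 1 ≤ L := by linarith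
  have hNpos : 0 < N := by omega
  have hN4 : (4 : ℝ) ≤ N := by exact_mod_cast (by omega : 4 ≤ N)
  have hN0 : (0 : ℝ) < N := by linarith
  have hL4 : L ≤ L ^ 5 := le_self_pow₀ hL1 (by norm_num)
  have hPbig : (10000 : ℝ) ≤ P := by linarith
  have hP7 : 7 ≤ P := by
    have : (7 : ℝ) ≤ P := by linarith
    exact_mod_cast this
  have hP0 : (0 : ℝ) < P := by linarith
  have hpi := primes_ge P hP7
  obtain ⟨pi, hpid⟩ : ∃ pi : ℝ, pi = (((Icc 1 P).filter Nat.Prime).card : ℝ) := ⟨_, rfl⟩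
  rw [← hpid] at hpi
  have hpi0 : 0 ≤ pi := by rw [hpid]; exact Nat.cast_nonneg _
  have hcard : ((pairs P P).card : ℝ) = pi * P := by
    unfold pairs
    rw [card_product, Nat.card_Icc, Nat.add_sub_cancel, hpid]
    push_cast
    ring
  have hlogP : Real.log P ≤ L := by
    rw [hL]
    exact Real.log_le_log hP0 (by exact_mod_cast (by omega : P ≤ N))
  have hpi2 : (P : ℝ) ≤ 4 * L * pi := by
    refine hpi.trans ?_
    exact mul_le_mul_of_nonneg_right (by linarith) hpi0
  have hM0 : (0 : ℝ) < M := by exact_mod_cast hMp.pos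
  have hPM : P < M := by omega
  have hlogM : Real.log M ≤ 2 * L := by
    have h4 : (M : ℝ) ≤ (N : ℝ) ^ 2 := by
      have : (M : ℝ) ≤ 6 * N := by exact_mod_cast hM2
      have h5 : (6 : ℝ) ≤ N := by
        have : (10000 : ℝ) * 3 ≤ N := by
          have : (3 : ℝ) * P ≤ N := by exact_mod_cast hP2
          linarith
        linarith
      nlinarith
    have h5 := Real.log_le_log hM0 h4
    rw [Real.log_pow, ← hL] at h5
    exact_mod_cast h5
  have hlog2g : ∀ X : ℕ, 1 ≤ X → Real.log X ≤ 2 * L → (Nat.log 2 X : ℝ) ≤ 3 * L := by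
    intro X hX1 hX
    have h4 : (2 : ℝ) ^ (Nat.log 2 X) ≤ X := by
      exact_mod_cast Nat.pow_log_le_self 2 (by omega)
    have h5 := Real.log_le_log (by positivity) h4
    rw [Real.log_pow] at h5
    have h6 := Real.log_two_gt_d9
    have h7 : (0 : ℝ) ≤ Nat.log 2 X := Nat.cast_nonneg _
    nlinarith
  have hlog2 := hlog2g M hMp.pos hlogM
  have hlog2P := hlog2g P (by omega) (by linarith)
  have hη : ∀ t : ℕ, 0 < t → t < M → ‖∑ i ∈ pairs P P, ee ((t : ℝ) * ((frac M c i : ℝ) / M))‖ ≤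
      (L ^ 4 / P) * (pairs P P).card := by
    intro t ht0 htM
    refine (frac_sum2 M P P hMp hPM (by omega) c t ht0 htM).trans ?_
    rw [hcard]
    have e0 : (L ^ 4 / P) * (pi * (P : ℝ)) = L ^ 4 * pi := by
      field_simp
    rw [e0]
    have hΛ : (0 : ℝ) ≤ Nat.log 2 M := Nat.cast_nonneg _
    have hΛ' : (0 : ℝ) ≤ Nat.log 2 P := Nat.cast_nonneg _
    calc (2 * (Nat.log 2 M : ℝ) + 2) * (4 * P * (Nat.log 2 P + 1) + 8 * P) ≤ (8 * L) * (24 * L * P) := by
          apply mul_le_mul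
          · linarith
          · nlinarith
          · positivity
          · positivity
      _ = 192 * L ^ 2 * P := by ring
      _ ≤ 192 * L ^ 2 * (4 * L * pi) := by gcongr
      _ = 768 * (L ^ 3 * pi) := by ring
      _ ≤ L * (L ^ 3 * pi) := by
          apply mul_le_mul_of_nonneg_right _ (by positivity)
          linarith
      _ = _ := by ring
  refine ⟨hη, ?_, ?_⟩
  · have hh1 : 1 ≤ N / 2 := by omega
    have hh2 : 2 * (N / 2) < M := by
      have : 2 * (N / 2) ≤ N := by omega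
      omega
    have hcount := count_interval (pairs P P) (frac M c) M (N / 2) hMp.one_lt.le hh1 hh2 (by
      intro i _
      unfold frac
      have hM0' : (0 : ℤ) < M := by exact_mod_cast hMp.pos
      exact ⟨Int.emod_nonneg _ hM0'.ne', Int.emod_lt_of_pos _ hM0'⟩) (L ^ 4 / P) (by positivity) hη
    have hsub : (((pairs P P).filter (fun i => 1 ≤ frac M c i ∧ frac M c i ≤ 2 * ((N / 2 : ℕ) : ℤ))).card : ℝ) ≤
        (((pairs P P).filter (fun i => 1 ≤ frac M c i ∧ frac M c i ≤ N)).card : ℝ) := by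
      apply Nat.cast_le.2
      apply card_le_card
      intro i hi
      rw [mem_filter] at hi ⊢
      refine ⟨hi.1, hi.2.1, ?_⟩
      have := hi.2.2
      omega
    refine le_trans ?_ (hcount.trans hsub)
    rw [div_eq_mul_inv]
    apply mul_le_mul_of_nonneg_left _ (Nat.cast_nonneg _)
    have hhr : (N : ℝ) / 3 ≤ ((N / 2 : ℕ) : ℝ) := by
      have h4 : N ≤ 2 * (N / 2) + 1 := by omega
      have h5 : (N : ℝ) ≤ 2 * ((N / 2 : ℕ) : ℝ) + 1 := by exact_mod_cast h4
      linarith
    have hMup : (M : ℝ) ≤ 6 * N := by exact_mod_cast hM2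
    have e1 : 1 / 18 ≤ ((N / 2 : ℕ) : ℝ) / M := by
      rw [div_le_div_iff₀ (by positivity) hM0]
      linarith
    have e2 : L ^ 4 / P ≤ 1 / 1000 := by
      rw [div_le_div_iff₀ hP0 (by norm_num)]
      calc L ^ 4 * 1000 ≤ L ^ 4 * L := mul_le_mul_of_nonneg_left (by linarith) (by positivity)
        _ = L ^ 5 := by ring
        _ ≤ P := hP1
        _ = 1 * P := (one_mul _).symm
    linarith
  · rw [hcard]
    calc (P : ℝ) ^ 2 = P * P := sq _
      _ ≤ (4 * L * pi) * P := mul_le_mul_of_nonneg_right hpi2 hP0.le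
      _ = _ := by ring

/-- the coincidences among the fractions -/
lemma frac_mult (N P M : ℕ) (hN : 1 ≤ N) (hM : M.Prime) (hNM : N < M) (hPN : P ^ 2 ≤ N) (hP : 1 ≤ P) (hL : 1 ≤ Real.log N) (c : ℤ) :
    (((pairs P P ×ˢ pairs P P).filter (fun p => frac M c p.1 = frac M c p.2)).card : ℝ) ≤ 3 * Real.log N * (pairs P P).card := by
  classical
  have : Fact M.Prime := ⟨hM⟩
  have hM1 : 1 ≤ M := hM.one_lt.le
  have hPM : P < M := by nlinarith
  -- equality of the fractions means equality of the cross products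
  have hcross : ∀ i ∈ pairs P P, ∀ j ∈ pairs P P, frac M c i = frac M c j → i.2 * j.1 = j.2 * i.1 := by
    intro i hi j hj h
    unfold pairs at hi hj
    rw [mem_product, mem_filter, mem_Icc, mem_Icc] at hi hj
    obtain ⟨⟨⟨i1, i2⟩, i3⟩, i4, i5⟩ := hi
    obtain ⟨⟨⟨j1, j2⟩, j3⟩, j4, j5⟩ := hj
    have hne : ∀ p : ℕ, 1 ≤ p → p ≤ P → (p : ZMod M) ≠ 0 := by
      intro p h1 h2 h3
      rw [ZMod.natCast_eq_zero_iff] at h3
      have := Nat.le_of_dvd (by omega) h3
      omega
    have hi0 := hne i.1 i1 i2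
    have hj0 := hne j.1 j1 j2
    have e1 : ∀ k : ℕ × ℕ, ((frac M c k : ℤ) : ZMod M) = (c : ZMod M) + k.2 * (k.1 : ZMod M)⁻¹ := by
      intro k
      unfold frac
      rw [ZMod.intCast_mod]
      push_cast
      rw [ZMod.natCast_zmod_val]
    have e2 : (i.2 : ZMod M) * (i.1 : ZMod M)⁻¹ = (j.2 : ZMod M) * (j.1 : ZMod M)⁻¹ := by
      have e3 := e1 i
      rw [h, e1 j] at e3
      exact (add_left_cancel e3).symm
    have e3 : ((i.2 * j.1 : ℕ) : ZMod M) = ((j.2 * i.1 : ℕ) : ZMod M) := by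
      push_cast
      field_simp at e2
      linear_combination e2
    have e4 := (ZMod.natCast_eq_natCast_iff' _ _ _).1 e3
    have e5 : i.2 * j.1 < M := by
      have : i.2 * j.1 ≤ P * P := Nat.mul_le_mul i5 j2
      nlinarith
    have e6 : j.2 * i.1 < M := by
      have : j.2 * i.1 ≤ P * P := Nat.mul_le_mul j5 i2
      nlinarith
    rwa [Nat.mod_eq_of_lt e5, Nat.mod_eq_of_lt e6] at e4
  obtain ⟨Pr, hPr⟩ : ∃ Pr, Pr = (Icc 1 P).filter Nat.Prime := ⟨_, rfl⟩
  have hpairs : pairs P P = Pr ×ˢ Icc 1 P := by rw [hPr]; rfl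
  -- the pairs with equal fractions: the diagonal, and those with `p ∣ u`
  have hsub : ((pairs P P ×ˢ pairs P P).filter (fun p => frac M c p.1 = frac M c p.2)) ⊆
      (pairs P P).image (fun i => (i, i)) ∪ (((Pr ×ˢ Icc 1 P).filter (fun i => i.1 ∣ i.2)) ×ˢ Pr).image
        (fun x => (x.1, (x.2, x.1.2 * x.2 / x.1.1))) := by
    rintro ⟨i, j⟩ hij
    rw [mem_filter, mem_product] at hij
    obtain ⟨⟨hi, hj⟩, h⟩ := hij
    have h1 := hcross i hi j hj h
    rw [mem_union, mem_image, mem_image]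
    have hi' := hi
    have hj' := hj
    rw [hpairs, mem_product, hPr, mem_filter, mem_Icc, mem_Icc] at hi' hj'
    by_cases hp : i.1 = j.1
    · left
      refine ⟨i, hi, ?_⟩
      have h2 : i.2 = j.2 := by
        rw [← hp] at h1
        exact Nat.eq_of_mul_eq_mul_right hi'.1.2.pos h1
      have h3 : i = j := Prod.ext hp h2
      rw [h3]
    · right
      have hdvd : i.1 ∣ i.2 := by
        have h2 : i.1 ∣ i.2 * j.1 := by rw [h1]; exact Dvd.intro_left _ rfl
        rcases (Nat.Prime.dvd_mul hi'.1.2).1 h2 with h3 | h3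
        · exact h3
        · exact absurd ((Nat.prime_dvd_prime_iff_eq hi'.1.2 hj'.1.2).1 h3) hp
      refine ⟨(i, j.1), ?_, ?_⟩
      · rw [mem_product, mem_filter, ← hpairs]
        refine ⟨⟨hi, hdvd⟩, ?_⟩
        rw [hPr, mem_filter, mem_Icc]
        exact hj'.1
      · dsimp only
        rw [h1, Nat.mul_div_cancel _ hi'.1.2.pos]
  have hcard1 : (((pairs P P ×ˢ pairs P P).filter (fun p => frac M c p.1 = frac M c p.2)).card : ℝ) ≤
      (pairs P P).card + (((Pr ×ˢ Icc 1 P).filter (fun i => i.1 ∣ i.2)).card : ℝ) * Pr.card := by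
    have h1 := (card_le_card hsub).trans (card_union_le _ _)
    have h2 : ((pairs P P).image (fun i => (i, i))).card ≤ (pairs P P).card := card_image_le
    have h3 : ((((Pr ×ˢ Icc 1 P).filter (fun i => i.1 ∣ i.2)) ×ˢ Pr).image
        (fun x => (x.1, (x.2, x.1.2 * x.2 / x.1.1)))).card ≤ ((Pr ×ˢ Icc 1 P).filter (fun i => i.1 ∣ i.2)).card * Pr.card := by
      refine card_image_le.trans ?_
      rw [card_product]
    have h4 := h1.trans (add_le_add h2 h3)
    exact_mod_cast h4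
  have hcard2 : (((Pr ×ˢ Icc 1 P).filter (fun i => i.1 ∣ i.2)).card : ℝ) ≤ P * (1 + Real.log P) := by
    have h1 : (((Pr ×ˢ Icc 1 P).filter (fun i => i.1 ∣ i.2)).card : ℝ) = ∑ p ∈ Pr, (((Icc 1 P).filter (fun u => p ∣ u)).card : ℝ) := by
      have : ((Pr ×ˢ Icc 1 P).filter (fun i => i.1 ∣ i.2)).card = ∑ p ∈ Pr, ((Icc 1 P).filter (fun u => p ∣ u)).card := by
        rw [card_filter, sum_product]
        apply sum_congr rfl
        intro p _
        rw [card_filter]
      exact_mod_cast this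
    rw [h1]
    have h2 : ∀ p ∈ Pr, (((Icc 1 P).filter (fun u => p ∣ u)).card : ℝ) ≤ P * (1 / p) := by
      intro p hp
      rw [hPr, mem_filter, mem_Icc] at hp
      have h3 : ((Icc 1 P).filter (fun u => p ∣ u)).card = P / p := by
        have := Nat.card_multiples P p
        rw [← this]
        apply card_bij (fun u _ => u - 1)
        · intro u hu
          rw [mem_filter, mem_Icc] at hu
          rw [mem_filter, mem_range]
          have : u - 1 + 1 = u := by omega
          rw [this]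
          exact ⟨by omega, hu.2⟩
        · intro u hu v hv huv
          rw [mem_filter, mem_Icc] at hu hv
          omega
        · intro v hv
          rw [mem_filter, mem_range] at hv
          exact ⟨v + 1, by rw [mem_filter, mem_Icc]; exact ⟨by omega, hv.2⟩, by omega⟩
      rw [h3]
      have := Nat.cast_div_le (α := ℝ) (m := P) (n := p)
      rw [mul_one_div]
      exact this
    refine (sum_le_sum h2).trans ?_
    rw [← mul_sum]
    apply mul_le_mul_of_nonneg_left _ (Nat.cast_nonneg _)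
    refine le_trans ?_ (Pool.Agent.K1H51.LP.sum_inv_Icc' P)
    apply sum_le_sum_of_subset_of_nonneg
    · rw [hPr]
      exact filter_subset _ _
    · intro _ _ _
      positivity
  have hcard3 : ((pairs P P).card : ℝ) = Pr.card * P := by
    rw [hpairs, card_product, Nat.card_Icc, Nat.add_sub_cancel]
    push_cast
    ring
  refine hcard1.trans ?_
  rw [hcard3]
  have hlogP : Real.log P ≤ Real.log N := by
    apply Real.log_le_log (by exact_mod_cast hP)
    have : P ≤ N := by nlinarith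
    exact_mod_cast this
  have h5 : (0 : ℝ) ≤ (Pr.card : ℝ) * P := by positivity
  calc (Pr.card : ℝ) * P + (((Pr ×ˢ Icc 1 P).filter (fun i => i.1 ∣ i.2)).card : ℝ) * Pr.card ≤
        (Pr.card : ℝ) * P + (P * (1 + Real.log P)) * Pr.card := by gcongr
    _ = ((Pr.card : ℝ) * P) * (2 + Real.log P) := by ring
    _ ≤ ((Pr.card : ℝ) * P) * (3 * Real.log N) := by
        apply mul_le_mul_of_nonneg_left _ h5
        linarith
    _ = _ := by ring

end Pool.Agent.K1H51.TM
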